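import Pool.Agent.Lib.MP_602b76_co_Gen.Pair

/-!
# Many generators: almost all generating sets are not nested
-/

namespace Pool.Agent.Lib.MP_602b76_co_Gen

open Finset Pool.Agent.Lib.MP_602b76_co_Never

/-! ## Tuples with a given relation: the trivial bound -/

theorem rel_trivial {d k N : ℕ} {l : Fin k → ℤ} (hl : l ≠ 0) :
    ((tup d k N).filter (fun u => ∑ i, l i • u i = 0)).card * (2 * N + 1) ^ d ≤
      (2 * N + 1) ^ (d * k) := by
  obtain ⟨i, hi⟩ := Function.ne_iff.1 hl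
  have hi : l i ≠ 0 := hi
  have hbox : (Fintype.piFinset (fun _ : Fin d => Finset.Icc (-(N : ℤ)) N)).card =
      (2 * N + 1) ^ d := by
    rw [Fintype.card_piFinset]
    simp only [Int.card_Icc, Finset.prod_const, card_univ, Fintype.card_fin]
    congr 1
    omega
  rw [← card_tup d k N, ← hbox, ← card_product]
  apply Finset.card_le_card_of_injOn (fun p => Function.update p.1 i p.2)
  · rintro ⟨u, z⟩ hp
    rw [mem_coe, mem_product, mem_filter, mem_tup] at hp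
    rw [mem_coe, mem_tup]
    intro j m
    rcases eq_or_ne j i with rfl | hj
    · have h1 := mem_Icc.1 (Fintype.mem_piFinset.1 hp.2 m)
      simpa only [Function.update_self] using h1
    · simpa only [Function.update_of_ne hj] using hp.1.1 j m
  · rintro ⟨u, z⟩ hp ⟨u', z'⟩ hp' he
    rw [mem_coe, mem_product, mem_filter] at hp hp'
    simp only at he
    have hz : z = z' := by
      have := congrFun he i
      simpa only [Function.update_self] using this
    have huj : ∀ j, j ≠ i → u j = u' j := by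
      intro j hj
      have := congrFun he j
      simpa only [Function.update_of_ne hj] using this
    have h1 := hp.1.2
    have h2 := hp'.1.2
    simp only at h1 h2
    rw [← Finset.add_sum_erase _ _ (mem_univ i)] at h1 h2
    have h3 : ∑ j ∈ (Finset.univ : Finset (Fin k)).erase i, l j • u j =
        ∑ j ∈ (Finset.univ : Finset (Fin k)).erase i, l j • u' j :=
      Finset.sum_congr rfl (fun j hj => by rw [huj j (Finset.ne_of_mem_erase hj)])
    rw [h3] at h1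
    have h4 : l i • u i = l i • u' i := by
      have h5 := h1.trans h2.symm
      exact add_right_cancel h5
    have h5 : u i = u' i := smul_right_injective _ hi h4
    have h6 : u = u' := by
      funext j
      rcases eq_or_ne j i with rfl | hj
      · exact h5
      · exact huj j hj
    rw [h6, hz]

open Classical in
/-- The tuples with a nontrivial relation with coefficients of absolute value at most `L0`. -/
theorem short_card {d k N L0 : ℕ} :
    ((tup d k N).filter (fun u => ∃ l : Fin k → ℤ, l ≠ 0 ∧ (∀ i, |l i| ≤ (L0 : ℤ)) ∧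
      ∑ i, l i • u i = 0)).card * (2 * N + 1) ^ d ≤
        (2 * L0 + 1) ^ k * (2 * N + 1) ^ (d * k) := by
  obtain ⟨B, hB⟩ : ∃ B : Finset (Fin k → ℤ), B =
      (Fintype.piFinset (fun _ => Finset.Icc (-(L0 : ℤ)) L0)).filter (fun l => l ≠ 0) := ⟨_, rfl⟩
  have hBc : B.card ≤ (2 * L0 + 1) ^ k := by
    rw [hB]
    refine le_trans (card_filter_le _ _) (le_of_eq ?_)
    rw [Fintype.card_piFinset]
    simp only [Int.card_Icc, Finset.prod_const, card_univ, Fintype.card_fin]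
    congr 1
    omega
  have hsub : (tup d k N).filter (fun u => ∃ l : Fin k → ℤ, l ≠ 0 ∧ (∀ i, |l i| ≤ (L0 : ℤ)) ∧
      ∑ i, l i • u i = 0) ⊆
        B.biUnion (fun l => (tup d k N).filter (fun u => ∑ i, l i • u i = 0)) := by
    intro u hu
    rw [mem_filter] at hu
    obtain ⟨hu1, l, hl0, hlL, hl⟩ := hu
    rw [mem_biUnion]
    refine ⟨l, ?_, mem_filter.2 ⟨hu1, hl⟩⟩
    rw [hB, mem_filter, Fintype.mem_piFinset]
    exact ⟨fun i => mem_Icc.2 (abs_le.1 (hlL i)), hl0⟩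
  calc ((tup d k N).filter (fun u => ∃ l : Fin k → ℤ, l ≠ 0 ∧ (∀ i, |l i| ≤ (L0 : ℤ)) ∧
      ∑ i, l i • u i = 0)).card * (2 * N + 1) ^ d
      ≤ (∑ l ∈ B, ((tup d k N).filter (fun u => ∑ i, l i • u i = 0)).card) *
        (2 * N + 1) ^ d :=
        Nat.mul_le_mul_right _ (le_trans (card_le_card hsub) card_biUnion_le)
    _ = ∑ l ∈ B, ((tup d k N).filter (fun u => ∑ i, l i • u i = 0)).card *
        (2 * N + 1) ^ d := by rw [Finset.sum_mul]
    _ ≤ ∑ _l ∈ B, (2 * N + 1) ^ (d * k) := by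
        apply Finset.sum_le_sum
        intro l hl
        rw [hB, mem_filter] at hl
        exact rel_trivial hl.2
    _ = B.card * (2 * N + 1) ^ (d * k) := by rw [Finset.sum_const, smul_eq_mul]
    _ ≤ _ := Nat.mul_le_mul_right _ hBc

/-! ## The length of the shortest relation -/

theorem exists_R {d k s N : ℕ} (hd : 0 < d) (hk : k = d + (s + 1)) (hN : 0 < N) :
    ∃ R : ℕ, R ^ (s + 1) ≤ (2 * k * N) ^ d ∧ (2 * (k * N * R) + 1) ^ d < (R + 1) ^ k := by
  classical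
  have hex : ∃ r : ℕ, (2 * k * N) ^ d ≤ (r + 1) ^ (s + 1) :=
    ⟨(2 * k * N) ^ d, le_trans (Nat.le_succ _) (Nat.le_self_pow (by omega) _)⟩
  obtain ⟨R, hR⟩ : ∃ R, R = Nat.find hex := ⟨_, rfl⟩
  have hspec := Nat.find_spec hex
  rw [← hR] at hspec
  refine ⟨R, ?_, ?_⟩
  · rcases Nat.eq_zero_or_pos R with h0 | h0
    · rw [h0, zero_pow (by omega)]
      exact Nat.zero_le _
    · have hmin := Nat.find_min hex (m := R - 1) (by omega)
      rw [Nat.sub_add_cancel h0] at hmin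
      exact (not_le.1 hmin).le
  · have hkN : 1 < 2 * k * N := by
      have : 1 ≤ k * N := Nat.mul_pos (by omega) hN
      nlinarith
    calc (2 * (k * N * R) + 1) ^ d < (2 * k * N * (R + 1)) ^ d := by
          apply Nat.pow_lt_pow_left _ (by omega)
          nlinarith
      _ = (2 * k * N) ^ d * (R + 1) ^ d := mul_pow _ _ _
      _ ≤ (R + 1) ^ (s + 1) * (R + 1) ^ d := Nat.mul_le_mul_right _ hspec
      _ = (R + 1) ^ k := by rw [← pow_add, hk, Nat.add_comm d (s + 1)]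

/-! ## Two prescribed indices -/

theorem exists_equiv {α β : Type*} [DecidableEq β] (σ0 : α ≃ β) {a b : α} (hab : a ≠ b)
    {i j : β} (hij : i ≠ j) : ∃ σ : α ≃ β, σ a = i ∧ σ b = j := by
  obtain ⟨σ1, h1⟩ : ∃ σ1 : α ≃ β, σ1 a = i :=
    ⟨σ0.trans (Equiv.swap (σ0 a) i), by simp⟩
  have h2 : σ1 b ≠ i := by
    rw [← h1]
    exact fun h => hab (σ1.injective h).symm
  refine ⟨σ1.trans (Equiv.swap (σ1 b) j), ?_, by simp⟩
  rw [Equiv.trans_apply, h1, Equiv.swap_apply_of_ne_of_ne h2.symm hij]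

open Classical in
/-- The tuples with an unbalanced relation whose two largest coefficients are at `i` and `j`. -/
theorem bad_card {d e s N R k : ℕ} (hk : k = e + (s + 2)) {ε : ℝ} {i j : Fin k} (hij : i ≠ j) :
    ((tup d k N).filter (fun u => ∃ l : Fin k → ℤ, ∑ m, l m • u m = 0 ∧ l i ≠ 0 ∧
      (∀ m, |l m| ≤ |l i|) ∧ |l i| ≤ R ∧ (1 - ε) * |(l i : ℝ)| < |(l j : ℝ)|)).card ≤
      (((tup d e N) ×ˢ (tup d (s + 2) N)).filter (fun q => Unb ε R q.1 q.2)).card := by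
  subst hk
  have h01 : (Sum.inr 0 : Fin e ⊕ Fin (s + 2)) ≠ Sum.inr 1 := by
    intro h
    have := Sum.inr.inj h
    simp at this
  obtain ⟨σ, h0, h1⟩ := exists_equiv (finSumFinEquiv (m := e) (n := s + 2)) h01 hij
  apply Finset.card_le_card_of_injOn
    (fun u => ((fun m => u (σ (Sum.inl m))), (fun m => u (σ (Sum.inr m)))))
  · intro u hu
    rw [mem_coe, mem_filter, mem_tup] at hu
    obtain ⟨hu1, l, hl1, hl2, hl3, hl4, hl5⟩ := hu
    rw [mem_coe, mem_filter, mem_product, mem_tup, mem_tup]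
    refine ⟨⟨fun m q => hu1 _ q, fun m q => hu1 _ q⟩, fun m => l (σ (Sum.inl m)),
      fun m => l (σ (Sum.inr m)), ?_, ?_, ?_, ?_, ?_⟩
    · rw [← hl1, ← Equiv.sum_comp σ, Fintype.sum_sum_type]
    · show l (σ (Sum.inr 0)) ≠ 0
      rw [h0]
      exact hl2
    · intro m
      show |l (σ (Sum.inr m))| ≤ |l (σ (Sum.inr 0))|
      rw [h0]
      exact hl3 _
    · show |l (σ (Sum.inr 0))| ≤ R
      rw [h0]
      exact hl4
    · show (1 - ε) * |(l (σ (Sum.inr 0)) : ℝ)| < |(l (σ (Sum.inr 1)) : ℝ)|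
      rw [h0, h1]
      exact hl5
  · intro u _ u' _ he
    have he1 : ∀ m, u (σ (Sum.inl m)) = u' (σ (Sum.inl m)) :=
      fun m => congrFun (congrArg Prod.fst he) m
    have he2 : ∀ m, u (σ (Sum.inr m)) = u' (σ (Sum.inr m)) :=
      fun m => congrFun (congrArg Prod.snd he) m
    funext m
    obtain ⟨x, rfl⟩ := σ.surjective m
    rcases x with x | x
    · exact he1 x
    · exact he2 x

/-! ## The exceptional tuples -/

/-- The tuple `u` has an enumeration all of whose initial segments of size `n` with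
`n ^ (k - d) ≤ (2 k N) ^ (d k)` are edge-optimal. -/
def Exc (d k N : ℕ) (u : Fin k → Fin d → ℤ) : Prop :=
  ∃ e : ℕ ≃ (Fin d → ℤ), ∀ n : ℕ, n ^ (k - d) ≤ (2 * k * N) ^ (d * k) →
    EdgeOptimal (Finset.univ.image u) ((range n).image e)

open Classical in
theorem exc_card {d e s k N R L0 : ℕ} (hd : e + 1 = d) (hk : k = e + (s + 2))
    (hR1 : R ^ (s + 1) ≤ (2 * k * N) ^ d) (hR2 : (2 * (k * N * R) + 1) ^ d < (R + 1) ^ k)
    {ε : ℝ} (hcrit : ∀ (d : ℕ) (u : Fin k → (Fin d → ℤ)) (L : ℕ), L0 ≤ L → Sep u L →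
      ∀ (l : Fin k → ℤ) (i : Fin k), ∑ j, l j • u j = 0 →
      |l i| = L → (∀ j, j ≠ i → (|l j| : ℝ) ≤ (1 - ε) * L) →
        ∀ e : ℕ ≃ (Fin d → ℤ), ∃ n ≤ L ^ k,
          ¬ EdgeOptimal (Finset.univ.image u) ((range n).image e)) :
    ((tup d k N).filter (fun u => Exc d k N u)).card ≤
      ((tup d k N).filter (fun u => ∃ l : Fin k → ℤ, l ≠ 0 ∧ (∀ i, |l i| ≤ (L0 : ℤ)) ∧
        ∑ i, l i • u i = 0)).card +
      k * k * (((tup d e N) ×ˢ (tup d (s + 2) N)).filter (fun q => Unb ε R q.1 q.2)).card := by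
  obtain ⟨Bad, hBad⟩ : ∃ Bad : Fin k × Fin k → Finset (Fin k → Fin d → ℤ), ∀ p, Bad p =
      if p.1 = p.2 then ∅ else
        (tup d k N).filter (fun u => ∃ l : Fin k → ℤ, ∑ m, l m • u m = 0 ∧ l p.1 ≠ 0 ∧
          (∀ m, |l m| ≤ |l p.1|) ∧ |l p.1| ≤ R ∧ (1 - ε) * |(l p.1 : ℝ)| < |(l p.2 : ℝ)|) :=
    ⟨_, fun _ => rfl⟩
  have hsub : (tup d k N).filter (fun u => Exc d k N u) ⊆
      ((tup d k N).filter (fun u => ∃ l : Fin k → ℤ, l ≠ 0 ∧ (∀ i, |l i| ≤ (L0 : ℤ)) ∧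
        ∑ i, l i • u i = 0)) ∪ (Finset.univ : Finset (Fin k × Fin k)).biUnion Bad := by
    intro u hu
    rw [mem_filter] at hu
    obtain ⟨hu1, en, hen⟩ := hu
    obtain ⟨L, l, w, i, hL0, hLR, hsep, hl, hli, hlL, hw⟩ :=
      exists_shortest (exists_short hu1 hR2)
    have hli0 : l i ≠ 0 := by
      intro h
      rw [h, abs_zero] at hli
      omega
    rw [mem_union, mem_biUnion]
    rcases Nat.lt_or_ge L L0 with hlt | hge
    · left
      rw [mem_filter]
      refine ⟨hu1, l, ?_, fun m => ?_, hl⟩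
      · intro h
        exact hli0 (congrFun h i)
      · have := hlL m
        omega
    · right
      have hex : ∃ j, j ≠ i ∧ (1 - ε) * (L : ℝ) < |(l j : ℝ)| := by
        by_contra hcon
        push Not at hcon
        obtain ⟨n, hn, hno⟩ := hcrit d u L hge hsep l i hl hli
          (fun j hj => by simpa using hcon j hj) en
        apply hno
        apply hen
        have hs : k - d = s + 1 := by omega
        rw [hs]
        calc n ^ (s + 1) ≤ (R ^ k) ^ (s + 1) :=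
              Nat.pow_le_pow_left (le_trans hn (Nat.pow_le_pow_left hLR _)) _
          _ = (R ^ (s + 1)) ^ k := by rw [← pow_mul, ← pow_mul, Nat.mul_comm]
          _ ≤ ((2 * k * N) ^ d) ^ k := Nat.pow_le_pow_left hR1 _
          _ = _ := by rw [← pow_mul]
      obtain ⟨j, hj, hlj⟩ := hex
      refine ⟨(i, j), mem_univ _, ?_⟩
      rw [hBad]
      rw [if_neg (by exact hj.symm), mem_filter]
      have hLi : |(l i : ℝ)| = L := by
        rw [← Int.cast_abs, hli, Int.cast_natCast]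
      refine ⟨hu1, l, hl, hli0, fun m => ?_, ?_, ?_⟩
      · show |l m| ≤ |l i|
        rw [hli]
        exact hlL m
      · show |l i| ≤ R
        rw [hli]
        exact_mod_cast hLR
      · show (1 - ε) * |(l i : ℝ)| < |(l j : ℝ)|
        rw [hLi]
        exact hlj
  refine le_trans (card_le_card hsub) (le_trans (card_union_le _ _) ?_)
  apply Nat.add_le_add_left
  calc ((Finset.univ : Finset (Fin k × Fin k)).biUnion Bad).card
      ≤ ∑ p : Fin k × Fin k, (Bad p).card := card_biUnion_le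
    _ ≤ ∑ _p : Fin k × Fin k,
        (((tup d e N) ×ˢ (tup d (s + 2) N)).filter (fun q => Unb ε R q.1 q.2)).card := by
        apply Finset.sum_le_sum
        rintro ⟨i, j⟩ _
        rw [hBad]
        split_ifs with h
        · rw [card_empty]
          exact Nat.zero_le _
        · exact bad_card hk h
    _ = _ := by
        rw [Finset.sum_const, card_univ, Fintype.card_prod, Fintype.card_fin, smul_eq_mul]

/-! ## The theorem -/

open Classical in
/-- **Almost all sets of `k > d` generators of `ℤ ^ d` are not nested.** -/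
theorem almost_all (d k : ℕ) (hd : 0 < d) (hdk : d < k) (η : ℝ) (hη : 0 < η) :
    ∃ N0 : ℕ, ∀ N : ℕ, N0 ≤ N →
      (((tup d k N).filter (fun u => Exc d k N u)).card : ℝ) ≤
        η * (2 * N + 1 : ℝ) ^ (d * k) := by
  obtain ⟨e, he⟩ : ∃ e, e + 1 = d := ⟨d - 1, by omega⟩
  obtain ⟨s, hs⟩ : ∃ s, k = e + (s + 2) := ⟨k - d - 1, by omega⟩
  have hkR : (1 : ℝ) ≤ k := by exact_mod_cast (by omega : 1 ≤ k)
  have hdR : (1 : ℝ) ≤ d := by exact_mod_cast hd
  obtain ⟨B, hB⟩ : ∃ B : ℝ, B = 2 * d * 3 ^ e * (d + 1) ^ (d * e) := ⟨_, rfl⟩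
  have hB0 : 0 < B := by rw [hB]; positivity
  obtain ⟨κ, hκ⟩ : ∃ κ : ℝ, κ = η / (4 * (k * k) * B) := ⟨_, rfl⟩
  have hκ0 : 0 < κ := by rw [hκ]; positivity
  have hκB : k * k * (κ * B) = η / 4 := by
    rw [hκ]
    field_simp
  obtain ⟨C, hC⟩ : ∃ C : ℕ, C = ⌈(2 * k : ℝ) ^ d / κ⌉₊ + 1 := ⟨_, rfl⟩
  have hC1 : 1 ≤ C := by omega
  have hC2 : (2 * k : ℝ) ^ d ≤ C * κ := by
    have h1 : (2 * k : ℝ) ^ d / κ ≤ C := by
      rw [hC]
      push_cast
      linarith [Nat.le_ceil ((2 * k : ℝ) ^ d / κ)]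
    rwa [div_le_iff₀ hκ0] at h1
  have hC0 : (0 : ℝ) < C := by exact_mod_cast hC1
  obtain ⟨F, hF⟩ : ∃ F : ℝ, F = (1 + d * C : ℝ) ^ (d * (s + 2)) * (8 * 3 ^ s) := ⟨_, rfl⟩
  have hF0 : 0 < F := by rw [hF]; positivity
  obtain ⟨ε, hε⟩ : ∃ ε : ℝ, ε = min 1 (η * (C * κ) / (4 * (k * k) * F * (2 * k) ^ d)) :=
    ⟨_, rfl⟩
  have hε0 : 0 < ε := by rw [hε]; positivity
  have hε1 : ε ≤ 1 := by rw [hε]; exact min_le_left _ _
  have hεF : k * k * (F * (ε * (2 * k) ^ d) / (C * κ)) ≤ η / 4 := by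
    have h1 : ε ≤ η * (C * κ) / (4 * (k * k) * F * (2 * k) ^ d) := by
      rw [hε]
      exact min_le_right _ _
    have h2 : ε * (4 * (k * k) * F * (2 * k) ^ d) ≤ η * (C * κ) := by
      rwa [le_div_iff₀ (by positivity)] at h1
    have h3 : k * k * (F * (ε * (2 * k) ^ d) / (C * κ)) =
        (ε * (4 * (k * k) * F * (2 * k) ^ d)) / (4 * (C * κ)) := by
      field_simp
    rw [h3, div_le_iff₀ (by positivity)]
    linarith
  obtain ⟨L0, hcrit⟩ := crit k ε hε0
  obtain ⟨L1, hL1⟩ : ∃ L1 : ℕ, L1 = ⌈1 / ε⌉₊ := ⟨_, rfl⟩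
  have hL1' : 1 ≤ ε * L1 := by
    have h1 : 1 / ε ≤ L1 := by rw [hL1]; exact Nat.le_ceil _
    rw [div_le_iff₀ hε0] at h1
    linarith
  obtain ⟨A, hA⟩ : ∃ A : ℝ, A = (2 * L0 + 1) ^ k + k * k * e +
      k * k * (F * (L1 : ℝ) ^ (s + 1) / (C * κ)) := ⟨_, rfl⟩
  have hA0 : 0 < A := by rw [hA]; positivity
  refine ⟨⌈4 * A / η⌉₊ + 1, fun N hN => ?_⟩
  have hN0 : 0 < N := by omega
  have hNR : (0 : ℝ) < N := by exact_mod_cast hN0
  have hNR1 : (1 : ℝ) ≤ N := by exact_mod_cast hN0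
  have hAN : A / N ≤ η / 4 := by
    have h1 : 4 * A / η ≤ N := by
      refine le_trans (Nat.le_ceil _) ?_
      exact_mod_cast (by omega : ⌈4 * A / η⌉₊ ≤ N)
    rw [div_le_iff₀ hη] at h1
    rw [div_le_iff₀ hNR]
    linarith
  obtain ⟨R, hR1, hR2⟩ := exists_R (s := s) hd (by omega : k = d + (s + 1)) hN0
  have h1 := exc_card (e := e) (s := s) (N := N) he hs hR1 hR2 hcrit
  have h2 := short_card (d := d) (k := k) (N := N) (L0 := L0)
  have h3 := pair_count (C := C) he hs hN0 hκ0 hC2 hC1 hε0 hε1 hL1' (R := R)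
    (by exact_mod_cast hR1)
  obtain ⟨x1, hx1⟩ : ∃ x1 : ℕ, x1 = ((tup d k N).filter (fun u => ∃ l : Fin k → ℤ, l ≠ 0 ∧
    (∀ i, |l i| ≤ (L0 : ℤ)) ∧ ∑ i, l i • u i = 0)).card := ⟨_, rfl⟩
  obtain ⟨x2, hx2⟩ : ∃ x2 : ℕ, x2 = (((tup d e N) ×ˢ (tup d (s + 2) N)).filter
    (fun q => Unb ε R q.1 q.2)).card := ⟨_, rfl⟩
  rw [← hx2] at h1 h3
  rw [← hx1] at h1
  have h2' : x1 * (2 * N + 1) ^ d ≤ (2 * L0 + 1) ^ k * (2 * N + 1) ^ (d * k) := by
    rw [hx1]
    exact h2
  obtain ⟨X, hX⟩ : ∃ X : ℝ, X = (2 * N + 1 : ℝ) ^ (d * k) := ⟨_, rfl⟩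
  have hX0 : 0 < X := by rw [hX]; positivity
  rw [← hX] at h3 ⊢
  have hMd : (N : ℝ) ≤ (2 * N + 1 : ℝ) ^ d := by
    refine le_trans ?_ (le_self_pow₀ (by linarith) (by omega))
    linarith
  have hNd : (N : ℝ) ≤ (N : ℝ) ^ d := le_self_pow₀ hNR1 (by omega)
  -- the short relations
  have hs1 : (x1 : ℝ) ≤ X * ((2 * L0 + 1) ^ k / N) := by
    have h4 : (x1 : ℝ) * (2 * N + 1) ^ d ≤ (2 * L0 + 1) ^ k * X := by
      rw [hX]
      exact_mod_cast h2'
    have h5 : (x1 : ℝ) * N ≤ (2 * L0 + 1) ^ k * X :=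
      le_trans (mul_le_mul_of_nonneg_left hMd (by positivity)) h4
    have h6 : X * ((2 * L0 + 1) ^ k / N) = ((2 * L0 + 1) ^ k * X) / N := by ring
    rw [h6, le_div_iff₀ hNR]
    exact h5
  -- the unbalanced relations
  have hs2 : (x2 : ℝ) ≤ X * (e / N + κ * B + (F * (ε * (2 * k) ^ d) / (C * κ) +
      (F * (L1 : ℝ) ^ (s + 1) / (C * κ)) / N)) := by
    refine le_trans h3 ?_
    apply mul_le_mul_of_nonneg_left _ hX0.le
    rw [← hB, ← hF]
    have g1 : (e : ℝ) / (2 * N + 1) ≤ e / N :=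
      div_le_div_of_nonneg_left (by positivity) hNR (by linarith)
    have g2 : F * (ε * (2 * k) ^ d + (L1 : ℝ) ^ (s + 1) / (N : ℝ) ^ d) / (C * κ) =
        F * (ε * (2 * k) ^ d) / (C * κ) + (F * (L1 : ℝ) ^ (s + 1) / (C * κ)) / (N : ℝ) ^ d := by
      field_simp
    have g3 : (F * (L1 : ℝ) ^ (s + 1) / (C * κ)) / (N : ℝ) ^ d ≤
        (F * (L1 : ℝ) ^ (s + 1) / (C * κ)) / N :=
      div_le_div_of_nonneg_left (by positivity) hNR hNd
    rw [g2]
    linarith
  have h4 : (((tup d k N).filter (fun u => Exc d k N u)).card : ℝ) ≤ x1 + k * k * x2 := by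
    exact_mod_cast h1
  have h5 : (k : ℝ) * k * x2 ≤ k * k * (X * (e / N + κ * B + (F * (ε * (2 * k) ^ d) / (C * κ) +
      (F * (L1 : ℝ) ^ (s + 1) / (C * κ)) / N))) :=
    mul_le_mul_of_nonneg_left hs2 (by positivity)
  have h6 : X * ((2 * L0 + 1) ^ k / N) + k * k * (X * (e / N + κ * B +
      (F * (ε * (2 * k) ^ d) / (C * κ) + (F * (L1 : ℝ) ^ (s + 1) / (C * κ)) / N))) =
      X * (A / N + k * k * (κ * B) + k * k * (F * (ε * (2 * k) ^ d) / (C * κ))) := by
    rw [hA]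
    ring
  calc (((tup d k N).filter (fun u => Exc d k N u)).card : ℝ) ≤ x1 + k * k * x2 := h4
    _ ≤ X * ((2 * L0 + 1) ^ k / N) + k * k * (X * (e / N + κ * B +
      (F * (ε * (2 * k) ^ d) / (C * κ) + (F * (L1 : ℝ) ^ (s + 1) / (C * κ)) / N))) :=
        add_le_add hs1 h5
    _ = X * (A / N + k * k * (κ * B) + k * k * (F * (ε * (2 * k) ^ d) / (C * κ))) := h6
    _ ≤ X * η := by
        apply mul_le_mul_of_nonneg_left _ hX0.le
        rw [hκB]
        linarith
    _ = η * X := mul_comm _ _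

end Pool.Agent.Lib.MP_602b76_co_Gen
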