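import Pool.Agent.Lib.MP_602b76_co_Far.Basic

/-!
# Many generators: the grid

The sharp edge-isoperimetric inequality in `ℤ^k`, for sizes which are `k`-th powers, with the case
of equality.
-/

namespace Pool.Agent.Lib.MP_602b76_co_Gen

open Finset Pool.Agent.Lib.MP_602b76_co_Plane

/-- The unit vectors. -/
def ee {k : ℕ} (i : Fin k) : Fin k → ℤ := Pi.single i 1

/-- The number of chains of a finite subset of the grid. -/
def FF {k : ℕ} (S : Finset (Fin k → ℤ)) : ℕ := ∑ i, ch (ee i) S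

/-- The cube with corner `t` and side `N`. -/
noncomputable def box {k : ℕ} (t : Fin k → ℤ) (N : ℕ) : Finset (Fin k → ℤ) :=
  Fintype.piFinset (fun i => Finset.Ico (t i) (t i + N))

theorem mem_box {k : ℕ} {t x : Fin k → ℤ} {N : ℕ} :
    x ∈ box t N ↔ ∀ i, t i ≤ x i ∧ x i < t i + N := by
  unfold box
  rw [Fintype.mem_piFinset]
  simp only [Finset.mem_Ico]

theorem card_box {k : ℕ} (t : Fin k → ℤ) (N : ℕ) : (box t N).card = N ^ k := by
  unfold box
  rw [Fintype.card_piFinset]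
  simp

/-! ## Slices -/

/-- The slice of `S` at height `h`. -/
def sl {k : ℕ} (S : Finset (Fin (k + 1) → ℤ)) (h : ℤ) : Finset (Fin k → ℤ) :=
  (S.filter (fun x => x 0 = h)).image Fin.tail

/-- The heights. -/
def hs {k : ℕ} (S : Finset (Fin (k + 1) → ℤ)) : Finset ℤ := S.image (fun x => x 0)

theorem mem_sl {k : ℕ} {S : Finset (Fin (k + 1) → ℤ)} {h : ℤ} {y : Fin k → ℤ} :
    y ∈ sl S h ↔ (Fin.cons h y : Fin (k + 1) → ℤ) ∈ S := by
  unfold sl
  rw [mem_image]
  constructor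
  · rintro ⟨x, hx, rfl⟩
    rw [mem_filter] at hx
    rw [← hx.2, Fin.cons_self_tail]
    exact hx.1
  · intro hy
    exact ⟨Fin.cons h y, by rw [mem_filter]; exact ⟨hy, by simp⟩, by simp⟩

theorem mem_hs {k : ℕ} {S : Finset (Fin (k + 1) → ℤ)} {h : ℤ} :
    h ∈ hs S ↔ (sl S h).Nonempty := by
  unfold hs
  rw [mem_image]
  constructor
  · rintro ⟨x, hx, rfl⟩
    exact ⟨Fin.tail x, by rw [mem_sl, Fin.cons_self_tail]; exact hx⟩
  · rintro ⟨y, hy⟩
    rw [mem_sl] at hy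
    exact ⟨_, hy, by simp⟩

theorem card_sl {k : ℕ} (S : Finset (Fin (k + 1) → ℤ)) (h : ℤ) :
    (sl S h).card = (S.filter (fun x => x 0 = h)).card := by
  unfold sl
  apply card_image_of_injOn
  intro x hx y hy hxy
  rw [mem_coe, mem_filter] at hx hy
  rw [← Fin.cons_self_tail x, ← Fin.cons_self_tail y, hx.2, hy.2, hxy]

theorem sum_sl {k : ℕ} (S : Finset (Fin (k + 1) → ℤ)) : ∑ h ∈ hs S, (sl S h).card = S.card := by
  unfold hs
  rw [Finset.card_eq_sum_card_image (fun x : Fin (k + 1) → ℤ => x 0) S]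
  exact Finset.sum_congr rfl (fun h _ => card_sl S h)

theorem cons_add_ee_succ {k : ℕ} (h : ℤ) (y : Fin k → ℤ) (i : Fin k) :
    (Fin.cons h y : Fin (k + 1) → ℤ) + ee i.succ = Fin.cons h (y + ee i) := by
  funext j
  refine Fin.cases ?_ (fun j => ?_) j
  · simp [ee]
  · simp only [ee, Pi.add_apply, Fin.cons_succ]
    congr 1
    by_cases hij : j = i
    · subst hij
      simp
    · rw [Pi.single_eq_of_ne hij, Pi.single_eq_of_ne]
      intro h'
      exact hij (Fin.succ_injective _ h')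

theorem sum_ch_sl {k : ℕ} (S : Finset (Fin (k + 1) → ℤ)) (i : Fin k) :
    ∑ h ∈ hs S, ch (ee i) (sl S h) ≤ ch (ee i.succ) S := by
  have h1 : ∀ h ∈ hs S, ch (ee i) (sl S h) ≤
      ((S.filter (fun x => x + ee i.succ ∉ S)).filter (fun x => x 0 = h)).card := by
    intro h _
    unfold ch
    apply Finset.card_le_card_of_injOn (fun y => (Fin.cons h y : Fin (k + 1) → ℤ))
    · intro y hy
      rw [mem_coe, mem_filter, mem_sl, mem_sl] at hy
      rw [mem_coe, mem_filter, mem_filter]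
      refine ⟨⟨hy.1, ?_⟩, by simp⟩
      rw [cons_add_ee_succ]
      exact hy.2
    · intro y _ y' _ h'
      exact (Fin.cons_injective2 h').2
  refine le_trans (Finset.sum_le_sum h1) ?_
  rw [Finset.sum_card_fiberwise_eq_card_filter]
  exact card_filter_le _ _

theorem sum_FF_sl {k : ℕ} (S : Finset (Fin (k + 1) → ℤ)) :
    ch (ee 0) S + ∑ h ∈ hs S, FF (sl S h) ≤ FF S := by
  unfold FF
  rw [Fin.sum_univ_succ, Finset.sum_comm]
  exact Nat.add_le_add_left (Finset.sum_le_sum (fun i _ => sum_ch_sl S i)) _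

theorem tail_add_ee_zero {k : ℕ} (x : Fin (k + 1) → ℤ) : Fin.tail (x + ee 0) = Fin.tail x := by
  funext j
  simp [Fin.tail, ee]

theorem card_tail_le {k : ℕ} (S : Finset (Fin (k + 1) → ℤ)) :
    (S.image Fin.tail).card ≤ ch (ee 0) S := by
  apply image_le_ch S Fin.tail (fun x => x 0)
  · intro x _ _
    exact tail_add_ee_zero x
  · intro x _ _
    simp [ee]

theorem sl_subset {k : ℕ} (S : Finset (Fin (k + 1) → ℤ)) (h : ℤ) : sl S h ⊆ S.image Fin.tail :=
  image_subset_image (filter_subset _ _)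

theorem exists_root (k M : ℕ) (hM : 0 < M) (h0 : k = 0 → M = 1) :
    ∃ μ : ℝ, 0 < μ ∧ μ ^ k = M := by
  rcases Nat.eq_zero_or_pos k with rfl | hk
  · exact ⟨1, one_pos, by rw [h0 rfl]; simp⟩
  · refine ⟨(M : ℝ) ^ ((k : ℝ)⁻¹), Real.rpow_pos_of_pos (by exact_mod_cast hM) _, ?_⟩
    exact Real.rpow_inv_natCast_pow (by positivity) hk.ne'

theorem bernoulli {μ ν : ℝ} (hμ : 0 < μ) (hν : 0 < ν) (k : ℕ) :
    (k + 1 : ℝ) * ν ^ k * μ ≤ μ ^ (k + 1) + k * ν ^ (k + 1) := by
  have h1 : (-2 : ℝ) ≤ μ / ν - 1 := by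
    have : 0 < μ / ν := by positivity
    linarith
  have h2 := one_add_mul_le_pow h1 (k + 1)
  have h3 : (1 + (μ / ν - 1)) ^ (k + 1) = μ ^ (k + 1) / ν ^ (k + 1) := by
    rw [← div_pow]
    congr 1
    ring
  rw [h3, le_div_iff₀ (by positivity)] at h2
  have h4 : (1 + ((k + 1 : ℕ) : ℝ) * (μ / ν - 1)) * ν ^ (k + 1) =
      (k + 1 : ℝ) * ν ^ k * μ - k * ν ^ (k + 1) := by
    push_cast
    field_simp
    ring
  rw [h4] at h2
  linarith

/-- **The sharp inequality in the grid.** -/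
theorem lw : ∀ (k : ℕ) (S : Finset (Fin k → ℤ)) (ν : ℝ), 0 < ν → (S.card : ℝ) ≤ ν ^ k →
    (k : ℝ) * S.card ≤ ν * FF S := by
  intro k
  induction k with
  | zero =>
    intro S ν hν _
    rw [Nat.cast_zero, zero_mul]
    positivity
  | succ k ih =>
    intro S ν hν hS
    rcases S.eq_empty_or_nonempty with rfl | hne
    · simp only [card_empty, Nat.cast_zero, mul_zero]
      positivity
    have hhs : (hs S).Nonempty := by
      obtain ⟨x, hx⟩ := hne
      exact ⟨x 0, mem_image_of_mem _ hx⟩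
    obtain ⟨h0, hh0, hmax⟩ := Finset.exists_max_image (hs S) (fun h => (sl S h).card) hhs
    have hM0 : 0 < (sl S h0).card := card_pos.2 (mem_hs.1 hh0)
    obtain ⟨μ, hμ, hμk⟩ := exists_root k (sl S h0).card hM0 (by
      rintro rfl
      have : (sl S h0).card ≤ 1 := by
        have := Finset.card_le_univ (sl S h0)
        simpa using this
      omega)
    have h1 : (k : ℝ) * S.card ≤ μ * ((∑ h ∈ hs S, FF (sl S h) : ℕ) : ℝ) := by
      rw [← sum_sl S]
      push_cast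
      rw [Finset.mul_sum, Finset.mul_sum]
      apply Finset.sum_le_sum
      intro h hh
      apply ih (sl S h) μ hμ
      rw [hμk]
      exact_mod_cast hmax h hh
    have h2 : μ ^ k ≤ (ch (ee 0) S : ℝ) := by
      rw [hμk]
      exact_mod_cast le_trans (card_le_card (sl_subset S h0)) (card_tail_le S)
    have h3 : ((ch (ee 0) S : ℕ) : ℝ) + ((∑ h ∈ hs S, FF (sl S h) : ℕ) : ℝ) ≤ FF S := by
      exact_mod_cast sum_FF_sl S
    obtain ⟨n, hn⟩ : ∃ n : ℝ, n = S.card := ⟨_, rfl⟩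
    obtain ⟨a, ha⟩ : ∃ a : ℝ, a = ((∑ h ∈ hs S, FF (sl S h) : ℕ) : ℝ) := ⟨_, rfl⟩
    obtain ⟨c, hc⟩ : ∃ c : ℝ, c = ((ch (ee 0) S : ℕ) : ℝ) := ⟨_, rfl⟩
    rw [← hn] at hS h1 ⊢
    rw [← ha] at h1 h3
    rw [← hc] at h2 h3
    have hn0 : 0 ≤ n := by rw [hn]; positivity
    have h4 : (k + 1 : ℝ) * n * μ ≤ ν * μ ^ (k + 1) + k * ν * n := by
      by_cases hs' : (k + 1 : ℝ) * μ ≤ k * ν
      · have : (k + 1 : ℝ) * n * μ ≤ k * ν * n := by nlinarith
        have h5 : 0 ≤ ν * μ ^ (k + 1) := by positivity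
        linarith
      · push Not at hs'
        have hb := bernoulli hμ hν k
        have h5 : n * ((k + 1 : ℝ) * μ - k * ν) ≤ ν ^ (k + 1) * ((k + 1 : ℝ) * μ - k * ν) :=
          mul_le_mul_of_nonneg_right hS (by linarith)
        have h6 : ν * ((k + 1 : ℝ) * ν ^ k * μ) ≤ ν * (μ ^ (k + 1) + k * ν ^ (k + 1)) :=
          mul_le_mul_of_nonneg_left hb hν.le
        have e1 : ν ^ (k + 1) * ((k + 1 : ℝ) * μ - k * ν) =
          ν * ((k + 1 : ℝ) * ν ^ k * μ) - k * ν * ν ^ (k + 1) := by ring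
        nlinarith
    have h5 : μ * (ν * FF S) ≥ μ * ((k + 1 : ℝ) * n) := by
      have h6 : ν * (μ * μ ^ k + k * n) ≤ ν * (μ * FF S) := by
        apply mul_le_mul_of_nonneg_left _ hν.le
        nlinarith
      have e2 : ν * (μ * μ ^ k + k * n) = ν * μ ^ (k + 1) + k * ν * n := by ring
      nlinarith
    have h6 := le_of_mul_le_mul_left h5 hμ
    push_cast
    exact h6

end Pool.Agent.Lib.MP_602b76_co_Gen
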