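import Mathlib

/-!
# Many generators: the parameters
-/

namespace Pool.Agent.Lib.MP_602b76_co_Gen

open Finset Filter Topology

theorem exp_beats (k K : ℕ) (hk : 0 < k) (hK : 0 < K) :
    ∃ i0 : ℕ, ∀ i ≥ i0, 2 * k * (2 * (K * (i + 1))) ^ k ≤ 2 ^ i := by
  have h1 := tendsto_pow_const_div_const_pow_of_one_lt k (r := (2 : ℝ)) (by norm_num)
  obtain ⟨c, hc⟩ : ∃ c : ℝ, c = 2 * (2 * k * (2 * K) ^ k) := ⟨_, rfl⟩
  have hc0 : 0 < c := by
    rw [hc]
    positivity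
  have h2 : ∀ᶠ n : ℕ in atTop, (n : ℝ) ^ k / 2 ^ n < 1 / c :=
    h1.eventually (gt_mem_nhds (by positivity))
  obtain ⟨i0, hi0⟩ := eventually_atTop.1 h2
  refine ⟨i0, fun i hi => ?_⟩
  have h3 := hi0 (i + 1) (by omega)
  rw [div_lt_div_iff₀ (by positivity) hc0, one_mul] at h3
  have h4 : (2 * k * (2 * (K * (i + 1))) ^ k : ℝ) ≤ 2 ^ i := by
    have e1 : ((i + 1 : ℕ) : ℝ) ^ k * c = 2 * (2 * k * (2 * (K * (i + 1))) ^ k) := by
      rw [hc]
      push_cast
      have e2 : (2 * ((K : ℝ) * (i + 1))) = (2 * K) * (i + 1) := by ring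
      rw [e2, mul_pow (2 * (K : ℝ))]
      ring
    rw [e1, pow_succ] at h3
    linarith
  exact_mod_cast h4

/-- The parameters of the step. -/
theorem param (k : ℕ) (hk : 0 < k) (δ : ℝ) (hδ : 0 < δ) :
    ∃ Nb : ℕ, 0 < Nb ∧ ∀ N ≥ Nb, ∃ r j : ℕ, 0 < r ∧ r ≤ N ∧ 2 * k * N ^ (k - 1) ≤ r ^ k ∧
      4 * k * r < N ∧ N ^ k < 2 ^ j ∧ (16 * k * r * j + 3 : ℝ) ≤ δ * N := by
  obtain ⟨K1, hK1⟩ := exists_nat_ge (32 * (k : ℝ) ^ 2 / δ)
  obtain ⟨K, hK⟩ : ∃ K, K = K1 + 8 * k := ⟨_, rfl⟩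
  have hKpos : 0 < K := by omega
  have hKδ : 32 * (k : ℝ) ^ 2 ≤ δ * K := by
    rw [div_le_iff₀ hδ] at hK1
    have : (K1 : ℝ) ≤ K := by exact_mod_cast (by omega : K1 ≤ K)
    nlinarith
  obtain ⟨i0, hi0⟩ := exp_beats k K hk hKpos
  obtain ⟨M1, hM1⟩ := exists_nat_ge (6 / δ)
  have hp0 : 0 < 2 ^ i0 := by positivity
  refine ⟨2 ^ i0 + M1 + 1, by omega, fun N hN => ?_⟩
  have hN0 : N ≠ 0 := by omega
  obtain ⟨l, hl⟩ : ∃ l, l = Nat.log 2 N := ⟨_, rfl⟩
  have hl1 : 2 ^ l ≤ N := by rw [hl]; exact Nat.pow_log_le_self 2 hN0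
  have hl2 : N < 2 ^ (l + 1) := by rw [hl]; exact Nat.lt_pow_succ_log_self (by norm_num) N
  have hl3 : i0 ≤ l := by
    have h1 : 2 ^ i0 < 2 ^ (l + 1) := by omega
    have := (Nat.pow_lt_pow_iff_right (by norm_num : 1 < 2)).1 h1
    omega
  obtain ⟨q, hq⟩ : ∃ q, q = K * (l + 1) := ⟨_, rfl⟩
  have hq0 : 0 < q := by rw [hq]; positivity
  have hbig : 2 * k * (2 * q) ^ k ≤ N := by
    rw [hq]
    exact le_trans (hi0 l hl3) hl1
  have hqN : 2 * q ≤ N := by
    have h1 : 2 * q ≤ (2 * q) ^ k := Nat.le_self_pow hk.ne' _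
    have h2 : (2 * q) ^ k ≤ 2 * k * (2 * q) ^ k := by
      have h3 : 1 ≤ 2 * k := by omega
      calc (2 * q) ^ k = 1 * (2 * q) ^ k := (one_mul _).symm
        _ ≤ _ := Nat.mul_le_mul_right _ h3
    omega
  obtain ⟨r, hr⟩ : ∃ r, r = N / q := ⟨_, rfl⟩
  have hr1 : r * q ≤ N := by rw [hr]; exact Nat.div_mul_le_self N q
  have hr2 : N < (r + 1) * q := by
    rw [hr, add_mul, one_mul]
    exact Nat.lt_div_mul_add hq0
  have hr0 : 0 < r := by
    rcases Nat.eq_zero_or_pos r with h | h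
    · rw [h] at hr2
      omega
    · exact h
  have hr3 : N ≤ 2 * q * r := by
    have : (r + 1) * q ≤ 2 * q * r := by nlinarith
    omega
  refine ⟨r, k * (l + 1), hr0, ?_, ?_, ?_, ?_, ?_⟩
  · have : r * 1 ≤ r * q := Nat.mul_le_mul_left _ hq0
    omega
  · have h1 : (2 * q) ^ k * (2 * k * N ^ (k - 1)) ≤ (2 * q) ^ k * r ^ k := by
      calc (2 * q) ^ k * (2 * k * N ^ (k - 1)) = 2 * k * (2 * q) ^ k * N ^ (k - 1) := by ring
        _ ≤ N * N ^ (k - 1) := Nat.mul_le_mul_right _ hbig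
        _ = N ^ k := by
          rw [← pow_succ']
          congr 1
          omega
        _ ≤ (2 * q * r) ^ k := Nat.pow_le_pow_left hr3 k
        _ = _ := mul_pow _ _ _
    exact Nat.le_of_mul_le_mul_left h1 (by positivity)
  · have h1 : 8 * k * r ≤ r * q := by
      have h2 : 8 * k ≤ q := by
        rw [hq]
        have h3 : K * 1 ≤ K * (l + 1) := Nat.mul_le_mul_left _ (by omega)
        omega
      calc 8 * k * r = r * (8 * k) := by ring
        _ ≤ _ := Nat.mul_le_mul_left _ h2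
    have h4 : 8 * k * r = 2 * (4 * k * r) := by ring
    have h5 : 0 < 4 * k * r := by positivity
    omega
  · calc N ^ k < (2 ^ (l + 1)) ^ k := Nat.pow_lt_pow_left hl2 hk.ne'
      _ = 2 ^ (k * (l + 1)) := by rw [← pow_mul, mul_comm]
  · have h1 : (r : ℝ) * (K * (l + 1)) ≤ N := by
      have : r * (K * (l + 1)) ≤ N := by rw [← hq]; exact hr1
      exact_mod_cast this
    have h2 : (3 : ℝ) ≤ δ / 2 * N := by
      have h3 : (6 / δ : ℝ) ≤ N := by
        refine le_trans hM1 ?_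
        exact_mod_cast (by omega : M1 ≤ N)
      rw [div_le_iff₀ hδ] at h3
      linarith
    have h3 : 16 * (k : ℝ) ^ 2 * (r * (l + 1)) ≤ δ / 2 * N := by
      have h4 : 0 ≤ (r : ℝ) * (l + 1) := by positivity
      have h5 : 32 * (k : ℝ) ^ 2 * (r * (l + 1)) ≤ δ * K * (r * (l + 1)) :=
        mul_le_mul_of_nonneg_right hKδ h4
      have h6 : δ * K * (r * (l + 1)) = δ * (r * (K * (l + 1))) := by ring
      have h7 : δ * (r * (K * (l + 1))) ≤ δ * N := mul_le_mul_of_nonneg_left h1 hδ.le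
      linarith
    push_cast
    have e : (16 * (k : ℝ) * r * (k * (l + 1)) : ℝ) = 16 * (k : ℝ) ^ 2 * (r * (l + 1)) := by ring
    rw [e]
    linarith

/-- Differences of powers. -/
theorem pow_succ_le (m k : ℕ) : (m + 1) ^ k ≤ m ^ k + k * (m + 1) ^ (k - 1) := by
  induction k with
  | zero => simp
  | succ k ih =>
    rcases Nat.eq_zero_or_pos k with rfl | hk
    · simp
    · have e1 : (m + 1) ^ (k + 1) = m * (m + 1) ^ k + (m + 1) ^ k := by ring
      have h1 : m * (m + 1) ^ k ≤ m * (m ^ k + k * (m + 1) ^ (k - 1)) := Nat.mul_le_mul_left _ ih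
      have h2 : m * (k * (m + 1) ^ (k - 1)) ≤ k * (m + 1) ^ k := by
        calc m * (k * (m + 1) ^ (k - 1)) ≤ (m + 1) * (k * (m + 1) ^ (k - 1)) :=
              Nat.mul_le_mul_right _ (by omega)
          _ = k * ((m + 1) ^ (k - 1) * (m + 1)) := by ring
          _ = k * (m + 1) ^ k := by
            rw [← pow_succ]
            congr 2
            omega
      have e2 : k + 1 - 1 = k := by omega
      rw [e2]
      have e3 : m * (m ^ k + k * (m + 1) ^ (k - 1)) = m ^ (k + 1) + m * (k * (m + 1) ^ (k - 1)) := by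
        ring
      have e4 : (k + 1) * (m + 1) ^ k = k * (m + 1) ^ k + (m + 1) ^ k := by ring
      omega

end Pool.Agent.Lib.MP_602b76_co_Gen
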