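import Pool.Agent.Lib.MP_602b76_co_Gen.Step
import Pool.Agent.Lib.MP_602b76_co_Gen.Param

/-!
# Many generators: nested optimal sets are cubes
-/

namespace Pool.Agent.Lib.MP_602b76_co_Gen

open Finset Pool.Agent.Lib.MP_602b76_co_Plane Pool.Agent.Lib.MP_602b76_co_Far

variable {A : Type*} [AddCommGroup A] [DecidableEq A] {k : ℕ} {u : Fin k → A} {a : A} {L : ℕ}

theorem card_face (i : Fin k) (N : ℕ) :
    N * ((box (0 : Fin k → ℤ) N).filter (fun x => x i = (N : ℤ) - 1)).card ≤ N ^ k := by
  rw [← card_box (0 : Fin k → ℤ) N]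
  have h : (range N ×ˢ (box (0 : Fin k → ℤ) N).filter (fun x => x i = (N : ℤ) - 1)).card ≤
      (box (0 : Fin k → ℤ) N).card := by
    apply Finset.card_le_card_of_injOn
      (fun p : ℕ × (Fin k → ℤ) => Function.update p.2 i (p.1 : ℤ))
    · rintro ⟨n, x⟩ h
      rw [mem_coe, mem_product, mem_range, mem_filter] at h
      rw [mem_coe, mem_box]
      intro j
      rcases eq_or_ne j i with rfl | hj
      · simp only [Function.update_self, Pi.zero_apply]
        have := h.1
        constructor <;> omega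
      · simp only [Function.update_of_ne hj]
        exact mem_box.1 h.2.1 j
    · rintro ⟨n, x⟩ h ⟨n', x'⟩ h' he
      rw [mem_coe, mem_product, mem_range, mem_filter] at h h'
      simp only at he
      have h1 : (n : ℤ) = n' := by
        have := congrFun he i
        simpa using this
      have h2 : x = x' := by
        funext j
        rcases eq_or_ne j i with rfl | hj
        · exact h.2.2.trans h'.2.2.symm
        · have := congrFun he j
          simpa [Function.update_of_ne hj] using this
      rw [h2]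
      simp only [Prod.mk.injEq, and_true]
      exact_mod_cast h1
  rwa [card_product, card_range] at h

theorem ch_image_le (i : Fin k) (T : Finset (Fin k → ℤ)) :
    ch (u i) (T.image (ph u a)) ≤ ch (ee i) T := by
  unfold ch
  have h : (T.image (ph u a)).filter (fun x => x + u i ∉ T.image (ph u a)) ⊆
      (T.filter (fun x => x + ee i ∉ T)).image (ph u a) := by
    intro y hy
    rw [mem_filter, mem_image] at hy
    obtain ⟨⟨x, hx, rfl⟩, h1⟩ := hy
    rw [mem_image]
    refine ⟨x, ?_, rfl⟩
    rw [mem_filter]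
    refine ⟨hx, fun h2 => h1 ?_⟩
    rw [mem_image]
    exact ⟨x + ee i, h2, ph_add_ee x i⟩
  exact le_trans (card_le_card h) card_image_le

theorem ch_box_le (i : Fin k) (N : ℕ) : N * ch (ee i) (box (0 : Fin k → ℤ) N) ≤ N ^ k := by
  refine le_trans (Nat.mul_le_mul_left _ ?_) (card_face i N)
  unfold ch
  apply card_le_card
  intro x hx
  rw [mem_filter] at hx
  rw [mem_filter]
  refine ⟨hx.1, ?_⟩
  by_contra hne
  apply hx.2
  rw [mem_box]
  intro j
  have h1 := mem_box.1 hx.1 j
  rw [Pi.add_apply]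
  rcases eq_or_ne j i with rfl | hj
  · simp only [Pi.zero_apply] at h1 ⊢
    have : (ee j : Fin k → ℤ) j = 1 := by simp [ee]
    rw [this]
    constructor <;> omega
  · have : (ee i : Fin k → ℤ) j = 0 := by simp [ee, hj]
    rw [this, add_zero]
    exact h1

theorem fA_cube_le (N : ℕ) : N * fA u ((box 0 N).image (ph u a)) ≤ k * N ^ k := by
  unfold fA
  rw [Finset.mul_sum]
  calc ∑ i, N * ch (u i) ((box 0 N).image (ph u a)) ≤ ∑ _i : Fin k, N ^ k := by
        apply Finset.sum_le_sum
        intro i _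
        exact le_trans (Nat.mul_le_mul_left _ (ch_image_le i _)) (ch_box_le i N)
    _ = k * N ^ k := by
      rw [Finset.sum_const, card_univ, Fintype.card_fin, smul_eq_mul]

/-- **Nested optimal sets are cubes**, up to the size at which cubes come close to themselves. -/
theorem chain (hk : 0 < k) (δ : ℝ) (hδ : 0 < δ) : ∃ Nb : ℕ, 0 < Nb ∧
    ∀ {A : Type} [AddCommGroup A] [DecidableEq A] {u : Fin k → A} {L : ℕ}, Sep u L →
      2 * Nb ^ k + 2 ≤ L → ∀ S : ℕ → Finset A, Monotone S → (∀ n, (S n).card = n) →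
        (∀ n ≤ L ^ k, ∀ T : Finset A, T.card = n → fA u (S n) ≤ fA u T) →
          ∀ m : ℕ, Nb ≤ m → (m : ℝ) * (1 + δ) ≤ L →
            ∃ a, S (m ^ k) = (box 0 m).image (ph u a) := by
  obtain ⟨Nb, hNb, hpar⟩ := param k hk δ hδ
  refine ⟨Nb, hNb, ?_⟩
  intro A _ _ u L hL hLb S hmono hcard hopt m hm
  have hle : ∀ m : ℕ, (m : ℝ) * (1 + δ) ≤ L → m ≤ L := by
    intro m hm
    have h1 : (m : ℝ) ≤ m * (1 + δ) := by
      have : (0 : ℝ) ≤ m := by positivity
      nlinarith
    exact_mod_cast le_trans h1 hm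
  have hgood : ∀ m : ℕ, m ≤ L → m * fA u (S (m ^ k)) ≤ k * m ^ k := by
    intro m hm
    refine le_trans (Nat.mul_le_mul_left _ (hopt (m ^ k) (Nat.pow_le_pow_left hm k)
      ((box 0 m).image (ph u 0)) (card_cube hL hm))) (fA_cube_le m)
  induction m, hm using Nat.le_induction with
  | base =>
    intro hm
    exact small_eq hL hk hNb (hcard _) hLb (hgood Nb (hle Nb hm))
  | succ m hm ih =>
    intro hmL
    have hm1 : (m : ℝ) * (1 + δ) ≤ L := by
      push_cast at hmL
      nlinarith
    obtain ⟨a, ha⟩ := ih hm1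
    obtain ⟨r, j, hr0, hrN, hrk, hrm, hj, hrj⟩ := hpar (m + 1) (by omega)
    have hmle := hle (m + 1) hmL
    apply step (m := m) (r := r) (j := j) (a := a) hL hk (hcard _) (hgood (m + 1) hmle)
    · rw [← ha]
      exact hmono (Nat.pow_le_pow_left (by omega) k)
    · exact hr0
    · omega
    · have h1 := pow_succ_le m k
      have h2 : 2 * k * (m + 1) ^ (k - 1) = 2 * (k * (m + 1) ^ (k - 1)) := by ring
      omega
    · exact hrm
    · exact hj
    · have h1 : ((m + 2 * (8 * k * r * j) + 3 : ℕ) : ℝ) ≤ L := by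
        push_cast at hrj hmL ⊢
        nlinarith
      exact_mod_cast h1

end Pool.Agent.Lib.MP_602b76_co_Gen
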