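import Pool.Agent.Lib.MP_602b76_co_Gen.Param

/-!
# Many generators: the parameters, with a polynomial bound
-/

namespace Pool.Agent.Lib.MP_602b76_co_Gen

open Finset

/-- The parameters of the step exist from `Nb` on. -/
def Par (k : ℕ) (δ : ℝ) (Nb : ℕ) : Prop :=
  ∀ N ≥ Nb, ∃ r j : ℕ, 0 < r ∧ r ≤ N ∧ 2 * k * N ^ (k - 1) ≤ r ^ k ∧
    4 * k * r < N ∧ N ^ k < 2 ^ j ∧ (16 * k * r * j + 3 : ℝ) ≤ δ * N

theorem exp_beats2 (k : ℕ) (hk : 0 < k) : ∃ i1 : ℕ, ∀ K i : ℕ, i1 ≤ i → K ^ (2 * k) ≤ 2 ^ i →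
    2 * k * (2 * (K * (i + 1))) ^ k ≤ 2 ^ i := by
  obtain ⟨i1, h1⟩ := exp_beats (2 * k) k (by omega) hk
  refine ⟨i1, fun K i hi hK => ?_⟩
  have h2 := h1 i hi
  have h3 : (2 * k * (2 * (i + 1)) ^ k) ^ 2 ≤ 2 ^ i := by
    refine le_trans ?_ h2
    have h4 : k ≤ k ^ (2 * k) := Nat.le_self_pow (by omega) k
    calc (2 * k * (2 * (i + 1)) ^ k) ^ 2 = (4 * k * (2 * (i + 1)) ^ (2 * k)) * k := by
          rw [mul_pow, ← pow_mul, mul_comm k 2]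
          ring
      _ ≤ (4 * k * (2 * (i + 1)) ^ (2 * k)) * k ^ (2 * k) := Nat.mul_le_mul_left _ h4
      _ = 2 * (2 * k) * (2 * (k * (i + 1))) ^ (2 * k) := by
          have e : 2 * (k * (i + 1)) = (2 * (i + 1)) * k := by ring
          rw [e, mul_pow (2 * (i + 1)) k]
          ring
  have h5 : (2 * k * (2 * (K * (i + 1))) ^ k) ^ 2 ≤ (2 ^ i) ^ 2 := by
    calc (2 * k * (2 * (K * (i + 1))) ^ k) ^ 2 =
          K ^ (2 * k) * (2 * k * (2 * (i + 1)) ^ k) ^ 2 := by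
          have e : 2 * (K * (i + 1)) = K * (2 * (i + 1)) := by ring
          rw [e, mul_pow K, mul_comm 2 k, pow_mul K k 2]
          ring
      _ ≤ 2 ^ i * 2 ^ i := Nat.mul_le_mul hK h3
      _ = (2 ^ i) ^ 2 := (sq _).symm
  exact (Nat.pow_le_pow_iff_left (by norm_num)).1 h5

/-- The parameters of the step, with a polynomial bound for the first size. -/
theorem param2 (k : ℕ) (hk : 0 < k) : ∃ A B : ℕ, ∀ δ : ℝ, 0 < δ → δ ≤ 1 →
    ∃ Nb : ℕ, 0 < Nb ∧ (Nb : ℝ) ≤ A * (1 / δ) ^ B ∧ Par k δ Nb := by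
  obtain ⟨i1, hi1⟩ := exp_beats2 k hk
  refine ⟨2 ^ (i1 + 1) * (32 * k ^ 2 + 8 * k + 1) ^ (2 * k) + 8, 2 * k, ?_⟩
  intro δ hδ hδ1
  obtain ⟨K1, hK1⟩ : ∃ K1 : ℕ, K1 = ⌈32 * (k : ℝ) ^ 2 / δ⌉₊ := ⟨_, rfl⟩
  have hK1a : 32 * (k : ℝ) ^ 2 / δ ≤ K1 := by rw [hK1]; exact Nat.le_ceil _
  have hK1b : (K1 : ℝ) < 32 * (k : ℝ) ^ 2 / δ + 1 := by
    rw [hK1]
    exact Nat.ceil_lt_add_one (by positivity)
  obtain ⟨K, hK⟩ : ∃ K, K = K1 + 8 * k := ⟨_, rfl⟩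
  have hKpos : 0 < K := by omega
  have hKδ : 32 * (k : ℝ) ^ 2 ≤ δ * K := by
    rw [div_le_iff₀ hδ] at hK1a
    have : (K1 : ℝ) ≤ K := by exact_mod_cast (by omega : K1 ≤ K)
    nlinarith
  obtain ⟨i0, hi0⟩ : ∃ i0, i0 = i1 + (Nat.log 2 (K ^ (2 * k)) + 1) := ⟨_, rfl⟩
  have hKp : K ^ (2 * k) ≠ 0 := by positivity
  have hi0a : K ^ (2 * k) ≤ 2 ^ i0 := by
    have h1 := Nat.lt_pow_succ_log_self (by norm_num : 1 < 2) (K ^ (2 * k))
    refine le_trans h1.le ?_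
    rw [hi0]
    exact Nat.pow_le_pow_right (by norm_num) (by omega)
  have hi0b : 2 ^ i0 ≤ 2 ^ (i1 + 1) * K ^ (2 * k) := by
    rw [hi0]
    have h1 := Nat.pow_log_le_self 2 hKp
    calc 2 ^ (i1 + (Nat.log 2 (K ^ (2 * k)) + 1)) =
          2 ^ (i1 + 1) * 2 ^ Nat.log 2 (K ^ (2 * k)) := by
          rw [← pow_add]
          congr 1
          omega
      _ ≤ _ := Nat.mul_le_mul_left _ h1
  obtain ⟨M1, hM1⟩ : ∃ M1 : ℕ, M1 = ⌈6 / δ⌉₊ := ⟨_, rfl⟩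
  have hM1a : 6 / δ ≤ M1 := by rw [hM1]; exact Nat.le_ceil _
  have hM1b : (M1 : ℝ) < 6 / δ + 1 := by
    rw [hM1]
    exact Nat.ceil_lt_add_one (by positivity)
  have hp0 : 0 < 2 ^ i0 := by positivity
  have hx1 : 1 ≤ 1 / δ := by
    rw [le_div_iff₀ hδ]
    linarith
  obtain ⟨x, hx⟩ : ∃ x : ℝ, x = 1 / δ := ⟨_, rfl⟩
  rw [← hx] at hx1 ⊢
  refine ⟨2 ^ i0 + M1 + 1, by omega, ?_, fun N hN => ?_⟩
  · have hKx : (K : ℝ) ≤ (32 * k ^ 2 + 8 * k + 1) * x := by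
      rw [hK]
      push_cast
      have e1 : 32 * (k : ℝ) ^ 2 / δ = 32 * k ^ 2 * x := by rw [hx]; ring
      rw [e1] at hK1b
      have h8 : (8 * k : ℝ) ≤ 8 * k * x := by
        have : (0 : ℝ) ≤ 8 * k := by positivity
        nlinarith
      linarith
    have h1 : ((2 ^ i0 : ℕ) : ℝ) ≤
        2 ^ (i1 + 1) * ((32 * k ^ 2 + 8 * k + 1) * x) ^ (2 * k) := by
      have h2 : ((2 ^ i0 : ℕ) : ℝ) ≤ 2 ^ (i1 + 1) * (K : ℝ) ^ (2 * k) := by
        exact_mod_cast hi0b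
      refine le_trans h2 (mul_le_mul_of_nonneg_left ?_ (by positivity))
      exact pow_le_pow_left₀ (by positivity) hKx _
    have h2 : (M1 : ℝ) + 1 ≤ 8 * x ^ (2 * k) := by
      have e1 : 6 / δ = 6 * x := by rw [hx]; ring
      rw [e1] at hM1b
      have h3 : x ≤ x ^ (2 * k) := le_self_pow₀ hx1 (by omega)
      linarith
    push_cast at h1 ⊢
    rw [mul_pow] at h1
    have e : (2 : ℝ) ^ (i1 + 1) * ((32 * (k : ℝ) ^ 2 + 8 * k + 1) ^ (2 * k) * x ^ (2 * k)) =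
        2 ^ (i1 + 1) * (32 * (k : ℝ) ^ 2 + 8 * k + 1) ^ (2 * k) * x ^ (2 * k) := by ring
    rw [e] at h1
    have e2 : ((2 : ℝ) ^ (i1 + 1) * (32 * (k : ℝ) ^ 2 + 8 * k + 1) ^ (2 * k) + 8) * x ^ (2 * k) =
        2 ^ (i1 + 1) * (32 * (k : ℝ) ^ 2 + 8 * k + 1) ^ (2 * k) * x ^ (2 * k) +
          8 * x ^ (2 * k) := by ring
    rw [e2]
    linarith
  have hN0 : N ≠ 0 := by omega
  obtain ⟨l, hl⟩ : ∃ l, l = Nat.log 2 N := ⟨_, rfl⟩
  have hl1 : 2 ^ l ≤ N := by rw [hl]; exact Nat.pow_log_le_self 2 hN0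
  have hl2 : N < 2 ^ (l + 1) := by rw [hl]; exact Nat.lt_pow_succ_log_self (by norm_num) N
  have hl3 : i0 ≤ l := by
    have h1 : 2 ^ i0 < 2 ^ (l + 1) := by omega
    have := (Nat.pow_lt_pow_iff_right (by norm_num : 1 < 2)).1 h1
    omega
  obtain ⟨q, hq⟩ : ∃ q, q = K * (l + 1) := ⟨_, rfl⟩
  have hq0 : 0 < q := by rw [hq]; positivity
  have hbig : 2 * k * (2 * q) ^ k ≤ N := by
    rw [hq]
    exact le_trans (hi1 K l (by omega) (le_trans hi0a (Nat.pow_le_pow_right (by norm_num) hl3))) hl1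
  have hqN : 2 * q ≤ N := by
    have h1 : 2 * q ≤ (2 * q) ^ k := Nat.le_self_pow hk.ne' _
    have h2 : (2 * q) ^ k ≤ 2 * k * (2 * q) ^ k := by
      have h3 : 1 ≤ 2 * k := by omega
      calc (2 * q) ^ k = 1 * (2 * q) ^ k := (one_mul _).symm
        _ ≤ _ := Nat.mul_le_mul_right _ h3
    omega
  obtain ⟨r, hr⟩ : ∃ r, r = N / q := ⟨_, rfl⟩
  have hr1 : r * q ≤ N := by rw [hr]; exact Nat.div_mul_le_self N q
  have hr2 : N < (r + 1) * q := by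
    rw [hr, add_mul, one_mul]
    exact Nat.lt_div_mul_add hq0
  have hr0 : 0 < r := by
    rcases Nat.eq_zero_or_pos r with h | h
    · rw [h] at hr2
      omega
    · exact h
  have hr3 : N ≤ 2 * q * r := by
    have : (r + 1) * q ≤ 2 * q * r := by nlinarith
    omega
  refine ⟨r, k * (l + 1), hr0, ?_, ?_, ?_, ?_, ?_⟩
  · have : r * 1 ≤ r * q := Nat.mul_le_mul_left _ hq0
    omega
  · have h1 : (2 * q) ^ k * (2 * k * N ^ (k - 1)) ≤ (2 * q) ^ k * r ^ k := by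
      calc (2 * q) ^ k * (2 * k * N ^ (k - 1)) = 2 * k * (2 * q) ^ k * N ^ (k - 1) := by ring
        _ ≤ N * N ^ (k - 1) := Nat.mul_le_mul_right _ hbig
        _ = N ^ k := by
          rw [← pow_succ']
          congr 1
          omega
        _ ≤ (2 * q * r) ^ k := Nat.pow_le_pow_left hr3 k
        _ = _ := mul_pow _ _ _
    exact Nat.le_of_mul_le_mul_left h1 (by positivity)
  · have h1 : 8 * k * r ≤ r * q := by
      have h2 : 8 * k ≤ q := by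
        rw [hq]
        have h3 : K * 1 ≤ K * (l + 1) := Nat.mul_le_mul_left _ (by omega)
        omega
      calc 8 * k * r = r * (8 * k) := by ring
        _ ≤ _ := Nat.mul_le_mul_left _ h2
    have h4 : 8 * k * r = 2 * (4 * k * r) := by ring
    have h5 : 0 < 4 * k * r := by positivity
    omega
  · calc N ^ k < (2 ^ (l + 1)) ^ k := Nat.pow_lt_pow_left hl2 hk.ne'
      _ = 2 ^ (k * (l + 1)) := by rw [← pow_mul, mul_comm]
  · have h1 : (r : ℝ) * (K * (l + 1)) ≤ N := by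
      have : r * (K * (l + 1)) ≤ N := by rw [← hq]; exact hr1
      exact_mod_cast this
    have h2 : (3 : ℝ) ≤ δ / 2 * N := by
      have h3 : (6 / δ : ℝ) ≤ N := by
        refine le_trans hM1a ?_
        exact_mod_cast (by omega : M1 ≤ N)
      rw [div_le_iff₀ hδ] at h3
      linarith
    have h3 : 16 * (k : ℝ) ^ 2 * (r * (l + 1)) ≤ δ / 2 * N := by
      have h4 : 0 ≤ (r : ℝ) * (l + 1) := by positivity
      have h5 : 32 * (k : ℝ) ^ 2 * (r * (l + 1)) ≤ δ * K * (r * (l + 1)) :=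
        mul_le_mul_of_nonneg_right hKδ h4
      have h6 : δ * K * (r * (l + 1)) = δ * (r * (K * (l + 1))) := by ring
      have h7 : δ * (r * (K * (l + 1))) ≤ δ * N := mul_le_mul_of_nonneg_left h1 hδ.le
      linarith
    push_cast
    have e : (16 * (k : ℝ) * r * (k * (l + 1)) : ℝ) = 16 * (k : ℝ) ^ 2 * (r * (l + 1)) := by ring
    rw [e]
    linarith

end Pool.Agent.Lib.MP_602b76_co_Gen
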