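import Pool.Agent.Lib.MP_602b76_co_Gen.Chain
import Pool.Agent.Lib.MP_602b76_co_Gen.Param2

/-!
# Many generators: nested optimal sets are cubes, explicit form
-/

namespace Pool.Agent.Lib.MP_602b76_co_Gen

open Finset Pool.Agent.Lib.MP_602b76_co_Plane Pool.Agent.Lib.MP_602b76_co_Far

variable {k : ℕ}

/-- **Nested optimal sets are cubes**, up to the size at which cubes come close to themselves. -/
theorem chain2 (hk : 0 < k) (δ : ℝ) (hδ : 0 < δ) {Nb : ℕ} (hNb : 0 < Nb)
    (hpar : Par k δ Nb) {A : Type} [AddCommGroup A] [DecidableEq A] {u : Fin k → A} {L : ℕ}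
    (hL : Sep u L) (hLb : 2 * Nb ^ k + 2 ≤ L) (S : ℕ → Finset A) (hmono : Monotone S)
    (hcard : ∀ n, (S n).card = n)
    (hopt : ∀ n ≤ L ^ k, ∀ T : Finset A, T.card = n → fA u (S n) ≤ fA u T) (m : ℕ)
    (hm : Nb ≤ m) : (m : ℝ) * (1 + δ) ≤ L → ∃ a, S (m ^ k) = (box 0 m).image (ph u a) := by
  have hle : ∀ m : ℕ, (m : ℝ) * (1 + δ) ≤ L → m ≤ L := by
    intro m hm
    have h1 : (m : ℝ) ≤ m * (1 + δ) := by
      have : (0 : ℝ) ≤ m := by positivity
      nlinarith
    exact_mod_cast le_trans h1 hm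
  have hgood : ∀ m : ℕ, m ≤ L → m * fA u (S (m ^ k)) ≤ k * m ^ k := by
    intro m hm
    refine le_trans (Nat.mul_le_mul_left _ (hopt (m ^ k) (Nat.pow_le_pow_left hm k)
      ((box 0 m).image (ph u 0)) (card_cube hL hm))) (fA_cube_le m)
  induction m, hm using Nat.le_induction with
  | base =>
    intro hm
    exact small_eq hL hk hNb (hcard _) hLb (hgood Nb (hle Nb hm))
  | succ m hm ih =>
    intro hmL
    have hm1 : (m : ℝ) * (1 + δ) ≤ L := by
      push_cast at hmL
      nlinarith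
    obtain ⟨a, ha⟩ := ih hm1
    obtain ⟨r, j, hr0, hrN, hrk, hrm, hj, hrj⟩ := hpar (m + 1) (by omega)
    have hmle := hle (m + 1) hmL
    apply step (m := m) (r := r) (j := j) (a := a) hL hk (hcard _) (hgood (m + 1) hmle)
    · rw [← ha]
      exact hmono (Nat.pow_le_pow_left (by omega) k)
    · exact hr0
    · omega
    · have h1 := pow_succ_le m k
      have h2 : 2 * k * (m + 1) ^ (k - 1) = 2 * (k * (m + 1) ^ (k - 1)) := by ring
      omega
    · exact hrm
    · exact hj
    · have h1 : ((m + 2 * (8 * k * r * j) + 3 : ℕ) : ℝ) ≤ L := by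
        push_cast at hrj hmL ⊢
        nlinarith
      exact_mod_cast h1

end Pool.Agent.Lib.MP_602b76_co_Gen
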