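import Pool.Agent.Lib.MP_602b76_co_Gen.Crit

/-!
# Many generators: counting relations
-/

namespace Pool.Agent.Lib.MP_602b76_co_Gen

open Finset

/-! ## Vectors orthogonal to a primitive vector -/

/-- The vectors with entries in `[-N, N]` orthogonal to `l`. -/
noncomputable def orth {k : ℕ} (l : Fin k → ℤ) (N : ℕ) : Finset (Fin k → ℤ) :=
  (Fintype.piFinset (fun _ => Finset.Icc (-(N : ℤ)) N)).filter (fun v => ∑ j, l j * v j = 0)

theorem orth_card {k : ℕ} {l w : Fin k → ℤ} (hw : ∑ j, w j * l j = 1) {i : Fin k} {q : ℕ}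
    (hq : 0 < q) (hi : |l i| = q) (N B : ℕ) (hB : 2 * N + 1 ≤ B * q) :
    (orth l N).card * q ≤ (B * q) ^ (k - 1) := by
  obtain ⟨W, hW⟩ : ∃ W, W = B * q := ⟨_, rfl⟩
  have hW0 : (0 : ℤ) < W := by
    have : 0 < W := by omega
    exact_mod_cast this
  have hqW : (q : ℤ) ∣ W := by
    rw [hW]
    push_cast
    exact Dvd.intro_left _ rfl
  have hqi : (q : ℤ) ∣ l i := by
    rw [← hi]
    exact abs_dvd_self _
  have hli : l i ≠ 0 := by
    intro h
    rw [h, abs_zero] at hi
    omega
  have hcod : (Fintype.piFinset (fun j : Fin k => if j = i then ({0} : Finset ℤ) else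
      Finset.Ico (-(N : ℤ)) (-(N : ℤ) + W))).card = W ^ (k - 1) := by
    rw [Fintype.card_piFinset, ← Finset.mul_prod_erase _ _ (mem_univ i)]
    simp only [if_true, card_singleton, one_mul]
    calc ∏ j ∈ (Finset.univ : Finset (Fin k)).erase i,
          (if j = i then ({0} : Finset ℤ) else Finset.Ico (-(N : ℤ)) (-(N : ℤ) + W)).card
        = ∏ _j ∈ (Finset.univ : Finset (Fin k)).erase i, W := by
          apply Finset.prod_congr rfl
          intro j hj
          rw [if_neg (Finset.ne_of_mem_erase hj), Int.card_Ico]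
          omega
      _ = W ^ (k - 1) := by
        rw [Finset.prod_const, Finset.card_erase_of_mem (mem_univ i), card_univ, Fintype.card_fin]
  rw [← hW, ← hcod]
  have hdom : (orth l N).card * q = (orth l N ×ˢ range q).card := by
    rw [card_product, card_range]
  rw [hdom]
  obtain ⟨F, hF⟩ : ∃ F : (Fin k → ℤ) × ℕ → (Fin k → ℤ), ∀ p j, F p j =
      if j = i then 0 else -(N : ℤ) + (p.1 j + p.2 * w j + N) % W := ⟨_, fun _ _ => rfl⟩
  -- the congruence
  have hcong : ∀ v ∈ orth l N, ∀ c : ℕ,
      (q : ℤ) ∣ (∑ j ∈ (Finset.univ : Finset (Fin k)).erase i, l j * F (v, c) j) - c := by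
    intro v hv c
    have hv0 : ∑ j, l j * v j = 0 := (mem_filter.1 hv).2
    rw [← Finset.add_sum_erase _ _ (mem_univ i)] at hv0
    have hw1 := hw
    rw [← Finset.add_sum_erase _ _ (mem_univ i)] at hw1
    have h1 : ∀ j ∈ (Finset.univ : Finset (Fin k)).erase i,
        (q : ℤ) ∣ l j * F (v, c) j - (l j * v j + c * (w j * l j)) := by
      intro j hj
      rw [hF, if_neg (Finset.ne_of_mem_erase hj)]
      obtain ⟨x, hx⟩ : ∃ x, x = v j + c * w j + N := ⟨_, rfl⟩
      have h2 : (W : ℤ) ∣ x % W - x := by
        rw [Int.emod_def]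
        exact ⟨-(x / W), by ring⟩
      have h3 : l j * (-(N : ℤ) + ((v, c) : (Fin k → ℤ) × ℕ).1 j) = l j * (-(N : ℤ) + v j) := rfl
      have h4 : l j * (-(N : ℤ) + (v j + c * w j + N) % W) - (l j * v j + c * (w j * l j)) =
          l j * (x % W - x) := by
        rw [hx]
        ring
      show (q : ℤ) ∣ l j * (-(N : ℤ) + (v j + c * w j + N) % W) -
        (l j * v j + c * (w j * l j))
      rw [h4]
      exact Dvd.dvd.mul_left (dvd_trans hqW h2) _
    have h2 := Finset.dvd_sum h1
    rw [Finset.sum_sub_distrib, Finset.sum_add_distrib, ← Finset.mul_sum] at h2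
    have h3 : (q : ℤ) ∣ l i * v i + c * (w i * l i) :=
      dvd_add (Dvd.dvd.mul_right hqi _) (Dvd.dvd.mul_left (Dvd.dvd.mul_left hqi _) _)
    have h4 := dvd_sub h2 h3
    have e : (∑ j ∈ (Finset.univ : Finset (Fin k)).erase i, l j * F (v, c) j) - c =
        (∑ j ∈ (Finset.univ : Finset (Fin k)).erase i, l j * F (v, c) j) -
          (∑ j ∈ (Finset.univ : Finset (Fin k)).erase i, l j * v j +
            c * ∑ j ∈ (Finset.univ : Finset (Fin k)).erase i, w j * l j) -
          (l i * v i + c * (w i * l i)) := by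
      have e1 : ∑ j ∈ (Finset.univ : Finset (Fin k)).erase i, l j * v j = -(l i * v i) := by
        linarith
      have e2 : ∑ j ∈ (Finset.univ : Finset (Fin k)).erase i, w j * l j = 1 - w i * l i := by
        linarith
      rw [e1, e2]
      ring
    rw [e]
    exact h4
  apply Finset.card_le_card_of_injOn F
  · rintro ⟨v, c⟩ hp
    rw [mem_coe, Fintype.mem_piFinset]
    intro j
    rw [hF]
    split_ifs with hj
    · exact mem_singleton_self _
    · rw [mem_Ico]
      have h1 := Int.emod_nonneg (v j + c * w j + N) hW0.ne'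
      have h2 := Int.emod_lt_of_pos (v j + c * w j + N) hW0
      constructor <;> simp only <;> omega
  · rintro ⟨v, c⟩ hp ⟨v', c'⟩ hp' he
    rw [mem_coe, mem_product, mem_range] at hp hp'
    have h1 := hcong v hp.1 c
    have h2 := hcong v' hp'.1 c'
    rw [he] at h1
    have h3 : (q : ℤ) ∣ (c' : ℤ) - c := by
      have := dvd_sub h1 h2
      have e : ∀ s : ℤ, s - c - (s - c') = c' - c := fun s => by ring
      rwa [e] at this
    have hcc : c = c' := by
      have h4 : (c : ℤ) < q := by exact_mod_cast hp.2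
      have h5 : (c' : ℤ) < q := by exact_mod_cast hp'.2
      obtain ⟨t, ht⟩ := h3
      have ht0 : t = 0 := by
        by_contra hne
        rcases lt_or_gt_of_ne hne with hlt | hgt
        · nlinarith
        · nlinarith
      rw [ht0, mul_zero] at ht
      omega
    subst hcc
    have hv := (mem_filter.1 hp.1)
    have hv' := (mem_filter.1 hp'.1)
    have hvj : ∀ j, j ≠ i → v j = v' j := by
      intro j hj
      have h4 := congrFun he j
      rw [hF, hF, if_neg hj, if_neg hj] at h4
      have h5 : (v j + c * w j + N) % W = (v' j + c * w j + N) % W := by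
        simp only at h4
        omega
      have h6 : (W : ℤ) ∣ (v j + c * w j + N) - (v' j + c * w j + N) :=
        Int.dvd_of_emod_eq_zero (by rw [Int.sub_emod, h5, sub_self, Int.zero_emod])
      have e : (v j + c * w j + N) - (v' j + c * w j + N) = v j - v' j := by ring
      rw [e] at h6
      have g1 := mem_Icc.1 (Fintype.mem_piFinset.1 hv.1 j)
      have g2 := mem_Icc.1 (Fintype.mem_piFinset.1 hv'.1 j)
      have hWN : (2 * N + 1 : ℤ) ≤ W := by
        rw [hW]
        exact_mod_cast hB
      obtain ⟨t, ht⟩ := h6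
      have ht0 : t = 0 := by
        by_contra hne
        rcases lt_or_gt_of_ne hne with hlt | hgt
        · nlinarith
        · nlinarith
      rw [ht0, mul_zero] at ht
      omega
    have hvi : v i = v' i := by
      have h4 := hv.2
      have h5 := hv'.2
      rw [← Finset.add_sum_erase _ _ (mem_univ i)] at h4 h5
      have h6 : ∑ j ∈ (Finset.univ : Finset (Fin k)).erase i, l j * v j =
          ∑ j ∈ (Finset.univ : Finset (Fin k)).erase i, l j * v' j :=
        Finset.sum_congr rfl (fun j hj => by rw [hvj j (Finset.ne_of_mem_erase hj)])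
      have h7 : l i * v i = l i * v' i := by linarith
      exact mul_left_cancel₀ hli h7
    have : v = v' := by
      funext j
      rcases eq_or_ne j i with rfl | hj
      · exact hvi
      · exact hvj j hj
    rw [this]

/-! ## Tuples with a given relation -/

/-- The tuples of vectors with entries in `[-N, N]`. -/
noncomputable def tup (d k N : ℕ) : Finset (Fin k → Fin d → ℤ) :=
  Fintype.piFinset (fun _ => Fintype.piFinset (fun _ => Finset.Icc (-(N : ℤ)) N))

theorem mem_tup {d k N : ℕ} {u : Fin k → Fin d → ℤ} :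
    u ∈ tup d k N ↔ ∀ i j, -(N : ℤ) ≤ u i j ∧ u i j ≤ N := by
  unfold tup
  simp only [Fintype.mem_piFinset, mem_Icc]

theorem card_tup (d k N : ℕ) : (tup d k N).card = (2 * N + 1) ^ (d * k) := by
  unfold tup
  rw [Fintype.card_piFinset]
  simp only [Fintype.card_piFinset, Int.card_Icc, Finset.prod_const, card_univ, Fintype.card_fin]
  rw [← pow_mul]
  congr 1
  omega

theorem rel_card {d k : ℕ} (l : Fin k → ℤ) (N : ℕ) :
    ((tup d k N).filter (fun u => ∑ i, l i • u i = 0)).card ≤ (orth l N).card ^ d := by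
  have h1 : (Fintype.piFinset (fun _ : Fin d => orth l N)).card = (orth l N).card ^ d := by
    rw [Fintype.card_piFinset]
    simp
  rw [← h1]
  apply Finset.card_le_card_of_injOn (fun u j i => u i j)
  · intro u hu
    rw [mem_coe, mem_filter, mem_tup] at hu
    rw [mem_coe, Fintype.mem_piFinset]
    intro j
    unfold orth
    rw [mem_filter, Fintype.mem_piFinset]
    refine ⟨fun i => mem_Icc.2 (hu.1 i j), ?_⟩
    have h2 := congrFun hu.2 j
    simpa [Finset.sum_apply] using h2
  · intro u _ u' _ h
    funext i j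
    exact congrFun (congrFun h j) i

/-! ## The shortest relation -/

theorem exists_short {d k N R : ℕ} {u : Fin k → Fin d → ℤ} (hu : u ∈ tup d k N)
    (hR : (2 * (k * N * R) + 1) ^ d < (R + 1) ^ k) :
    ∃ l : Fin k → ℤ, l ≠ 0 ∧ ∑ i, l i • u i = 0 ∧ ∀ i, |l i| ≤ R := by
  have h1 : (Fintype.piFinset (fun _ : Fin d =>
      Finset.Icc (-((k * N * R : ℕ) : ℤ)) ((k * N * R : ℕ) : ℤ))).card <
        (box (0 : Fin k → ℤ) (R + 1)).card := by
    rw [card_box, Fintype.card_piFinset]
    simp only [Int.card_Icc, Finset.prod_const, card_univ, Fintype.card_fin]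
    refine lt_of_eq_of_lt ?_ hR
    congr 1
    omega
  obtain ⟨x, hx, y, hy, hne, he⟩ := Finset.exists_ne_map_eq_of_card_lt_of_maps_to h1
    (f := fun x : Fin k → ℤ => ∑ i, x i • u i) (by
      intro x hx
      rw [mem_coe, mem_box] at hx
      rw [mem_coe, Fintype.mem_piFinset]
      intro j
      rw [mem_Icc, ← abs_le]
      have h2 : (∑ i, x i • u i) j = ∑ i, x i * u i j := by simp [Finset.sum_apply]
      show |(∑ i, x i • u i) j| ≤ _
      rw [h2]
      refine le_trans (Finset.abs_sum_le_sum_abs _ _) ?_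
      calc ∑ i, |x i * u i j| ≤ ∑ _i : Fin k, ((R : ℤ) * N) := by
            apply Finset.sum_le_sum
            intro i _
            rw [abs_mul]
            have g1 := hx i
            simp only [Pi.zero_apply] at g1
            have g2 := mem_tup.1 hu i j
            have g3 : |x i| ≤ R := by
              rw [abs_le]
              push_cast at g1
              constructor <;> omega
            have g4 : |u i j| ≤ N := abs_le.2 g2
            exact mul_le_mul g3 g4 (abs_nonneg _) (by positivity)
        _ = ((k * N * R : ℕ) : ℤ) := by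
          rw [Finset.sum_const, card_univ, Fintype.card_fin, nsmul_eq_mul]
          push_cast
          ring)
  refine ⟨x - y, sub_ne_zero.2 hne, ?_, fun i => ?_⟩
  · simp only [Pi.sub_apply, sub_smul, Finset.sum_sub_distrib]
    exact sub_eq_zero.2 he
  · have g1 := mem_box.1 hx i
    have g2 := mem_box.1 hy i
    simp only [Pi.zero_apply] at g1 g2
    rw [Pi.sub_apply, abs_le]
    push_cast at g1 g2
    constructor <;> omega

/-- **The shortest relation.** -/
theorem exists_shortest {d k R : ℕ} {u : Fin k → Fin d → ℤ}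
    (h : ∃ l : Fin k → ℤ, l ≠ 0 ∧ ∑ i, l i • u i = 0 ∧ ∀ i, |l i| ≤ R) :
    ∃ (L : ℕ) (l w : Fin k → ℤ) (i : Fin k), 0 < L ∧ L ≤ R ∧ Sep u L ∧ ∑ j, l j • u j = 0 ∧
      |l i| = L ∧ (∀ j, |l j| ≤ L) ∧ ∑ j, w j * l j = 1 := by
  classical
  have hex : ∃ L : ℕ, ∃ l : Fin k → ℤ, l ≠ 0 ∧ ∑ i, l i • u i = 0 ∧ ∀ i, |l i| ≤ L := ⟨R, h⟩
  obtain ⟨L, hL⟩ : ∃ L, L = Nat.find hex := ⟨_, rfl⟩
  have hspec := Nat.find_spec hex
  have hmin : ∀ m < L, ¬ ∃ l : Fin k → ℤ, l ≠ 0 ∧ ∑ i, l i • u i = 0 ∧ ∀ i, |l i| ≤ m :=
    fun m hm => Nat.find_min hex (by rw [← hL]; exact hm)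
  have hLR : L ≤ R := by rw [hL]; exact Nat.find_min' hex h
  rw [← hL] at hspec
  obtain ⟨l, hl0, hl, hlL⟩ := hspec
  have hsep : Sep u L := by
    intro x hx hxL
    by_contra hne
    have hL0 : 0 < L := by
      obtain ⟨i, _⟩ := Function.ne_iff.1 hne
      have := hxL i
      have h2 := abs_nonneg (x i)
      omega
    exact hmin (L - 1) (by omega) ⟨x, hne, hx, fun i => by have := hxL i; omega⟩
  have hex' : ∃ i, |l i| = L := by
    by_contra hcon
    push Not at hcon
    exact hl0 (hsep l hl (fun i => lt_of_le_of_ne (hlL i) (hcon i)))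
  obtain ⟨i, hi⟩ := hex'
  have hL0 : 0 < L := by
    rcases Nat.eq_zero_or_pos L with h0 | h0
    · exfalso
      apply hl0
      funext j
      have := hlL j
      rw [h0] at this
      have h2 := abs_nonneg (l j)
      exact abs_eq_zero.1 (by push_cast at this; omega)
    · exact h0
  -- primitivity
  obtain ⟨g, hg⟩ := (IsPrincipalIdealRing.principal (Ideal.span (Set.range l))).principal
  rw [Ideal.submodule_span_eq] at hg
  have hgl : ∀ j, g ∣ l j := by
    intro j
    rw [← Ideal.mem_span_singleton, ← hg]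
    exact Ideal.subset_span ⟨j, rfl⟩
  have hg1 : |g| ≤ 1 := by
    by_contra hlt
    push Not at hlt
    choose x hx using hgl
    have hg0 : g ≠ 0 := by
      intro h0
      rw [h0, abs_zero] at hlt
      omega
    have hx0 : x = 0 := by
      apply hsep
      · have h1 : g • ∑ j, x j • u j = 0 := by
          rw [Finset.smul_sum, ← hl]
          apply Finset.sum_congr rfl
          intro j _
          rw [smul_smul, ← hx j]
        exact (smul_eq_zero.1 h1).resolve_left hg0
      · intro j
        have h1 := hlL j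
        rw [hx j, abs_mul] at h1
        have h2 := abs_nonneg (x j)
        have hL0' : (0 : ℤ) < L := by exact_mod_cast hL0
        nlinarith
    apply hl0
    funext j
    rw [hx j, hx0]
    simp
  have hg0 : g ≠ 0 := by
    intro h0
    apply hl0
    funext j
    have := hgl j
    rw [h0, zero_dvd_iff] at this
    exact this
  have hgu : IsUnit g := by
    rw [Int.isUnit_iff_abs_eq]
    have := Int.one_le_abs hg0
    omega
  have h1 : (1 : ℤ) ∈ Ideal.span (Set.range l) := by
    rw [hg, Ideal.span_singleton_eq_top.2 hgu]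
    exact Submodule.mem_top
  obtain ⟨w, hw⟩ := (Ideal.mem_span_range_iff_exists_fun).1 h1
  exact ⟨L, l, w, i, hL0, hLR, hsep, hl, hi, hlL, hw⟩

end Pool.Agent.Lib.MP_602b76_co_Gen
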