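import Pool.Agent.Lib.MP_602b76_co_Gen.Chain
import Pool.Agent.Lib.MP_602b76_co_Never.Defs

/-!
# Many generators: the criterion
-/

namespace Pool.Agent.Lib.MP_602b76_co_Gen

open Finset Pool.Agent.Lib.MP_602b76_co_Plane Pool.Agent.Lib.MP_602b76_co_Far
open Pool.Agent.Lib.MP_602b76_co_Never

/-! ## A cube which touches itself -/

section touch

variable {A : Type*} [AddCommGroup A] [DecidableEq A] {k : ℕ} {u : Fin k → A} {a : A} {L : ℕ}

theorem card_overlap (i : Fin k) (L : ℕ) (hL : 0 < L) (l : Fin k → ℤ) :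
    ∏ j ∈ (Finset.univ : Finset (Fin k)).erase i, (L - (l j).natAbs) ≤
      ((box (0 : Fin k → ℤ) L).filter (fun x => x i = (L : ℤ) - 1 ∧
        ∀ j, j ≠ i → 0 ≤ x j - l j ∧ x j - l j < L)).card := by
  have h1 : (Fintype.piFinset (fun j => if j = i then {(L : ℤ) - 1} else
      Finset.Ico (max 0 (l j)) (min (L : ℤ) (L + l j)))).card =
        ∏ j ∈ (Finset.univ : Finset (Fin k)).erase i, (L - (l j).natAbs) := by
    rw [Fintype.card_piFinset, ← Finset.mul_prod_erase _ _ (mem_univ i)]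
    simp only [if_true, card_singleton, one_mul]
    apply Finset.prod_congr rfl
    intro j hj
    rw [if_neg (Finset.ne_of_mem_erase hj), Int.card_Ico]
    omega
  rw [← h1]
  apply card_le_card
  intro x hx
  rw [Fintype.mem_piFinset] at hx
  rw [mem_filter, mem_box]
  have hi := hx i
  rw [if_pos rfl, mem_singleton] at hi
  refine ⟨fun j => ?_, hi, fun j hj => ?_⟩
  · simp only [Pi.zero_apply]
    rcases eq_or_ne j i with rfl | hj
    · rw [hi]
      constructor <;> omega
    · have := hx j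
      rw [if_neg hj, mem_Ico] at this
      constructor <;> omega
  · have := hx j
    rw [if_neg hj, mem_Ico] at this
    constructor <;> omega

theorem ch_touch {i : Fin k} (hL0 : 0 < L) {l : Fin k → ℤ} (hl : ∑ j, l j • u j = 0)
    (hli : l i = L) :
    ch (u i) ((box 0 L).image (ph u a)) +
      ∏ j ∈ (Finset.univ : Finset (Fin k)).erase i, (L - (l j).natAbs) ≤
        ((box (0 : Fin k → ℤ) L).filter (fun x => x i = (L : ℤ) - 1)).card := by
  refine le_trans (Nat.add_le_add_left (card_overlap i L hL0 l) _) ?_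
  have h1 : ch (u i) ((box 0 L).image (ph u a)) ≤ (((box (0 : Fin k → ℤ) L).filter
      (fun x => x i = (L : ℤ) - 1)).filter (fun x => ¬ ∀ j, j ≠ i → 0 ≤ x j - l j ∧
        x j - l j < L)).card := by
    unfold ch
    refine le_trans (card_le_card ?_) (card_image_le (f := ph u a))
    intro y hy
    rw [mem_filter, mem_image] at hy
    obtain ⟨⟨x, hx, rfl⟩, h1⟩ := hy
    rw [mem_image]
    refine ⟨x, ?_, rfl⟩
    rw [mem_filter, mem_filter]
    have hxi := mem_box.1 hx i
    simp only [Pi.zero_apply, zero_add] at hxi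
    have hlast : x i = (L : ℤ) - 1 := by
      by_contra hne
      apply h1
      rw [mem_image]
      refine ⟨x + ee i, ?_, ph_add_ee x i⟩
      rw [mem_box]
      intro j
      rw [Pi.add_apply]
      rcases eq_or_ne j i with rfl | hj
      · have : (ee j : Fin k → ℤ) j = 1 := by simp [ee]
        rw [this]
        simp only [Pi.zero_apply]
        constructor <;> omega
      · have : (ee i : Fin k → ℤ) j = 0 := by simp [ee, hj]
        rw [this, add_zero]
        exact mem_box.1 hx j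
    refine ⟨⟨hx, hlast⟩, fun hcon => h1 ?_⟩
    rw [mem_image]
    refine ⟨x + ee i - l, ?_, ?_⟩
    · rw [mem_box]
      intro j
      rw [Pi.sub_apply, Pi.add_apply]
      rcases eq_or_ne j i with rfl | hj
      · have : (ee j : Fin k → ℤ) j = 1 := by simp [ee]
        rw [this, hli, hlast]
        simp only [Pi.zero_apply]
        constructor <;> omega
      · have : (ee i : Fin k → ℤ) j = 0 := by simp [ee, hj]
        rw [this, add_zero]
        have := hcon j hj
        simp only [Pi.zero_apply, zero_add]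
        exact this
    · rw [sub_eq_add_neg, ph_add, ph_add_ee]
      have h2 : ∑ j, (-l) j • u j = 0 := by
        simp only [Pi.neg_apply, neg_smul, Finset.sum_neg_distrib]
        rw [hl, neg_zero]
      rw [h2, add_zero]
  have h2 := Finset.card_filter_add_card_filter_not (s := (box (0 : Fin k → ℤ) L).filter
      (fun x => x i = (L : ℤ) - 1)) (fun x => ∀ j, j ≠ i → 0 ≤ x j - l j ∧ x j - l j < L)
  rw [filter_filter] at h2
  omega

/-- The cube of side `L` has few chains if it touches itself. -/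
theorem fA_touch {i : Fin k} (hL0 : 0 < L) {l : Fin k → ℤ} (hl : ∑ j, l j • u j = 0)
    (hli : l i = L) :
    L * (fA u ((box 0 L).image (ph u a)) +
      ∏ j ∈ (Finset.univ : Finset (Fin k)).erase i, (L - (l j).natAbs)) ≤ k * L ^ k := by
  have h1 := ch_touch (a := a) hL0 hl hli
  have h2 : fA u ((box 0 L).image (ph u a)) = ch (u i) ((box 0 L).image (ph u a)) +
      ∑ j ∈ (Finset.univ : Finset (Fin k)).erase i, ch (u j) ((box 0 L).image (ph u a)) := by
    unfold fA
    exact (Finset.add_sum_erase _ _ (mem_univ i)).symm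
  have h3 := card_face i L
  have h4 : L * ∑ j ∈ (Finset.univ : Finset (Fin k)).erase i,
      ch (u j) ((box 0 L).image (ph u a)) ≤ (k - 1) * L ^ k := by
    rw [Finset.mul_sum]
    calc ∑ j ∈ (Finset.univ : Finset (Fin k)).erase i, L * ch (u j) ((box 0 L).image (ph u a))
        ≤ ∑ _j ∈ (Finset.univ : Finset (Fin k)).erase i, L ^ k := by
          apply Finset.sum_le_sum
          intro j _
          exact le_trans (Nat.mul_le_mul_left _ (ch_image_le j _)) (ch_box_le j L)
      _ = (k - 1) * L ^ k := by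
        rw [Finset.sum_const, Finset.card_erase_of_mem (mem_univ i), card_univ, Fintype.card_fin,
          smul_eq_mul]
  have hk : 0 < k := i.pos
  have h5 : L * (ch (u i) ((box 0 L).image (ph u a)) +
      ∏ j ∈ (Finset.univ : Finset (Fin k)).erase i, (L - (l j).natAbs)) ≤ L ^ k :=
    le_trans (Nat.mul_le_mul_left _ h1) h3
  have h6 : k * L ^ k = L ^ k + (k - 1) * L ^ k := by
    obtain ⟨k', rfl⟩ : ∃ k', k = k' + 1 := ⟨k - 1, by omega⟩
    simp only [Nat.add_sub_cancel]
    ring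
  rw [h2, h6]
  calc L * (ch (u i) ((box 0 L).image (ph u a)) +
      ∑ j ∈ (Finset.univ : Finset (Fin k)).erase i, ch (u j) ((box 0 L).image (ph u a)) +
      ∏ j ∈ (Finset.univ : Finset (Fin k)).erase i, (L - (l j).natAbs))
      = L * (ch (u i) ((box 0 L).image (ph u a)) +
        ∏ j ∈ (Finset.univ : Finset (Fin k)).erase i, (L - (l j).natAbs)) +
        L * ∑ j ∈ (Finset.univ : Finset (Fin k)).erase i,
          ch (u j) ((box 0 L).image (ph u a)) := by ring
    _ ≤ _ := add_le_add h5 h4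

end touch

/-! ## Removing points -/

section remove

variable {d k : ℕ} {u : Fin k → (Fin d → ℤ)}

theorem remove_one (hu : ∀ i, u i ≠ 0) {T : Finset (Fin d → ℤ)} (hne : T.Nonempty) :
    ∃ x ∈ T, fA u (T.erase x) ≤ fA u T := by
  obtain ⟨x, hx, hmax⟩ := Finset.exists_max_image T (fun z => ∑ j, z j ^ 2) hne
  refine ⟨x, hx, Finset.sum_le_sum (fun i _ => ?_)⟩
  have hnot : x - u i ∈ T → x + u i ∉ T := by
    intro h1 h2
    have g1 := hmax _ h1
    have g2 := hmax _ h2
    have g3 : ∑ j, (x - u i) j ^ 2 + ∑ j, (x + u i) j ^ 2 =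
        2 * ∑ j, x j ^ 2 + 2 * ∑ j, (u i) j ^ 2 := by
      rw [← Finset.sum_add_distrib, Finset.mul_sum, Finset.mul_sum, ← Finset.sum_add_distrib]
      apply Finset.sum_congr rfl
      intro j _
      simp only [Pi.sub_apply, Pi.add_apply]
      ring
    have g4 : 0 < ∑ j, (u i) j ^ 2 := by
      obtain ⟨j, hj⟩ := Function.ne_iff.1 (hu i)
      exact Finset.sum_pos' (fun j _ => sq_nonneg _) ⟨j, mem_univ j,
        lt_of_le_of_ne (sq_nonneg _) (Ne.symm (pow_ne_zero 2 hj))⟩
    linarith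
  unfold ch
  by_cases h1 : x - u i ∈ T
  · have h2 := hnot h1
    have h3 : (T.erase x).filter (fun z => z + u i ∉ T.erase x) ⊆
        insert (x - u i) ((T.filter (fun z => z + u i ∉ T)).erase x) := by
      intro z hz
      rw [mem_filter, mem_erase, mem_erase] at hz
      rw [mem_insert, mem_erase, mem_filter]
      by_cases h4 : z + u i = x
      · left
        rw [← h4, add_sub_cancel_right]
      · right
        exact ⟨hz.1.1, hz.1.2, fun h5 => hz.2 ⟨h4, h5⟩⟩
    have h4 : x ∈ T.filter (fun z => z + u i ∉ T) := by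
      rw [mem_filter]
      exact ⟨hx, h2⟩
    refine le_trans (card_le_card h3) (le_trans (card_insert_le _ _) ?_)
    rw [card_erase_of_mem h4]
    have := card_pos.2 ⟨x, h4⟩
    omega
  · apply card_le_card
    intro z hz
    rw [mem_filter, mem_erase, mem_erase] at hz
    rw [mem_filter]
    refine ⟨hz.1.2, fun h5 => hz.2 ⟨fun h4 => h1 ?_, h5⟩⟩
    rw [← h4, add_sub_cancel_right]
    exact hz.1.2

theorem remove_many (hu : ∀ i, u i ≠ 0) (T : Finset (Fin d → ℤ)) (n : ℕ) (hn : n ≤ T.card) :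
    ∃ T' : Finset (Fin d → ℤ), T'.card = n ∧ fA u T' ≤ fA u T := by
  obtain ⟨c, hc⟩ : ∃ c, c = T.card - n := ⟨_, rfl⟩
  induction c generalizing T with
  | zero => exact ⟨T, by omega, le_rfl⟩
  | succ c ih =>
    obtain ⟨x, hx, h1⟩ := remove_one hu (T := T) (card_pos.1 (by omega))
    obtain ⟨T', h2, h3⟩ := ih (T.erase x) (by rw [card_erase_of_mem hx]; omega)
      (by rw [card_erase_of_mem hx]; omega)
    exact ⟨T', h2, le_trans h3 h1⟩

theorem edgeBoundary_sum (U S : Finset (Fin d → ℤ)) :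
    edgeBoundary U S = ∑ w ∈ U ∪ U.image (fun u => -u), ch w S := by
  unfold edgeBoundary ch
  rw [Finset.card_filter, Finset.sum_product_right]
  apply Finset.sum_congr rfl
  intro w _
  rw [Finset.card_filter]

theorem edgeBoundary_eq_fA (hinj : Function.Injective u) (hne : ∀ i j, u i ≠ -u j)
    (S : Finset (Fin d → ℤ)) :
    edgeBoundary (Finset.univ.image u) S = 2 * fA u S := by
  rw [edgeBoundary_sum, Finset.sum_union]
  · have h1 : ∑ w ∈ Finset.univ.image u, ch w S = ∑ i, ch (u i) S :=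
      Finset.sum_image (fun i _ j _ h => hinj h)
    have h2 : ∑ w ∈ (Finset.univ.image u).image (fun u => -u), ch w S = ∑ i, ch (u i) S := by
      rw [Finset.sum_image (fun i _ j _ h => neg_injective h)]
      simp only [ch_neg]
      exact h1
    rw [h1, h2]
    unfold fA
    ring
  · rw [Finset.disjoint_left]
    intro x hx hx'
    rw [mem_image] at hx hx'
    obtain ⟨i, _, rfl⟩ := hx
    obtain ⟨y, hy, h1⟩ := hx'
    rw [mem_image] at hy
    obtain ⟨j, _, rfl⟩ := hy
    exact hne i j h1.symm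

end remove

/-! ## The criterion -/

theorem crit (k : ℕ) (ε : ℝ) (hε : 0 < ε) : ∃ L0 : ℕ, ∀ (d : ℕ) (u : Fin k → (Fin d → ℤ))
    (L : ℕ), L0 ≤ L → Sep u L → ∀ (l : Fin k → ℤ) (i : Fin k), ∑ j, l j • u j = 0 →
      |l i| = L → (∀ j, j ≠ i → (|l j| : ℝ) ≤ (1 - ε) * L) →
        ∀ e : ℕ ≃ (Fin d → ℤ), ∃ n ≤ L ^ k,
          ¬ EdgeOptimal (Finset.univ.image u) ((range n).image e) := by
  rcases Nat.eq_zero_or_pos k with rfl | hk
  · exact ⟨0, fun d u L _ _ l i => i.elim0⟩
  obtain ⟨ε', hε'⟩ : ∃ ε', ε' = min ε 1 := ⟨_, rfl⟩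
  have hε0 : 0 < ε' := by rw [hε']; positivity
  have hε1 : ε' ≤ 1 := by rw [hε']; exact min_le_right _ _
  have hεε : ε' ≤ ε := by rw [hε']; exact min_le_left _ _
  have hkR : (1 : ℝ) ≤ k := by exact_mod_cast hk
  obtain ⟨δ, hδ⟩ : ∃ δ, δ = ε' ^ (k - 1) / (4 * (k : ℝ) ^ 2) := ⟨_, rfl⟩
  have hp0 : 0 < ε' ^ (k - 1) := by positivity
  have hp1 : ε' ^ (k - 1) ≤ 1 := pow_le_one₀ hε0.le hε1
  have hδ0 : 0 < δ := by rw [hδ]; positivity
  have hδk : 4 * (k : ℝ) ^ 2 * δ = ε' ^ (k - 1) := by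
    rw [hδ]
    field_simp
  have hδ1 : δ ≤ 1 / 4 := by
    have h1 : (1 : ℝ) ≤ (k : ℝ) ^ 2 := one_le_pow₀ hkR
    have h2 : 1 * δ ≤ (k : ℝ) ^ 2 * δ := mul_le_mul_of_nonneg_right h1 hδ0.le
    linarith
  obtain ⟨Nb, hNb, hchain⟩ := chain hk δ hδ0
  obtain ⟨M1, hM1⟩ := exists_nat_ge (1 / δ)
  refine ⟨2 * Nb ^ k + 2 * Nb + M1 + 3, ?_⟩
  intro d u L hL0 hL l i hl hli hlj e
  by_contra hcon
  push Not at hcon
  have hL3 : 3 ≤ L := by omega
  have hLM : 1 ≤ δ * L := by
    have h1 : 1 / δ ≤ L := by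
      refine le_trans hM1 ?_
      exact_mod_cast (by omega : M1 ≤ L)
    rw [div_le_iff₀ hδ0] at h1
    linarith
  -- the generators
  have hee : ∀ i j : Fin k, |(ee i : Fin k → ℤ) j| ≤ 1 := by
    intro i j
    have := ee_le i j
    rw [abs_le]
    constructor <;> omega
  have hu0 : ∀ i, u i ≠ 0 := by
    intro i h
    have h1 := hL (ee i) (by rw [sum_ee, h]) (fun j => by
      have := hee i j
      omega)
    have h2 := congrFun h1 i
    simp [ee] at h2
  have hinj : Function.Injective u := by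
    intro i j h
    by_contra hne
    have h1 := hL (ee i - ee j) (by
      simp only [Pi.sub_apply, sub_smul, Finset.sum_sub_distrib]
      rw [sum_ee, sum_ee, h, sub_self]) (fun m => by
        have h1 := ee_le i m
        have h2 := ee_le j m
        rw [Pi.sub_apply, abs_lt]
        constructor <;> omega)
    have h2 := congrFun h1 i
    rw [Pi.sub_apply] at h2
    have h3 : (ee i : Fin k → ℤ) i = 1 := by simp [ee]
    have h4 : (ee j : Fin k → ℤ) i = 0 := by simp [ee, hne]
    rw [h3, h4] at h2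
    simp at h2
  have hneg : ∀ i j, u i ≠ -u j := by
    intro i j h
    have h1 := hL (ee i + ee j) (by
      simp only [Pi.add_apply, add_smul, Finset.sum_add_distrib]
      rw [sum_ee, sum_ee, h, neg_add_cancel]) (fun m => by
        have h1 := ee_le i m
        have h2 := ee_le j m
        rw [Pi.add_apply, abs_lt]
        constructor <;> omega)
    have h2 := congrFun h1 i
    rw [Pi.add_apply] at h2
    have h3 : (ee i : Fin k → ℤ) i = 1 := by simp [ee]
    have h4 := ee_le j i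
    rw [h3] at h2
    simp only [Pi.zero_apply] at h2
    omega
  have hbd := edgeBoundary_eq_fA hinj hneg
  -- the initial segments
  obtain ⟨S, hS⟩ : ∃ S : ℕ → Finset (Fin d → ℤ), ∀ n, S n = (range n).image e :=
    ⟨_, fun _ => rfl⟩
  have hcard : ∀ n, (S n).card = n := by
    intro n
    rw [hS, card_image_of_injective _ e.injective, card_range]
  have hmono : Monotone S := by
    intro n n' h
    rw [hS, hS]
    exact image_subset_image (range_subset_range.2 h)
  have hopt : ∀ n ≤ L ^ k, ∀ T : Finset (Fin d → ℤ), T.card = n → fA u (S n) ≤ fA u T := by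
    intro n hn T hT
    have h1 := hcon n hn T (by rw [hT, ← hS, hcard])
    rw [← hS, hbd, hbd] at h1
    omega
  -- the last cube
  obtain ⟨m, hm⟩ : ∃ m, m = ⌊(L : ℝ) / (1 + δ)⌋₊ := ⟨_, rfl⟩
  have h1δ : 0 < 1 + δ := by linarith
  have hm1 : (m : ℝ) * (1 + δ) ≤ L := by
    rw [← le_div_iff₀ h1δ, hm]
    exact Nat.floor_le (by positivity)
  have hm2 : (L : ℝ) / (1 + δ) < m + 1 := by
    rw [hm]
    exact Nat.lt_floor_add_one _
  have hm3 : (1 - 2 * δ) * L ≤ m := by
    have h1 : (1 - δ) * L ≤ (L : ℝ) / (1 + δ) := by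
      rw [le_div_iff₀ h1δ]
      have : (0 : ℝ) ≤ L := by positivity
      nlinarith [mul_nonneg (mul_nonneg hδ0.le hδ0.le) this]
    nlinarith
  have hm4 : Nb ≤ m := by
    rw [hm]
    apply Nat.le_floor
    rw [le_div_iff₀ h1δ]
    have h1 : (2 : ℝ) * Nb ≤ L := by exact_mod_cast (by omega : 2 * Nb ≤ L)
    have h2 : (0 : ℝ) ≤ Nb := by positivity
    nlinarith
  have hm0 : 0 < m := by omega
  have hm0' : (0 : ℝ) < m := by exact_mod_cast hm0
  have hmL : m < L := by
    have : (m : ℝ) < L := by nlinarith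
    exact_mod_cast this
  obtain ⟨a, ha⟩ := hchain hL (by omega) S hmono hcard hopt m hm4 hm1
  have hnear : near u a (S (m ^ k)) (box 0 m) = S (m ^ k) := by
    apply subset_antisymm (near_subset _ _)
    intro z hz
    rw [mem_near]
    refine ⟨hz, ?_⟩
    rw [ha, mem_image] at hz
    exact hz
  have hlow := lift_lw (a := a) hL (S := S (m ^ k)) (T := box 0 m) (by
      intro x hx y hy j
      have h1 := mem_box.1 hx j
      have h2 := mem_box.1 hy j
      simp only [Pi.zero_apply] at h1 h2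
      have h3 : |x j - y j| ≤ (m : ℤ) - 1 := by
        rw [abs_le]
        constructor <;> omega
      omega) hm0' (by
        rw [hnear, hcard]
        push_cast
        exact le_rfl)
  rw [hnear, hcard] at hlow
  have hlow' : (k : ℝ) * m ^ (k - 1) ≤ fA u (S (m ^ k)) := by
    have e1 : (k : ℝ) * ((m ^ k : ℕ) : ℝ) = m * (k * m ^ (k - 1)) := by
      obtain ⟨k', rfl⟩ : ∃ k', k = k' + 1 := ⟨k - 1, by omega⟩
      simp only [Nat.add_sub_cancel]
      push_cast
      ring
    rw [e1] at hlow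
    exact le_of_mul_le_mul_left hlow hm0'
  -- the competitor
  obtain ⟨l', hl', hli', habs⟩ : ∃ l' : Fin k → ℤ, ∑ j, l' j • u j = 0 ∧ l' i = L ∧
      ∀ j, |l' j| = |l j| := by
    rcases abs_choice (l i) with h | h
    · exact ⟨l, hl, by rw [← h, hli], fun j => rfl⟩
    · refine ⟨-l, ?_, by rw [Pi.neg_apply, ← h, hli], fun j => by rw [Pi.neg_apply, abs_neg]⟩
      simp only [Pi.neg_apply, neg_smul, Finset.sum_neg_distrib]
      rw [hl, neg_zero]
  have htouch := fA_touch (u := u) (a := (0 : Fin d → ℤ)) (L := L) (by omega) hl' hli'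
  obtain ⟨T', hT1, hT2⟩ := remove_many hu0 ((box 0 L).image (ph u 0)) (m ^ k) (by
    rw [card_cube hL le_rfl]
    exact Nat.pow_le_pow_left hmL.le k)
  have hle := le_trans (hopt (m ^ k) (Nat.pow_le_pow_left hmL.le k) T' hT1) hT2
  have hLR : (0 : ℝ) < L := by exact_mod_cast (by omega : 0 < L)
  have hP : (ε' * L) ^ (k - 1) ≤
      ((∏ j ∈ (Finset.univ : Finset (Fin k)).erase i, (L - (l' j).natAbs) : ℕ) : ℝ) := by
    have h1 : (ε' * L) ^ (k - 1) = ∏ _j ∈ (Finset.univ : Finset (Fin k)).erase i, (ε' * L) := by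
      rw [Finset.prod_const, Finset.card_erase_of_mem (mem_univ i), card_univ, Fintype.card_fin]
    rw [h1]
    push_cast
    apply Finset.prod_le_prod
    · intro j _
      positivity
    · intro j hj
      have h2 := hlj j (Finset.ne_of_mem_erase hj)
      have h3 : ((l' j).natAbs : ℝ) = |(l j : ℝ)| := by
        have h4 : ((l' j).natAbs : ℤ) = |l j| := by rw [Int.natCast_natAbs, habs j]
        have h5 : (((l' j).natAbs : ℤ) : ℝ) = ((|l j| : ℤ) : ℝ) := by rw [h4]
        rw [Int.cast_natCast, Int.cast_abs] at h5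
        exact h5
      have h6 : (L : ℝ) - ((l' j).natAbs : ℝ) ≤ ((L - (l' j).natAbs : ℕ) : ℝ) := by
        have h7 : L ≤ (L - (l' j).natAbs) + (l' j).natAbs := by omega
        have h8 : (L : ℝ) ≤ ((L - (l' j).natAbs : ℕ) : ℝ) + ((l' j).natAbs : ℝ) := by
          exact_mod_cast h7
        linarith
      refine le_trans ?_ h6
      rw [h3]
      nlinarith
  have htouch' : (k : ℝ) * m ^ (k - 1) + (ε' * L) ^ (k - 1) ≤ k * L ^ (k - 1) := by
    have h1 : (L : ℝ) * ((fA u ((box 0 L).image (ph u 0)) : ℝ) +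
        ((∏ j ∈ (Finset.univ : Finset (Fin k)).erase i, (L - (l' j).natAbs) : ℕ) : ℝ)) ≤
          k * L ^ k := by exact_mod_cast htouch
    have e1 : (k : ℝ) * L ^ k = L * (k * L ^ (k - 1)) := by
      obtain ⟨k', rfl⟩ : ∃ k', k = k' + 1 := ⟨k - 1, by omega⟩
      simp only [Nat.add_sub_cancel]
      ring
    rw [e1] at h1
    have h2 := le_of_mul_le_mul_left h1 hLR
    have h3 : (fA u (S (m ^ k)) : ℝ) ≤ fA u ((box 0 L).image (ph u 0)) := by exact_mod_cast hle
    linarith
  -- contradiction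
  have hpow : (1 - 2 * (k - 1 : ℕ) * δ) * (L : ℝ) ^ (k - 1) ≤ (m : ℝ) ^ (k - 1) := by
    have h1 : (-2 : ℝ) ≤ -(2 * δ) := by linarith
    have h2 := one_add_mul_le_pow h1 (k - 1)
    have h3 : 0 ≤ (1 - 2 * δ) * (L : ℝ) := by
      apply mul_nonneg (by linarith) hLR.le
    calc (1 - 2 * (k - 1 : ℕ) * δ) * (L : ℝ) ^ (k - 1)
        = (1 + ((k - 1 : ℕ) : ℝ) * -(2 * δ)) * (L : ℝ) ^ (k - 1) := by ring
      _ ≤ (1 + -(2 * δ)) ^ (k - 1) * (L : ℝ) ^ (k - 1) :=
          mul_le_mul_of_nonneg_right h2 (by positivity)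
      _ = ((1 - 2 * δ) * L) ^ (k - 1) := by rw [mul_pow]; ring
      _ ≤ (m : ℝ) ^ (k - 1) := pow_le_pow_left₀ h3 hm3 _
  have hkk : ((k - 1 : ℕ) : ℝ) ≤ k := by exact_mod_cast (by omega : k - 1 ≤ k)
  obtain ⟨X, hX⟩ : ∃ X : ℝ, X = (L : ℝ) ^ (k - 1) := ⟨_, rfl⟩
  have hX0 : 0 < X := by rw [hX]; positivity
  rw [mul_pow, ← hX] at htouch'
  rw [← hX] at hpow
  have h1 : (k : ℝ) * ((1 - 2 * (k - 1 : ℕ) * δ) * X) ≤ k * m ^ (k - 1) :=
    mul_le_mul_of_nonneg_left hpow (by positivity)
  have h2 : (k : ℝ) * ((1 - 2 * (k - 1 : ℕ) * δ) * X) =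
      k * X - 2 * k * (k - 1 : ℕ) * δ * X := by ring
  have h3 : 2 * (k : ℝ) * (k - 1 : ℕ) * δ * X ≤ 2 * (k : ℝ) * k * δ * X := by
    have : 0 ≤ 2 * (k : ℝ) * δ * X := by positivity
    nlinarith
  have h4 : 2 * (2 * (k : ℝ) * k * δ * X) = ε' ^ (k - 1) * X := by
    rw [← hδk]
    ring
  have h5 : 0 < ε' ^ (k - 1) * X := by positivity
  linarith

end Pool.Agent.Lib.MP_602b76_co_Gen
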