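import Pool.Agent.Lib.MP_602b76_co_Gen.Crit
import Pool.Agent.Lib.MP_602b76_co_Gen.Chain2

/-!
# Many generators: the criterion with a polynomial bound
-/

namespace Pool.Agent.Lib.MP_602b76_co_Gen

open Finset Pool.Agent.Lib.MP_602b76_co_Plane Pool.Agent.Lib.MP_602b76_co_Far
open Pool.Agent.Lib.MP_602b76_co_Never

/-- The criterion, with a polynomial bound in `1 / ε` for the length of the relation. -/
theorem crit2 (k : ℕ) : ∃ A B : ℕ, ∀ ε : ℝ, 0 < ε → ε ≤ 1 → ∀ (d : ℕ)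
    (u : Fin k → (Fin d → ℤ)) (L : ℕ), (A : ℝ) * (1 / ε) ^ B ≤ L → Sep u L →
      ∀ (l : Fin k → ℤ) (i : Fin k), ∑ j, l j • u j = 0 →
      |l i| = L → (∀ j, j ≠ i → (|l j| : ℝ) ≤ (1 - ε) * L) →
        ∀ e : ℕ ≃ (Fin d → ℤ), ∃ n ≤ L ^ k,
          ¬ EdgeOptimal (Finset.univ.image u) ((range n).image e) := by
  rcases Nat.eq_zero_or_pos k with rfl | hk
  · exact ⟨0, 0, fun ε _ _ d u L _ _ l i => i.elim0⟩
  obtain ⟨A1, B1, hpar2⟩ := param2 k hk
  refine ⟨4 * A1 ^ k * (4 * k ^ 2) ^ (B1 * k) + 8 * k ^ 2, k * (B1 * k) + k, ?_⟩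
  intro ε' hε0 hε1
  have hkR : (1 : ℝ) ≤ k := by exact_mod_cast hk
  obtain ⟨δ, hδ⟩ : ∃ δ, δ = ε' ^ (k - 1) / (4 * (k : ℝ) ^ 2) := ⟨_, rfl⟩
  have hp0 : 0 < ε' ^ (k - 1) := by positivity
  have hp1 : ε' ^ (k - 1) ≤ 1 := pow_le_one₀ hε0.le hε1
  have hδ0 : 0 < δ := by rw [hδ]; positivity
  have hδk : 4 * (k : ℝ) ^ 2 * δ = ε' ^ (k - 1) := by
    rw [hδ]
    field_simp
  have hδ1 : δ ≤ 1 / 4 := by
    have h1 : (1 : ℝ) ≤ (k : ℝ) ^ 2 := one_le_pow₀ hkR
    have h2 : 1 * δ ≤ (k : ℝ) ^ 2 * δ := mul_le_mul_of_nonneg_right h1 hδ0.le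
    linarith
  obtain ⟨Nb, hNb, hNbA, hpar⟩ := hpar2 δ hδ0 (by linarith)
  obtain ⟨M1, hM1d⟩ : ∃ M1 : ℕ, M1 = ⌈1 / δ⌉₊ := ⟨_, rfl⟩
  have hM1 : 1 / δ ≤ M1 := by rw [hM1d]; exact Nat.le_ceil _
  have hM1b : (M1 : ℝ) < 1 / δ + 1 := by
    rw [hM1d]
    exact Nat.ceil_lt_add_one (by positivity)
  have hL0bound : ((2 * Nb ^ k + 2 * Nb + M1 + 3 : ℕ) : ℝ) ≤
      ((4 * A1 ^ k * (4 * k ^ 2) ^ (B1 * k) + 8 * k ^ 2 : ℕ) : ℝ) *
        (1 / ε') ^ (k * (B1 * k) + k) := by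
    obtain ⟨x, hx⟩ : ∃ x : ℝ, x = 1 / ε' := ⟨_, rfl⟩
    have hx1 : 1 ≤ x := by
      rw [hx, le_div_iff₀ hε0]
      linarith
    rw [← hx]
    have hδx : 1 / δ ≤ 4 * k ^ 2 * x ^ k := by
      have h1 : 1 / δ = 4 * k ^ 2 * x ^ (k - 1) := by
        rw [hδ, hx, one_div_pow]
        field_simp
      rw [h1]
      apply mul_le_mul_of_nonneg_left _ (by positivity)
      exact pow_le_pow_right₀ hx1 (by omega)
    have hNbx : (Nb : ℝ) ≤ A1 * (4 * k ^ 2 * x ^ k) ^ B1 :=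
      le_trans hNbA (mul_le_mul_of_nonneg_left
        (pow_le_pow_left₀ (by positivity) hδx _) (by positivity))
    have hNbk : (Nb : ℝ) ^ k ≤ A1 ^ k * (4 * k ^ 2) ^ (B1 * k) * x ^ (k * (B1 * k)) := by
      refine le_trans (pow_le_pow_left₀ (by positivity) hNbx k) (le_of_eq ?_)
      rw [mul_pow, mul_pow (4 * (k : ℝ) ^ 2), mul_pow ((4 * (k : ℝ) ^ 2) ^ B1), ← pow_mul,
        ← pow_mul, ← pow_mul]
      ring
    have hNb1 : (Nb : ℝ) ≤ (Nb : ℝ) ^ k :=
      le_self_pow₀ (by exact_mod_cast hNb) hk.ne'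
    have hxk : (1 : ℝ) ≤ x ^ k := one_le_pow₀ hx1
    have hk2 : (1 : ℝ) ≤ (k : ℝ) ^ 2 := one_le_pow₀ hkR
    have hM3 : (M1 : ℝ) + 3 ≤ 8 * k ^ 2 * x ^ k := by
      have h1 : (4 : ℝ) ≤ 4 * k ^ 2 * x ^ k := by
        have : (1 : ℝ) * 1 ≤ k ^ 2 * x ^ k := mul_le_mul hk2 hxk (by norm_num) (by positivity)
        linarith
      linarith
    have hp1' : x ^ (k * (B1 * k)) ≤ x ^ (k * (B1 * k) + k) :=
      pow_le_pow_right₀ hx1 (by omega)
    have hp2' : x ^ k ≤ x ^ (k * (B1 * k) + k) := pow_le_pow_right₀ hx1 (by omega)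
    push_cast
    have h1 : (A1 : ℝ) ^ k * (4 * k ^ 2) ^ (B1 * k) * x ^ (k * (B1 * k)) ≤
        A1 ^ k * (4 * k ^ 2) ^ (B1 * k) * x ^ (k * (B1 * k) + k) :=
      mul_le_mul_of_nonneg_left hp1' (by positivity)
    have h2 : 8 * (k : ℝ) ^ 2 * x ^ k ≤ 8 * k ^ 2 * x ^ (k * (B1 * k) + k) :=
      mul_le_mul_of_nonneg_left hp2' (by positivity)
    have h3 : (4 * (A1 : ℝ) ^ k * (4 * k ^ 2) ^ (B1 * k) + 8 * k ^ 2) *
        x ^ (k * (B1 * k) + k) =
        4 * (A1 ^ k * (4 * k ^ 2) ^ (B1 * k) * x ^ (k * (B1 * k) + k)) +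
          8 * k ^ 2 * x ^ (k * (B1 * k) + k) := by ring
    rw [h3]
    linarith
  intro d u L hL0r hL l i hl hli hlj e
  have hL0 : 2 * Nb ^ k + 2 * Nb + M1 + 3 ≤ L := by exact_mod_cast le_trans hL0bound hL0r
  by_contra hcon
  push Not at hcon
  have hL3 : 3 ≤ L := by omega
  have hLM : 1 ≤ δ * L := by
    have h1 : 1 / δ ≤ L := by
      refine le_trans hM1 ?_
      exact_mod_cast (by omega : M1 ≤ L)
    rw [div_le_iff₀ hδ0] at h1
    linarith
  -- the generators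
  have hee : ∀ i j : Fin k, |(ee i : Fin k → ℤ) j| ≤ 1 := by
    intro i j
    have := ee_le i j
    rw [abs_le]
    constructor <;> omega
  have hu0 : ∀ i, u i ≠ 0 := by
    intro i h
    have h1 := hL (ee i) (by rw [sum_ee, h]) (fun j => by
      have := hee i j
      omega)
    have h2 := congrFun h1 i
    simp [ee] at h2
  have hinj : Function.Injective u := by
    intro i j h
    by_contra hne
    have h1 := hL (ee i - ee j) (by
      simp only [Pi.sub_apply, sub_smul, Finset.sum_sub_distrib]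
      rw [sum_ee, sum_ee, h, sub_self]) (fun m => by
        have h1 := ee_le i m
        have h2 := ee_le j m
        rw [Pi.sub_apply, abs_lt]
        constructor <;> omega)
    have h2 := congrFun h1 i
    rw [Pi.sub_apply] at h2
    have h3 : (ee i : Fin k → ℤ) i = 1 := by simp [ee]
    have h4 : (ee j : Fin k → ℤ) i = 0 := by simp [ee, hne]
    rw [h3, h4] at h2
    simp at h2
  have hneg : ∀ i j, u i ≠ -u j := by
    intro i j h
    have h1 := hL (ee i + ee j) (by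
      simp only [Pi.add_apply, add_smul, Finset.sum_add_distrib]
      rw [sum_ee, sum_ee, h, neg_add_cancel]) (fun m => by
        have h1 := ee_le i m
        have h2 := ee_le j m
        rw [Pi.add_apply, abs_lt]
        constructor <;> omega)
    have h2 := congrFun h1 i
    rw [Pi.add_apply] at h2
    have h3 : (ee i : Fin k → ℤ) i = 1 := by simp [ee]
    have h4 := ee_le j i
    rw [h3] at h2
    simp only [Pi.zero_apply] at h2
    omega
  have hbd := edgeBoundary_eq_fA hinj hneg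
  -- the initial segments
  obtain ⟨S, hS⟩ : ∃ S : ℕ → Finset (Fin d → ℤ), ∀ n, S n = (range n).image e :=
    ⟨_, fun _ => rfl⟩
  have hcard : ∀ n, (S n).card = n := by
    intro n
    rw [hS, card_image_of_injective _ e.injective, card_range]
  have hmono : Monotone S := by
    intro n n' h
    rw [hS, hS]
    exact image_subset_image (range_subset_range.2 h)
  have hopt : ∀ n ≤ L ^ k, ∀ T : Finset (Fin d → ℤ), T.card = n → fA u (S n) ≤ fA u T := by
    intro n hn T hT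
    have h1 := hcon n hn T (by rw [hT, ← hS, hcard])
    rw [← hS, hbd, hbd] at h1
    omega
  -- the last cube
  obtain ⟨m, hm⟩ : ∃ m, m = ⌊(L : ℝ) / (1 + δ)⌋₊ := ⟨_, rfl⟩
  have h1δ : 0 < 1 + δ := by linarith
  have hm1 : (m : ℝ) * (1 + δ) ≤ L := by
    rw [← le_div_iff₀ h1δ, hm]
    exact Nat.floor_le (by positivity)
  have hm2 : (L : ℝ) / (1 + δ) < m + 1 := by
    rw [hm]
    exact Nat.lt_floor_add_one _
  have hm3 : (1 - 2 * δ) * L ≤ m := by
    have h1 : (1 - δ) * L ≤ (L : ℝ) / (1 + δ) := by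
      rw [le_div_iff₀ h1δ]
      have : (0 : ℝ) ≤ L := by positivity
      nlinarith [mul_nonneg (mul_nonneg hδ0.le hδ0.le) this]
    nlinarith
  have hm4 : Nb ≤ m := by
    rw [hm]
    apply Nat.le_floor
    rw [le_div_iff₀ h1δ]
    have h1 : (2 : ℝ) * Nb ≤ L := by exact_mod_cast (by omega : 2 * Nb ≤ L)
    have h2 : (0 : ℝ) ≤ Nb := by positivity
    nlinarith
  have hm0 : 0 < m := by omega
  have hm0' : (0 : ℝ) < m := by exact_mod_cast hm0
  have hmL : m < L := by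
    have : (m : ℝ) < L := by nlinarith
    exact_mod_cast this
  obtain ⟨a, ha⟩ := chain2 hk δ hδ0 hNb hpar hL (by omega) S hmono hcard hopt m hm4 hm1
  have hnear : near u a (S (m ^ k)) (box 0 m) = S (m ^ k) := by
    apply subset_antisymm (near_subset _ _)
    intro z hz
    rw [mem_near]
    refine ⟨hz, ?_⟩
    rw [ha, mem_image] at hz
    exact hz
  have hlow := lift_lw (a := a) hL (S := S (m ^ k)) (T := box 0 m) (by
      intro x hx y hy j
      have h1 := mem_box.1 hx j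
      have h2 := mem_box.1 hy j
      simp only [Pi.zero_apply] at h1 h2
      have h3 : |x j - y j| ≤ (m : ℤ) - 1 := by
        rw [abs_le]
        constructor <;> omega
      omega) hm0' (by
        rw [hnear, hcard]
        push_cast
        exact le_rfl)
  rw [hnear, hcard] at hlow
  have hlow' : (k : ℝ) * m ^ (k - 1) ≤ fA u (S (m ^ k)) := by
    have e1 : (k : ℝ) * ((m ^ k : ℕ) : ℝ) = m * (k * m ^ (k - 1)) := by
      obtain ⟨k', rfl⟩ : ∃ k', k = k' + 1 := ⟨k - 1, by omega⟩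
      simp only [Nat.add_sub_cancel]
      push_cast
      ring
    rw [e1] at hlow
    exact le_of_mul_le_mul_left hlow hm0'
  -- the competitor
  obtain ⟨l', hl', hli', habs⟩ : ∃ l' : Fin k → ℤ, ∑ j, l' j • u j = 0 ∧ l' i = L ∧
      ∀ j, |l' j| = |l j| := by
    rcases abs_choice (l i) with h | h
    · exact ⟨l, hl, by rw [← h, hli], fun j => rfl⟩
    · refine ⟨-l, ?_, by rw [Pi.neg_apply, ← h, hli], fun j => by rw [Pi.neg_apply, abs_neg]⟩
      simp only [Pi.neg_apply, neg_smul, Finset.sum_neg_distrib]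
      rw [hl, neg_zero]
  have htouch := fA_touch (u := u) (a := (0 : Fin d → ℤ)) (L := L) (by omega) hl' hli'
  obtain ⟨T', hT1, hT2⟩ := remove_many hu0 ((box 0 L).image (ph u 0)) (m ^ k) (by
    rw [card_cube hL le_rfl]
    exact Nat.pow_le_pow_left hmL.le k)
  have hle := le_trans (hopt (m ^ k) (Nat.pow_le_pow_left hmL.le k) T' hT1) hT2
  have hLR : (0 : ℝ) < L := by exact_mod_cast (by omega : 0 < L)
  have hP : (ε' * L) ^ (k - 1) ≤
      ((∏ j ∈ (Finset.univ : Finset (Fin k)).erase i, (L - (l' j).natAbs) : ℕ) : ℝ) := by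
    have h1 : (ε' * L) ^ (k - 1) = ∏ _j ∈ (Finset.univ : Finset (Fin k)).erase i, (ε' * L) := by
      rw [Finset.prod_const, Finset.card_erase_of_mem (mem_univ i), card_univ, Fintype.card_fin]
    rw [h1]
    push_cast
    apply Finset.prod_le_prod
    · intro j _
      positivity
    · intro j hj
      have h2 := hlj j (Finset.ne_of_mem_erase hj)
      have h3 : ((l' j).natAbs : ℝ) = |(l j : ℝ)| := by
        have h4 : ((l' j).natAbs : ℤ) = |l j| := by rw [Int.natCast_natAbs, habs j]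
        have h5 : (((l' j).natAbs : ℤ) : ℝ) = ((|l j| : ℤ) : ℝ) := by rw [h4]
        rw [Int.cast_natCast, Int.cast_abs] at h5
        exact h5
      have h6 : (L : ℝ) - ((l' j).natAbs : ℝ) ≤ ((L - (l' j).natAbs : ℕ) : ℝ) := by
        have h7 : L ≤ (L - (l' j).natAbs) + (l' j).natAbs := by omega
        have h8 : (L : ℝ) ≤ ((L - (l' j).natAbs : ℕ) : ℝ) + ((l' j).natAbs : ℝ) := by
          exact_mod_cast h7
        linarith
      refine le_trans ?_ h6
      rw [h3]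
      nlinarith
  have htouch' : (k : ℝ) * m ^ (k - 1) + (ε' * L) ^ (k - 1) ≤ k * L ^ (k - 1) := by
    have h1 : (L : ℝ) * ((fA u ((box 0 L).image (ph u 0)) : ℝ) +
        ((∏ j ∈ (Finset.univ : Finset (Fin k)).erase i, (L - (l' j).natAbs) : ℕ) : ℝ)) ≤
          k * L ^ k := by exact_mod_cast htouch
    have e1 : (k : ℝ) * L ^ k = L * (k * L ^ (k - 1)) := by
      obtain ⟨k', rfl⟩ : ∃ k', k = k' + 1 := ⟨k - 1, by omega⟩
      simp only [Nat.add_sub_cancel]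
      ring
    rw [e1] at h1
    have h2 := le_of_mul_le_mul_left h1 hLR
    have h3 : (fA u (S (m ^ k)) : ℝ) ≤ fA u ((box 0 L).image (ph u 0)) := by exact_mod_cast hle
    linarith
  -- contradiction
  have hpow : (1 - 2 * (k - 1 : ℕ) * δ) * (L : ℝ) ^ (k - 1) ≤ (m : ℝ) ^ (k - 1) := by
    have h1 : (-2 : ℝ) ≤ -(2 * δ) := by linarith
    have h2 := one_add_mul_le_pow h1 (k - 1)
    have h3 : 0 ≤ (1 - 2 * δ) * (L : ℝ) := by
      apply mul_nonneg (by linarith) hLR.le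
    calc (1 - 2 * (k - 1 : ℕ) * δ) * (L : ℝ) ^ (k - 1)
        = (1 + ((k - 1 : ℕ) : ℝ) * -(2 * δ)) * (L : ℝ) ^ (k - 1) := by ring
      _ ≤ (1 + -(2 * δ)) ^ (k - 1) * (L : ℝ) ^ (k - 1) :=
          mul_le_mul_of_nonneg_right h2 (by positivity)
      _ = ((1 - 2 * δ) * L) ^ (k - 1) := by rw [mul_pow]; ring
      _ ≤ (m : ℝ) ^ (k - 1) := pow_le_pow_left₀ h3 hm3 _
  have hkk : ((k - 1 : ℕ) : ℝ) ≤ k := by exact_mod_cast (by omega : k - 1 ≤ k)
  obtain ⟨X, hX⟩ : ∃ X : ℝ, X = (L : ℝ) ^ (k - 1) := ⟨_, rfl⟩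
  have hX0 : 0 < X := by rw [hX]; positivity
  rw [mul_pow, ← hX] at htouch'
  rw [← hX] at hpow
  have h1 : (k : ℝ) * ((1 - 2 * (k - 1 : ℕ) * δ) * X) ≤ k * m ^ (k - 1) :=
    mul_le_mul_of_nonneg_left hpow (by positivity)
  have h2 : (k : ℝ) * ((1 - 2 * (k - 1 : ℕ) * δ) * X) =
      k * X - 2 * k * (k - 1 : ℕ) * δ * X := by ring
  have h3 : 2 * (k : ℝ) * (k - 1 : ℕ) * δ * X ≤ 2 * (k : ℝ) * k * δ * X := by
    have : 0 ≤ 2 * (k : ℝ) * δ * X := by positivity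
    nlinarith
  have h4 : 2 * (2 * (k : ℝ) * k * δ * X) = ε' ^ (k - 1) * X := by
    rw [← hδk]
    ring
  have h5 : 0 < ε' ^ (k - 1) * X := by positivity
  linarith

end Pool.Agent.Lib.MP_602b76_co_Gen
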