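import Pool.Agent.Lib.MP_602b76_co_Gen.Gram

/-!
# Generating tuples have positive density
-/

namespace Pool.Agent.Lib.MP_602b76_co_Gen

open Finset

open Classical in
theorem first_card {d k N : ℕ} (hdk : d < k) :
    ((tup d k N).filter (fun u => ¬ LinearIndependent ℚ
      (fun i : Fin d => cq u (Fin.castLE hdk.le i)))).card * (2 * N + 1) ≤
        d * (2 * N + 1) ^ (d * k) := by
  obtain ⟨r, rfl⟩ : ∃ r, k = d + r := ⟨k - d, by omega⟩
  have h1 : ((tup d (d + r) N).filter (fun u => ¬ LinearIndependent ℚ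
      (fun i : Fin d => cq u (Fin.castLE hdk.le i)))).card ≤
        (((tup d d N).filter (fun c => ¬ LinearIndependent ℚ (cq c))) ×ˢ tup d r N).card := by
    apply Finset.card_le_card_of_injOn
      (fun u => ((fun i => u (Fin.castLE hdk.le i)), (fun i => u (Fin.natAdd d i))))
    · intro u hu
      rw [mem_coe, mem_filter, mem_tup] at hu
      rw [mem_coe, mem_product, mem_filter, mem_tup, mem_tup]
      exact ⟨⟨fun i m => hu.1 _ m, hu.2⟩, fun i m => hu.1 _ m⟩
    · intro u _ u' _ h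
      have h1 : ∀ i, u (Fin.castLE hdk.le i) = u' (Fin.castLE hdk.le i) :=
        fun i => congrFun (congrArg Prod.fst h) i
      have h2 : ∀ i, u (Fin.natAdd d i) = u' (Fin.natAdd d i) :=
        fun i => congrFun (congrArg Prod.snd h) i
      funext i
      refine Fin.addCases (fun a => ?_) (fun b => ?_) i
      · exact h1 a
      · exact h2 b
  rw [card_product, card_tup] at h1
  calc _ ≤ (((tup d d N).filter (fun c => ¬ LinearIndependent ℚ (cq c))).card *
        (2 * N + 1) ^ (d * r)) * (2 * N + 1) := Nat.mul_le_mul_right _ h1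
    _ = (((tup d d N).filter (fun c => ¬ LinearIndependent ℚ (cq c))).card *
        (2 * N + 1)) * (2 * N + 1) ^ (d * r) := by ring
    _ ≤ (d * (2 * N + 1) ^ (d * d)) * (2 * N + 1) ^ (d * r) :=
        Nat.mul_le_mul_right _ (dep_card d N d le_rfl)
    _ = _ := by rw [mul_assoc, ← pow_add, ← mul_add]

open Classical in
theorem kill_real {d k N p : ℕ} (hd : 0 < d) (hdk : d < k) (hp : p.Prime) :
    (((tup d k N).filter (fun u => Kill p u)).card : ℝ) ≤
      (2 * N + 1 : ℝ) ^ (d * k) *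
        ((1 + (p : ℝ) / (2 * N + 1)) ^ k * (1 / ((p : ℝ) * (p - 1)))) := by
  obtain ⟨x, hx⟩ : ∃ x, x = ((tup d k N).filter (fun u => Kill p u)).card := ⟨_, rfl⟩
  obtain ⟨q, hq⟩ : ∃ q, q = 2 * N / p + 1 := ⟨_, rfl⟩
  have h1 := kill_card (d := d) (k := k) (N := N) hp
  rw [← hx, ← hq] at h1
  rw [← hx]
  have hp2 : (2 : ℝ) ≤ p := by exact_mod_cast hp.two_le
  have h2 : (x : ℝ) * ((p : ℝ) - 1) ≤ (p : ℝ) ^ d * ((2 * N + 1 : ℝ) ^ (d - 1) * q) ^ k := by
    have h3 : ((x * (p - 1) : ℕ) : ℝ) ≤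
        ((p ^ d * ((2 * N + 1) ^ (d - 1) * q) ^ k : ℕ) : ℝ) := by exact_mod_cast h1
    push_cast [Nat.cast_sub hp.one_le] at h3
    exact h3
  obtain ⟨M, hM⟩ : ∃ M : ℝ, M = 2 * N + 1 := ⟨_, rfl⟩
  have hM0 : 0 < M := by rw [hM]; positivity
  rw [← hM] at h2 ⊢
  have hqp : (q : ℝ) * p ≤ M + p := by
    have h3 : q * p ≤ 2 * N + 1 + p := by
      rw [hq, add_mul, one_mul]
      have := Nat.div_mul_le_self (2 * N) p
      omega
    rw [hM]
    exact_mod_cast h3
  have hpk : (p : ℝ) ^ d * p ≤ (p : ℝ) ^ k := by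
    rw [← pow_succ]
    exact pow_le_pow_right₀ (by linarith) hdk
  have hx0 : (0 : ℝ) ≤ x := by positivity
  have h3 : (p : ℝ) ^ d * ((x : ℝ) * (p * (p - 1))) ≤
      (p : ℝ) ^ d * (M ^ (d * k) * (1 + p / M) ^ k) := by
    calc (p : ℝ) ^ d * ((x : ℝ) * (p * (p - 1))) = (x * (p - 1)) * ((p : ℝ) ^ d * p) := by ring
      _ ≤ (x * (p - 1)) * (p : ℝ) ^ k :=
          mul_le_mul_of_nonneg_left hpk (mul_nonneg hx0 (by linarith))
      _ ≤ ((p : ℝ) ^ d * (M ^ (d - 1) * q) ^ k) * (p : ℝ) ^ k :=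
          mul_le_mul_of_nonneg_right h2 (by positivity)
      _ = (p : ℝ) ^ d * (M ^ (d - 1) * (q * p)) ^ k := by
          rw [mul_assoc, ← mul_pow]
          ring
      _ ≤ (p : ℝ) ^ d * (M ^ (d - 1) * (M + p)) ^ k := by
          apply mul_le_mul_of_nonneg_left _ (by positivity)
          apply pow_le_pow_left₀ (by positivity)
          exact mul_le_mul_of_nonneg_left hqp (by positivity)
      _ = (p : ℝ) ^ d * (M ^ (d * k) * (1 + p / M) ^ k) := by
          have h4 : M ^ (d - 1) * (M + p) = M ^ d * (1 + p / M) := by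
            obtain ⟨d', rfl⟩ : ∃ d', d = d' + 1 := ⟨d - 1, by omega⟩
            rw [Nat.add_sub_cancel, pow_succ]
            field_simp
          rw [h4, mul_pow, ← pow_mul]
  have h4 := le_of_mul_le_mul_left h3 (by positivity)
  have hpp : 0 < (p : ℝ) * (p - 1) := mul_pos (by linarith) (by linarith)
  have h5 : M ^ (d * k) * ((1 + p / M) ^ k * (1 / ((p : ℝ) * (p - 1)))) =
      (M ^ (d * k) * (1 + p / M) ^ k) / ((p : ℝ) * (p - 1)) := by ring
  rw [h5, le_div_iff₀ hpp]
  exact h4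

/-- The weighted sum over the primes. -/
noncomputable def ws (k : ℕ) (M : ℝ) (n : ℕ) : ℝ :=
  ∑ p ∈ (range (n + 1)).filter Nat.Prime, (1 + (p : ℝ) / M) ^ k * (1 / ((p : ℝ) * (p - 1)))

theorem ws_succ {k : ℕ} {M : ℝ} (hM : 0 < M) {n : ℕ} (hn : 0 < n) {A : ℝ}
    (hA : (1 + ((n + 1 : ℕ) : ℝ) / M) ^ k ≤ A) :
    ws k M (n + 1) ≤ ws k M n + A * (1 / n - 1 / (n + 1 : ℕ)) := by
  have hn0 : (0 : ℝ) < n := by exact_mod_cast hn
  have hA0 : 0 ≤ A := le_trans (by positivity) hA
  have hfrac : (1 : ℝ) / (((n + 1 : ℕ) : ℝ) * (((n + 1 : ℕ) : ℝ) - 1)) =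
      1 / n - 1 / (n + 1 : ℕ) := by
    push_cast
    have h1 : (n : ℝ) + 1 - 1 = n := by ring
    have h2 : (n : ℝ) + 1 ≠ 0 := by positivity
    rw [h1, div_sub_div _ _ hn0.ne' h2]
    congr 1
    · ring
    · ring
  unfold ws
  rw [Finset.sum_filter, Finset.sum_range_succ, ← Finset.sum_filter]
  apply add_le_add_right
  split_ifs with h
  · rw [hfrac]
    apply mul_le_mul_of_nonneg_right hA
    rw [← hfrac]
    apply div_nonneg zero_le_one
    push_cast
    apply mul_nonneg (by positivity) (by linarith)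
  · apply mul_nonneg hA0
    rw [← hfrac]
    apply div_nonneg zero_le_one
    push_cast
    apply mul_nonneg (by positivity) (by linarith)

theorem ws_small {k : ℕ} {M : ℝ} (hM : 0 < M) {T : ℕ} (n : ℕ) (hn : 4 ≤ n) (hnT : n ≤ T) :
    ws k M n ≤ (1 + (T : ℝ) / M) ^ k * (11 / 12 - 1 / n) := by
  have hmono : ∀ m : ℕ, m ≤ T → (1 + (m : ℝ) / M) ^ k ≤ (1 + (T : ℝ) / M) ^ k := by
    intro m hm
    apply pow_le_pow_left₀ (by positivity)
    have h1 : (m : ℝ) ≤ T := by exact_mod_cast hm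
    have h2 : (m : ℝ) / M ≤ T / M := div_le_div_of_nonneg_right h1 hM.le
    linarith
  induction n, hn using Nat.le_induction with
  | base =>
    have h1 : ws k M 4 = (1 + (2 : ℝ) / M) ^ k * (1 / 2) + (1 + (3 : ℝ) / M) ^ k * (1 / 6) := by
      unfold ws
      have h2 : (range (4 + 1)).filter Nat.Prime = {2, 3} := by decide
      rw [h2, Finset.sum_pair (by norm_num)]
      norm_num
    rw [h1]
    have h2 := hmono 2 (by omega)
    have h3 := hmono 3 (by omega)
    push_cast at h2 h3 ⊢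
    linarith
  | succ n hn ih =>
    have h1 := ws_succ hM (n := n) (by omega) (hmono (n + 1) hnT)
    have h2 := ih (by omega)
    have h3 : (1 + (T : ℝ) / M) ^ k * (11 / 12 - 1 / (n : ℝ)) +
        (1 + (T : ℝ) / M) ^ k * (1 / n - 1 / ((n + 1 : ℕ) : ℝ)) =
          (1 + (T : ℝ) / M) ^ k * (11 / 12 - 1 / ((n + 1 : ℕ) : ℝ)) := by ring
    linarith

theorem ws_large {k M T : ℕ} (hT : 4 ≤ T) (n : ℕ) (hn : T ≤ n) (hnM : n ≤ M) :
    ws k M n ≤ (1 + (T : ℝ) / M) ^ k * (11 / 12) + 2 ^ k * (1 / T - 1 / n) := by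
  have hM : (0 : ℝ) < M := by exact_mod_cast (by omega : 0 < M)
  have hmono : ∀ m : ℕ, m ≤ M → (1 + (m : ℝ) / M) ^ k ≤ 2 ^ k := by
    intro m hm
    apply pow_le_pow_left₀ (by positivity)
    have h1 : (m : ℝ) ≤ M := by exact_mod_cast hm
    have h2 : (m : ℝ) / M ≤ 1 := by
      rw [div_le_one hM]
      exact h1
    linarith
  induction n, hn using Nat.le_induction with
  | base =>
    have h1 := ws_small (k := k) hM T hT le_rfl
    rw [sub_self, mul_zero, add_zero]
    refine le_trans h1 ?_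
    apply mul_le_mul_of_nonneg_left _ (by positivity)
    have : (0 : ℝ) ≤ 1 / T := by positivity
    linarith
  | succ n hn ih =>
    have h1 := ws_succ hM (n := n) (by omega) (hmono (n + 1) hnM)
    have h2 := ih (by omega)
    have h3 : (2 : ℝ) ^ k * (1 / T - 1 / (n : ℝ)) +
        2 ^ k * (1 / n - 1 / ((n + 1 : ℕ) : ℝ)) =
          2 ^ k * (1 / T - 1 / ((n + 1 : ℕ) : ℝ)) := by ring
    linarith

theorem pow_near_one {x : ℝ} (h0 : 0 ≤ x) (h1 : x ≤ 1) (n : ℕ) : (1 + x) ^ n ≤ 1 + 2 ^ n * x := by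
  have h : (1 + x) ^ n ≤ 1 + (2 ^ n - 1) * x := by
    induction n with
    | zero => norm_num
    | succ n ih =>
      have h2 : (1 : ℝ) ≤ 2 ^ n := one_le_pow₀ (by norm_num)
      have h3 : (1 + x) ^ (n + 1) ≤ (1 + (2 ^ n - 1) * x) * (1 + x) := by
        rw [pow_succ]
        exact mul_le_mul_of_nonneg_right ih (by linarith)
      have h4 : (1 + (2 ^ n - 1) * x) * (1 + x) = 1 + 2 ^ n * x + (2 ^ n - 1) * x * x := by ring
      have h5 : ((2 : ℝ) ^ n - 1) * x * x ≤ (2 ^ n - 1) * x * 1 :=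
        mul_le_mul_of_nonneg_left h1 (mul_nonneg (by linarith) h0)
      have h6 : (2 : ℝ) ^ (n + 1) = 2 * 2 ^ n := by ring
      rw [h6]
      linarith
  linarith

open Classical in
/-- The tuples which do not generate. -/
theorem nongen_card {d k N : ℕ} (hd : 0 < d) (hdk : d < k) (hN : 0 < N)
    (hM : d.factorial * d ^ d ≤ 2 * N + 1) :
    (((tup d k N).filter (fun u => AddSubgroup.closure (Set.range u) ≠ ⊤)).card : ℝ) ≤
      (2 * N + 1 : ℝ) ^ (d * k) * ((d + 2 * d * k) / (2 * N + 1 : ℝ) +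
        ws k ((2 * N + 1 : ℕ) : ℝ) (2 * N + 1)) := by
  obtain ⟨D, hD⟩ : ∃ D, D = (tup d k N).filter (fun u => ¬ LinearIndependent ℚ
      (fun i : Fin d => cq u (Fin.castLE hdk.le i))) := ⟨_, rfl⟩
  obtain ⟨J, hJ⟩ : ∃ J : Finset (Fin k), J = Finset.univ.filter (fun j => j.val ≤ d) := ⟨_, rfl⟩
  have hsub : (tup d k N).filter (fun u => AddSubgroup.closure (Set.range u) ≠ ⊤) ⊆
      (D ∪ J.biUnion (fun j => (tup d k N).filter (fun u => Drop (2 * N + 1) u j))) ∪
        ((range (2 * N + 1 + 1)).filter Nat.Prime).biUnion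
          (fun p => (tup d k N).filter (fun u => Kill p u)) := by
    intro u hu
    rw [mem_filter] at hu
    obtain ⟨hu1, hu2⟩ := hu
    obtain ⟨p, hp, hkill⟩ := exists_kill hu2
    rw [mem_union, mem_union]
    rcases Nat.lt_or_ge (2 * N + 1) p with hlt | hge
    · left
      by_cases hind : LinearIndependent ℚ (fun i : Fin d => cq u (Fin.castLE hdk.le i))
      · right
        obtain ⟨j, hj, hdrop⟩ := drop_of_kill hdk hind hp hlt hkill
        rw [mem_biUnion]
        exact ⟨j, by rw [hJ, mem_filter]; exact ⟨mem_univ _, hj⟩, mem_filter.2 ⟨hu1, hdrop⟩⟩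
      · left
        rw [hD, mem_filter]
        exact ⟨hu1, hind⟩
    · right
      rw [mem_biUnion]
      exact ⟨p, mem_filter.2 ⟨mem_range.2 (by omega), hp⟩, mem_filter.2 ⟨hu1, hkill⟩⟩
  obtain ⟨M, hMM⟩ : ∃ M : ℝ, M = 2 * N + 1 := ⟨_, rfl⟩
  have hM0 : 0 < M := by rw [hMM]; positivity
  have hMn : ((2 * N + 1 : ℕ) : ℝ) = M := by rw [hMM]; push_cast; ring
  have hDc : (D.card : ℝ) ≤ M ^ (d * k) * (d / M) := by
    have h1 : D.card * (2 * N + 1) ≤ d * (2 * N + 1) ^ (d * k) := by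
      rw [hD]
      exact first_card hdk
    have h2 : (D.card : ℝ) * M ≤ d * M ^ (d * k) := by
      rw [hMM]
      exact_mod_cast h1
    have h3 : M ^ (d * k) * (d / M) = (d * M ^ (d * k)) / M := by ring
    rw [h3, le_div_iff₀ hM0]
    exact h2
  have hJc : ((J.biUnion (fun j => (tup d k N).filter
      (fun u => Drop (2 * N + 1) u j))).card : ℝ) ≤ M ^ (d * k) * (2 * d * k / M) := by
    have h1 : (J.biUnion (fun j => (tup d k N).filter (fun u => Drop (2 * N + 1) u j))).card ≤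
        k * ((2 * d * (2 * N + 1) ^ (d - 1)) * (2 * N + 1) ^ (d * (k - 1))) := by
      refine le_trans card_biUnion_le ?_
      calc ∑ j ∈ J, ((tup d k N).filter (fun u => Drop (2 * N + 1) u j)).card
          ≤ ∑ _j ∈ J, ((2 * d * (2 * N + 1) ^ (d - 1)) * (2 * N + 1) ^ (d * (k - 1))) := by
            apply Finset.sum_le_sum
            intro j hj
            rw [hJ, mem_filter] at hj
            exact drop_card hN hM hd hj.2
        _ = J.card * ((2 * d * (2 * N + 1) ^ (d - 1)) * (2 * N + 1) ^ (d * (k - 1))) := by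
            rw [Finset.sum_const, smul_eq_mul]
        _ ≤ _ := by
            apply Nat.mul_le_mul_right
            rw [hJ]
            refine le_trans (card_filter_le _ _) (le_of_eq ?_)
            rw [card_univ, Fintype.card_fin]
    have h2 : ((J.biUnion (fun j => (tup d k N).filter
        (fun u => Drop (2 * N + 1) u j))).card : ℝ) ≤
          k * ((2 * d * M ^ (d - 1)) * M ^ (d * (k - 1))) := by
      rw [hMM]
      exact_mod_cast h1
    refine le_trans h2 (le_of_eq ?_)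
    have h3 : M ^ (d * k) = M ^ (d - 1) * M ^ (d * (k - 1)) * M := by
      rw [← pow_add, ← pow_succ]
      congr 1
      obtain ⟨d', rfl⟩ : ∃ d', d = d' + 1 := ⟨d - 1, by omega⟩
      obtain ⟨k', rfl⟩ : ∃ k', k = k' + 1 := ⟨k - 1, by omega⟩
      simp only [Nat.add_sub_cancel]
      ring
    rw [h3]
    field_simp
  have hKc : ((((range (2 * N + 1 + 1)).filter Nat.Prime).biUnion
      (fun p => (tup d k N).filter (fun u => Kill p u))).card : ℝ) ≤
        M ^ (d * k) * ws k M (2 * N + 1) := by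
    have h1 : ((((range (2 * N + 1 + 1)).filter Nat.Prime).biUnion
        (fun p => (tup d k N).filter (fun u => Kill p u))).card : ℝ) ≤
          ∑ p ∈ (range (2 * N + 1 + 1)).filter Nat.Prime,
            (((tup d k N).filter (fun u => Kill p u)).card : ℝ) := by
      exact_mod_cast card_biUnion_le
    refine le_trans h1 ?_
    unfold ws
    rw [Finset.mul_sum]
    apply Finset.sum_le_sum
    intro p hp
    rw [mem_filter] at hp
    rw [hMM]
    exact kill_real hd hdk hp.2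
  have htot : (((tup d k N).filter (fun u => AddSubgroup.closure (Set.range u) ≠ ⊤)).card : ℝ) ≤
      D.card + ((J.biUnion (fun j => (tup d k N).filter
      (fun u => Drop (2 * N + 1) u j))).card : ℝ) + ((((range (2 * N + 1 + 1)).filter
        Nat.Prime).biUnion (fun p => (tup d k N).filter (fun u => Kill p u))).card : ℝ) := by
    have h1 := le_trans (card_le_card hsub) (le_trans (card_union_le _ _)
      (Nat.add_le_add_right (card_union_le _ _) _))
    exact_mod_cast h1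
  rw [← hMM, hMn]
  refine le_trans htot ?_
  have h2 : M ^ (d * k) * ((d + 2 * d * k) / M + ws k M (2 * N + 1)) =
      M ^ (d * k) * (d / M) + M ^ (d * k) * (2 * d * k / M) +
        M ^ (d * k) * ws k M (2 * N + 1) := by ring
  rw [h2]
  linarith

open Classical in
/-- **Positive density of the generating tuples.** -/
theorem gen_card (d k : ℕ) (hd : 0 < d) (hdk : d < k) : ∃ N1 : ℕ, ∀ N : ℕ, N1 ≤ N →
    (2 * N + 1 : ℝ) ^ (d * k) ≤
      24 * (((tup d k N).filter (fun u => AddSubgroup.closure (Set.range u) = ⊤)).card : ℝ) := by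
  obtain ⟨T, hT⟩ : ∃ T : ℕ, T = 48 * 2 ^ k := ⟨_, rfl⟩
  have h2k : 1 ≤ 2 ^ k := Nat.one_le_two_pow
  have hT4 : 4 ≤ T := by omega
  refine ⟨d.factorial * d ^ d + T + 48 * (d + 2 * d * k + 2 ^ k * T) + 1, fun N hN => ?_⟩
  have hN0 : 0 < N := by omega
  obtain ⟨Mn, hMn⟩ : ∃ Mn : ℕ, Mn = 2 * N + 1 := ⟨_, rfl⟩
  obtain ⟨M, hM⟩ : ∃ M : ℝ, M = 2 * N + 1 := ⟨_, rfl⟩
  have hMMn : (Mn : ℝ) = M := by rw [hMn, hM]; push_cast; ring
  have hM0 : 0 < M := by rw [hM]; positivity
  have hTM : T ≤ Mn := by omega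
  have h1 := nongen_card (N := N) hd hdk hN0 (by omega)
  rw [← hMn, hMMn, ← hM] at h1
  have h2 := ws_large (k := k) hT4 Mn hTM le_rfl
  rw [hMMn] at h2
  have hTM' : (T : ℝ) / M ≤ 1 := by
    rw [div_le_one hM0, ← hMMn]
    exact_mod_cast hTM
  have h3 := pow_near_one (x := (T : ℝ) / M) (by positivity) hTM' k
  have h4 : (2 : ℝ) ^ k * (1 / T) = 1 / 48 := by
    rw [hT]
    push_cast
    field_simp
  have h5 : (0 : ℝ) ≤ 2 ^ k * (1 / M) := by positivity
  have h6 : ((d : ℝ) + 2 * d * k + 2 ^ k * T) / M ≤ 1 / 48 := by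
    rw [div_le_iff₀ hM0, ← hMMn]
    have h7 : 48 * (d + 2 * d * k + 2 ^ k * T) ≤ Mn := by omega
    have h8 : 48 * ((d : ℝ) + 2 * d * k + 2 ^ k * T) ≤ Mn := by exact_mod_cast h7
    linarith
  have h7 : ((d : ℝ) + 2 * d * k) / M + ws k M Mn ≤ 23 / 24 := by
    have h8 : ((d : ℝ) + 2 * d * k + 2 ^ k * T) / M =
        ((d : ℝ) + 2 * d * k) / M + 2 ^ k * (T / M) := by ring
    rw [h8] at h6
    have h9 : (2 : ℝ) ^ k * (T / M) ≥ 0 := by positivity
    rw [mul_sub] at h2
    linarith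
  have h8 : (((tup d k N).filter (fun u => AddSubgroup.closure (Set.range u) ≠ ⊤)).card : ℝ) ≤
      M ^ (d * k) * (23 / 24) := le_trans h1 (mul_le_mul_of_nonneg_left h7 (by positivity))
  have h9 : (((tup d k N).filter (fun u => AddSubgroup.closure (Set.range u) = ⊤)).card : ℝ) +
      (((tup d k N).filter (fun u => AddSubgroup.closure (Set.range u) ≠ ⊤)).card : ℝ) =
        M ^ (d * k) := by
    have h10 := Finset.card_filter_add_card_filter_not (s := tup d k N)
      (fun u => AddSubgroup.closure (Set.range u) = ⊤)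
    rw [card_tup] at h10
    rw [hM]
    exact_mod_cast h10
  rw [← hM]
  linarith

end Pool.Agent.Lib.MP_602b76_co_Gen
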