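import Pool.Agent.Lib.MP_602b76_co_Gen.Box

/-!
# Many generators: the case of equality in the grid
-/

namespace Pool.Agent.Lib.MP_602b76_co_Gen

open Finset Pool.Agent.Lib.MP_602b76_co_Plane

/-- A finite set of integers with at most one end is an interval. -/
theorem interval {X : Finset ℤ} (hne : X.Nonempty) (h : (X.filter (fun x => x + 1 ∉ X)).card ≤ 1) :
    ∃ a : ℤ, X = Finset.Ico a (a + X.card) := by
  have hmax := X.max'_mem hne
  have hend : ∀ x ∈ X, x + 1 ∉ X → x = X.max' hne := by
    intro x hx hx1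
    rw [Finset.card_le_one] at h
    apply h
    · rw [mem_filter]
      exact ⟨hx, hx1⟩
    · rw [mem_filter]
      refine ⟨hmax, fun h' => ?_⟩
      have := X.le_max' _ h'
      omega
  have key : X = Finset.Icc (X.min' hne) (X.max' hne) := by
    ext z
    rw [mem_Icc]
    constructor
    · intro hz
      exact ⟨X.min'_le z hz, X.le_max' z hz⟩
    · rintro ⟨h1, h2⟩
      obtain ⟨n, hn⟩ : ∃ n : ℕ, z = X.min' hne + n := ⟨(z - X.min' hne).toNat, by omega⟩
      clear h1
      induction n generalizing z with
      | zero => rw [hn]; simpa using X.min'_mem hne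
      | succ n ih =>
        have h3 := ih (X.min' hne + n) (by push_cast at hn; omega) rfl
        by_contra hz
        have h4 := hend _ h3 (by
          have : X.min' hne + (n : ℤ) + 1 = z := by rw [hn]; push_cast; ring
          rw [this]
          exact hz)
        push_cast at hn
        omega
  have hle := X.min'_le_max' hne
  refine ⟨X.min' hne, ?_⟩
  have hc : (X.card : ℤ) = X.max' hne + 1 - X.min' hne := by
    have : X.card = (Finset.Icc (X.min' hne) (X.max' hne)).card := congrArg card key
    rw [this, Int.card_Icc, Int.toNat_of_nonneg (by omega)]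
  rw [hc]
  conv_lhs => rw [key]
  ext z
  rw [mem_Icc, mem_Ico]
  omega

theorem FF_nonneg' {k : ℕ} {S : Finset (Fin k → ℤ)} {N : ℕ} (hN : 0 < N) (hne : S.Nonempty)
    (hc : S.card ≤ N ^ k) (h : N * FF S ≤ k * S.card) (hk : 0 < k) : S.card = N ^ k := by
  by_contra hlt
  have hlt' : S.card < N ^ k := lt_of_le_of_ne hc hlt
  have hc0 : 0 < S.card := card_pos.2 hne
  obtain ⟨ν, hν, hνk⟩ := exists_root k S.card hc0 (fun h' => by omega)
  have h1 := lw k S ν hν (by rw [hνk])
  have hνN : ν < N := by
    have : ν ^ k < (N : ℝ) ^ k := by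
      rw [hνk]
      exact_mod_cast hlt'
    exact lt_of_pow_lt_pow_left₀ k (by positivity) this
  have h2 : (N : ℝ) * FF S ≤ k * S.card := by exact_mod_cast h
  have h3 : (0 : ℝ) < k * S.card := by
    have : 0 < k * S.card := Nat.mul_pos hk hc0
    exact_mod_cast this
  have h4 : (0 : ℝ) < FF S := by
    by_contra hcon
    push Not at hcon
    nlinarith
  nlinarith

theorem ch_zero_slices {k : ℕ} {S : Finset (Fin (k + 1) → ℤ)} {C : Finset (Fin k → ℤ)}
    {X : Finset ℤ} (hS : ∀ h y, (Fin.cons h y : Fin (k + 1) → ℤ) ∈ S ↔ h ∈ X ∧ y ∈ C) :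
    (X.filter (fun x => x + 1 ∉ X)).card * C.card ≤ ch (ee 0) S := by
  rw [← card_product]
  unfold ch
  apply Finset.card_le_card_of_injOn (fun p : ℤ × (Fin k → ℤ) =>
    (Fin.cons p.1 p.2 : Fin (k + 1) → ℤ))
  · rintro ⟨h, y⟩ hp
    rw [mem_coe, mem_product, mem_filter] at hp
    rw [mem_coe, mem_filter]
    refine ⟨(hS _ _).2 ⟨hp.1.1, hp.2⟩, fun h' => ?_⟩
    have e : (Fin.cons h y : Fin (k + 1) → ℤ) + ee 0 = Fin.cons (h + 1) y := by
      funext j
      refine Fin.cases ?_ (fun j => ?_) j
      · simp [ee]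
      · simp [ee]
    rw [e, hS] at h'
    exact hp.1.2 h'.1
  · rintro ⟨h, y⟩ _ ⟨h', y'⟩ _ he
    have := Fin.cons_injective2 he
    exact Prod.ext this.1 this.2

/-- **The case of equality.** -/
theorem eq_box : ∀ (k : ℕ) (S : Finset (Fin k → ℤ)) (N : ℕ), 0 < N → S.card = N ^ k →
    N * FF S ≤ k * N ^ k → ∃ t, S = box t N := by
  intro k
  induction k with
  | zero =>
    intro S N _ hc _
    refine ⟨fun _ => 0, ?_⟩
    have h1 : S.Nonempty := by
      rw [← card_pos, hc]
      simp
    obtain ⟨x, hx⟩ := h1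
    ext y
    rw [mem_box]
    constructor
    · intro _ i
      exact i.elim0
    · intro _
      have : y = x := Subsingleton.elim _ _
      rw [this]
      exact hx
  | succ k ih =>
    intro S N hN hc hF
    have hN' : (0 : ℝ) < N := by exact_mod_cast hN
    have hne : S.Nonempty := by
      rw [← card_pos, hc]
      positivity
    have hhs : (hs S).Nonempty := by
      obtain ⟨x, hx⟩ := hne
      exact ⟨x 0, mem_image_of_mem _ hx⟩
    obtain ⟨h0, hh0, hmax⟩ := Finset.exists_max_image (hs S) (fun h => (sl S h).card) hhs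
    have hM0 : 0 < (sl S h0).card := card_pos.2 (mem_hs.1 hh0)
    -- the maximal slice has `N ^ k` points
    have hM : (sl S h0).card = N ^ k := by
      rcases Nat.eq_zero_or_pos k with rfl | hk
      · have : (sl S h0).card ≤ 1 := by
          have := Finset.card_le_univ (sl S h0)
          simpa using this
        rw [pow_zero]
        omega
      obtain ⟨μ, hμ, hμk⟩ := exists_root k (sl S h0).card hM0 (fun h' => by omega)
      have h1 : (k : ℝ) * S.card ≤ μ * ((∑ h ∈ hs S, FF (sl S h) : ℕ) : ℝ) := by
        rw [← sum_sl S]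
        push_cast
        rw [Finset.mul_sum, Finset.mul_sum]
        apply Finset.sum_le_sum
        intro h hh
        apply lw k (sl S h) μ hμ
        rw [hμk]
        exact_mod_cast hmax h hh
      have h2 : μ ^ k ≤ (ch (ee 0) S : ℝ) := by
        rw [hμk]
        exact_mod_cast le_trans (card_le_card (sl_subset S h0)) (card_tail_le S)
      have h3 : ((ch (ee 0) S : ℕ) : ℝ) + ((∑ h ∈ hs S, FF (sl S h) : ℕ) : ℝ) ≤ FF S := by
        exact_mod_cast sum_FF_sl S
      have h4 : (N : ℝ) * FF S ≤ (k + 1 : ℝ) * N ^ (k + 1) := by exact_mod_cast hF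
      have h5 : (S.card : ℝ) = (N : ℝ) ^ (k + 1) := by exact_mod_cast hc
      rw [h5] at h1
      -- Bernoulli is sharp
      have h6 : μ ^ (k + 1) + k * (N : ℝ) ^ (k + 1) ≤ (k + 1 : ℝ) * N ^ k * μ := by
        have g1 : μ * (μ ^ k) + k * (N : ℝ) ^ (k + 1) ≤ μ * FF S := by nlinarith
        have g2 : (N : ℝ) * (μ * FF S) ≤ N * ((k + 1 : ℝ) * N ^ k * μ) := by
          calc (N : ℝ) * (μ * FF S) = μ * (N * FF S) := by ring
            _ ≤ μ * ((k + 1 : ℝ) * N ^ (k + 1)) := mul_le_mul_of_nonneg_left h4 hμ.le
            _ = _ := by ring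
        have g3 := le_of_mul_le_mul_left g2 hN'
        have e : μ ^ (k + 1) = μ * μ ^ k := by ring
        rw [e]
        linarith
      have h7 : μ = N := by
        by_contra hne'
        have h8 : μ / N - 1 ≠ 0 := by
          intro h'
          apply hne'
          field_simp at h'
          linarith
        have h9 : (-1 : ℝ) ≤ μ / N - 1 := by
          have : 0 < μ / N := by positivity
          linarith
        have h10 := one_add_mul_self_lt_rpow_one_add h9 h8
          (show (1 : ℝ) < ((k + 1 : ℕ) : ℝ) by exact_mod_cast (by omega : 1 < k + 1))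
        rw [Real.rpow_natCast] at h10
        have h11 : (1 + (μ / N - 1)) ^ (k + 1) = μ ^ (k + 1) / (N : ℝ) ^ (k + 1) := by
          rw [← div_pow]
          congr 1
          ring
        rw [h11, lt_div_iff₀ (by positivity)] at h10
        have h12 : (1 + ((k + 1 : ℕ) : ℝ) * (μ / N - 1)) * (N : ℝ) ^ (k + 1) =
            (k + 1 : ℝ) * N ^ k * μ - k * N ^ (k + 1) := by
          push_cast
          field_simp
          ring
        rw [h12] at h10
        linarith
      rw [h7] at hμk
      exact_mod_cast hμk.symm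
    -- sharpness of all the inequalities
    have hle : ∀ h ∈ hs S, k * (sl S h).card ≤ N * FF (sl S h) := by
      intro h hh
      have h1 := lw k (sl S h) N hN' (by
        have h2 : (sl S h).card ≤ N ^ k := by rw [← hM]; exact hmax h hh
        exact_mod_cast h2)
      exact_mod_cast h1
    have hsum : ∑ h ∈ hs S, k * (sl S h).card = k * N ^ (k + 1) := by
      rw [← Finset.mul_sum, sum_sl, hc]
    have hsumle := Finset.sum_le_sum hle
    rw [hsum] at hsumle
    have h1 := sum_FF_sl S
    have h2 : N ^ k ≤ ch (ee 0) S := by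
      rw [← hM]
      exact le_trans (card_le_card (sl_subset S h0)) (card_tail_le S)
    have h3 : N * ch (ee 0) S + ∑ h ∈ hs S, N * FF (sl S h) ≤ (k + 1) * N ^ (k + 1) := by
      rw [← Finset.mul_sum, ← mul_add]
      exact le_trans (Nat.mul_le_mul_left _ h1) hF
    have h4 : N * N ^ k ≤ N * ch (ee 0) S := Nat.mul_le_mul_left _ h2
    have h5 : (k + 1) * N ^ (k + 1) = N * N ^ k + k * N ^ (k + 1) := by ring
    have h6 : N * ch (ee 0) S ≤ N * N ^ k := by omega
    have h7 : ch (ee 0) S ≤ N ^ k := Nat.le_of_mul_le_mul_left h6 hN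
    have h8 : ∑ h ∈ hs S, N * FF (sl S h) ≤ ∑ h ∈ hs S, k * (sl S h).card := by
      rw [hsum]
      omega
    have h9 : ∀ h ∈ hs S, N * FF (sl S h) ≤ k * (sl S h).card := by
      intro h hh
      have := (Finset.sum_eq_sum_iff_of_le hle).1 (le_antisymm (by rw [hsum]; exact hsumle) h8) h hh
      exact this.ge
    -- the common slice
    have hC : S.image Fin.tail = sl S h0 := by
      symm
      apply Finset.eq_of_subset_of_card_le (sl_subset S h0)
      rw [hM]
      exact le_trans (card_tail_le S) h7
    have hall : ∀ h ∈ hs S, sl S h = sl S h0 := by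
      intro h hh
      rw [← hC]
      apply Finset.eq_of_subset_of_card_le (sl_subset S h)
      rw [hC, hM]
      rcases Nat.eq_zero_or_pos k with hk | hk
      · have h11 : N ^ k = 1 := by rw [hk, pow_zero]
        rw [h11]
        exact card_pos.2 (mem_hs.1 hh)
      · exact (FF_nonneg' hN (mem_hs.1 hh) (by rw [← hM]; exact hmax h hh) (h9 h hh) hk).ge
    obtain ⟨t, ht⟩ := ih (sl S h0) N hN hM (by rw [← hM]; exact h9 h0 hh0)
    have hmem : ∀ h y, (Fin.cons h y : Fin (k + 1) → ℤ) ∈ S ↔ h ∈ hs S ∧ y ∈ sl S h0 := by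
      intro h y
      rw [← mem_sl]
      constructor
      · intro hy
        have hh : h ∈ hs S := mem_hs.2 ⟨y, hy⟩
        exact ⟨hh, by rw [← hall h hh]; exact hy⟩
      · rintro ⟨hh, hy⟩
        rw [hall h hh]
        exact hy
    have hch := ch_zero_slices hmem
    rw [hM] at hch
    have hpos : 0 < N ^ k := by positivity
    have h10 : ((hs S).filter (fun x => x + 1 ∉ hs S)).card ≤ 1 := by
      have : ((hs S).filter (fun x => x + 1 ∉ hs S)).card * N ^ k ≤ 1 * N ^ k := by
        rw [one_mul]
        exact le_trans hch h7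
      exact Nat.le_of_mul_le_mul_right this hpos
    have hcard : (hs S).card = N := by
      have h11 : ∑ h ∈ hs S, (sl S h).card = (hs S).card * N ^ k := by
        rw [← smul_eq_mul, ← Finset.sum_const]
        exact Finset.sum_congr rfl (fun h hh => by rw [hall h hh, hM])
      rw [sum_sl, hc, pow_succ, mul_comm] at h11
      exact (Nat.eq_of_mul_eq_mul_right hpos h11).symm
    obtain ⟨a, ha⟩ := interval hhs h10
    rw [hcard] at ha
    refine ⟨Fin.cons a t, ?_⟩
    ext x
    rw [← Fin.cons_self_tail x, hmem, ha, ht, mem_box, mem_box, Fin.forall_fin_succ, mem_Ico]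
    simp only [Fin.cons_zero, Fin.cons_succ]

end Pool.Agent.Lib.MP_602b76_co_Gen
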