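import Pool.Agent.Lib.MP_602b76_co_Gen.Shift

/-!
# Many generators: few tuples have an unbalanced short relation
-/

namespace Pool.Agent.Lib.MP_602b76_co_Gen

open Finset

/-- The vectors of sup norm `q` whose entry at `0` is `± q` and whose entry at `1` is nearly as
large. -/
noncomputable def rb (s : ℕ) (ε : ℝ) (q : ℕ) : Finset (Fin (s + 2) → ℤ) :=
  Fintype.piFinset (fun m => if m = 0 then {(q : ℤ), -(q : ℤ)} else if m = 1 then
    (Finset.Icc (-(q : ℤ)) q).filter (fun x : ℤ => (1 - ε) * q < |(x : ℝ)|) else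
      Finset.Icc (-(q : ℤ)) q)

theorem card_near_top {ε : ℝ} (hε0 : 0 < ε) (q : ℕ) :
    (((Finset.Icc (-(q : ℤ)) q).filter (fun x : ℤ => (1 - ε) * q < |(x : ℝ)|)).card : ℝ) ≤
      2 * (ε * q + 1) := by
  obtain ⟨a, ha⟩ : ∃ a : ℤ, a = ⌈(1 - ε) * q⌉ := ⟨_, rfl⟩
  have hq0 : (0 : ℝ) ≤ q := by positivity
  have haq : a ≤ q := by
    rw [ha, Int.ceil_le]
    push_cast
    nlinarith
  have ha1 : (1 - ε) * q ≤ a := by rw [ha]; exact Int.le_ceil _
  have hsub : (Finset.Icc (-(q : ℤ)) q).filter (fun x : ℤ => (1 - ε) * q < |(x : ℝ)|) ⊆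
      Finset.Icc a q ∪ Finset.Icc (-(q : ℤ)) (-a) := by
    intro x hx
    rw [mem_filter, mem_Icc] at hx
    rw [mem_union, mem_Icc, mem_Icc]
    rcases abs_choice (x : ℝ) with h | h
    · left
      refine ⟨?_, hx.1.2⟩
      rw [ha, Int.ceil_le]
      have := hx.2
      rw [h] at this
      exact this.le
    · right
      refine ⟨hx.1.1, ?_⟩
      have h1 : a ≤ -x := by
        rw [ha, Int.ceil_le]
        have := hx.2
        rw [h] at this
        push_cast
        exact this.le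
      omega
  have h1 := le_trans (card_le_card hsub) (card_union_le _ _)
  rw [Int.card_Icc, Int.card_Icc] at h1
  have h2 : (((q : ℤ) + 1 - a).toNat : ℝ) ≤ ε * q + 1 := by
    have h3 : ((((q : ℤ) + 1 - a).toNat : ℤ) : ℝ) = ((q : ℤ) + 1 - a : ℤ) := by
      rw [Int.toNat_of_nonneg (by omega)]
    rw [Int.cast_natCast] at h3
    rw [h3]
    push_cast
    linarith
  have h4 : ((-a + 1 - -(q : ℤ)).toNat : ℝ) ≤ ε * q + 1 := by
    have h5 : -a + 1 - -(q : ℤ) = (q : ℤ) + 1 - a := by ring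
    rw [h5]
    exact h2
  have h6 : (((Finset.Icc (-(q : ℤ)) q).filter (fun x : ℤ => (1 - ε) * q < |(x : ℝ)|)).card : ℝ) ≤
      (((q : ℤ) + 1 - a).toNat : ℝ) + ((-a + 1 - -(q : ℤ)).toNat : ℝ) := by
    exact_mod_cast h1
  linarith

theorem card_rb {s : ℕ} {ε : ℝ} (hε0 : 0 < ε) {q : ℕ} (hq : 0 < q) :
    ((rb s ε q).card : ℝ) ≤ 4 * 3 ^ s * ((ε * q + 1) * (q : ℝ) ^ s) := by
  have h1 : (rb s ε q).card = ({(q : ℤ), -(q : ℤ)} : Finset ℤ).card *
      (((Finset.Icc (-(q : ℤ)) q).filter (fun x : ℤ => (1 - ε) * q < |(x : ℝ)|)).card *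
        (2 * q + 1) ^ s) := by
    unfold rb
    rw [Fintype.card_piFinset, Fin.prod_univ_succ, Fin.prod_univ_succ]
    rw [if_pos rfl]
    have e1 : (Fin.succ (0 : Fin (s + 1)) : Fin (s + 2)) ≠ 0 := Fin.succ_ne_zero _
    rw [if_neg e1, if_pos (by rfl)]
    congr 1
    congr 1
    calc ∏ m : Fin s, (if (m.succ.succ : Fin (s + 2)) = 0 then ({(q : ℤ), -(q : ℤ)} : Finset ℤ)
          else if (m.succ.succ : Fin (s + 2)) = 1 then
            (Finset.Icc (-(q : ℤ)) q).filter (fun x : ℤ => (1 - ε) * q < |(x : ℝ)|) else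
              Finset.Icc (-(q : ℤ)) q).card = ∏ _m : Fin s, (2 * q + 1) := by
          apply Finset.prod_congr rfl
          intro m _
          rw [if_neg (Fin.succ_ne_zero _), if_neg (by
            intro h
            have := congrArg Fin.val h
            simp at this), Int.card_Icc]
          omega
      _ = (2 * q + 1) ^ s := by rw [Finset.prod_const, card_univ, Fintype.card_fin]
  rw [h1]
  push_cast
  have h2 : (({(q : ℤ), -(q : ℤ)} : Finset ℤ).card : ℝ) ≤ 2 := by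
    exact_mod_cast Finset.card_le_two
  have h3 := card_near_top hε0 q
  have hqR : (1 : ℝ) ≤ q := by exact_mod_cast hq
  have h4 : (2 * (q : ℝ) + 1) ^ s ≤ (3 * q) ^ s := by
    apply pow_le_pow_left₀ (by positivity)
    linarith
  calc (({(q : ℤ), -(q : ℤ)} : Finset ℤ).card : ℝ) *
      ((((Finset.Icc (-(q : ℤ)) q).filter (fun x : ℤ => (1 - ε) * q < |(x : ℝ)|)).card : ℝ) *
        (2 * q + 1) ^ s) ≤ 2 * ((2 * (ε * q + 1)) * (3 * q) ^ s) := by
        apply mul_le_mul h2 _ (by positivity) (by norm_num)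
        exact mul_le_mul h3 h4 (by positivity) (by positivity)
    _ = _ := by rw [mul_pow]; ring

/-- An unbalanced relation between `c` and `u`. -/
def Unb {d e s : ℕ} (ε : ℝ) (R : ℕ) (c : Fin e → Fin d → ℤ) (u : Fin (s + 2) → Fin d → ℤ) :
    Prop :=
  ∃ (t : Fin e → ℤ) (l : Fin (s + 2) → ℤ), ∑ m, t m • c m + ∑ m, l m • u m = 0 ∧ l 0 ≠ 0 ∧
    (∀ m, |l m| ≤ |l 0|) ∧ |l 0| ≤ R ∧ (1 - ε) * |(l 0 : ℝ)| < |(l 1 : ℝ)|

theorem Unb.primitive {d e s R : ℕ} {ε : ℝ} {c : Fin e → Fin d → ℤ}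
    {u : Fin (s + 2) → Fin d → ℤ} (h : Unb ε R c u) {p : Fin d → ℤ}
    (h0 : ∀ m, dt p (c m) = 0) :
    ∃ q ∈ Finset.Icc 1 R, ∃ l ∈ rb s ε q, (∃ w : Fin (s + 2) → ℤ, ∑ j, w j * l j = 1) ∧
      ∑ m, l m * dt p (u m) = 0 := by
  obtain ⟨t, l, h1, h2, h3, h4, h5⟩ := h
  have hl : l ≠ 0 := fun h' => h2 (by rw [h']; rfl)
  obtain ⟨g, l', w, hg, hlg, hw⟩ := exists_primitive hl
  have hlg' : ∀ m, l m = g * l' m := fun m => by rw [hlg, Pi.smul_apply, smul_eq_mul]
  have hgpos : 0 < |g| := abs_pos.2 hg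
  have hl'0 : l' 0 ≠ 0 := by
    intro h'
    apply h2
    rw [hlg' 0, h', mul_zero]
  have hq : (((l' 0).natAbs : ℕ) : ℤ) = |l' 0| := Int.natCast_natAbs _
  have hle : ∀ m, |l' m| ≤ |l' 0| := by
    intro m
    have := h3 m
    rw [hlg' m, hlg' 0, abs_mul, abs_mul] at this
    exact le_of_mul_le_mul_left this hgpos
  have hR : |l' 0| ≤ R := by
    rw [hlg' 0, abs_mul] at h4
    have h6 := abs_nonneg (l' 0)
    nlinarith
  refine ⟨(l' 0).natAbs, ?_, l', ?_, ⟨w, hw⟩, ?_⟩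
  · rw [mem_Icc]
    have := abs_pos.2 hl'0
    constructor
    · omega
    · omega
  · unfold rb
    rw [Fintype.mem_piFinset]
    intro m
    have hm := hle m
    rw [← hq, abs_le] at hm
    split_ifs with hm0 hm1
    · rw [hm0, mem_insert, mem_singleton, hq]
      rcases abs_choice (l' 0) with h' | h'
      · left
        exact h'.symm
      · right
        rw [h', neg_neg]
    · rw [mem_filter, mem_Icc]
      refine ⟨hm, ?_⟩
      rw [hm1]
      rw [hlg' 0, hlg' 1] at h5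
      push_cast at h5
      rw [abs_mul, abs_mul] at h5
      have hgR : (0 : ℝ) < |(g : ℝ)| := by
        rw [abs_pos]
        exact_mod_cast hg
      have h6 : (((l' 0).natAbs : ℕ) : ℝ) = |(l' 0 : ℝ)| := by
        have : ((((l' 0).natAbs : ℕ) : ℤ) : ℝ) = ((|l' 0| : ℤ) : ℝ) := by rw [hq]
        rw [Int.cast_natCast, Int.cast_abs] at this
        exact this
      rw [h6]
      have h7 : |(g : ℝ)| * ((1 - ε) * |(l' 0 : ℝ)|) < |(g : ℝ)| * |(l' 1 : ℝ)| := by
        calc |(g : ℝ)| * ((1 - ε) * |(l' 0 : ℝ)|) = (1 - ε) * (|(g : ℝ)| * |(l' 0 : ℝ)|) := by ring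
          _ < _ := h5
      exact lt_of_mul_lt_mul_left h7 hgR.le
    · rw [mem_Icc]
      exact hm
  · have h6 := congrArg (dt p) h1
    rw [dt_add, dt_sum, dt_sum] at h6
    have h7 : ∑ m, dt p (t m • c m) = 0 := by
      apply Finset.sum_eq_zero
      intro m _
      rw [dt_smul, h0, mul_zero]
    rw [h7, zero_add] at h6
    have h8 : g * ∑ m, l' m * dt p (u m) = 0 := by
      rw [Finset.mul_sum]
      have h9 : dt p (0 : Fin d → ℤ) = 0 := by simp [dt]
      rw [h9] at h6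
      rw [← h6]
      apply Finset.sum_congr rfl
      intro m _
      rw [dt_smul, hlg' m]
      ring
    exact (mul_eq_zero.1 h8).resolve_left hg

open Classical in
/-- **Few unbalanced relations over given independent columns.** -/
theorem few_unb {d e N N' s R : ℕ} (hd : e + 1 = d) (hNN : N ≤ N') {c : Fin e → Fin d → ℤ}
    (hc : LinearIndependent ℚ (cq c)) (hcN : ∀ m j, |c m j| ≤ N) {p s' : Fin d → ℤ}
    (h0 : ∀ m, dt p (c m) = 0) (hs : ∑ j, s' j * p j = 1) {H : ℕ} {j0 : Fin d}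
    (hj0 : |p j0| = H) (hH : 0 < H) (hR : R ≤ N' * H + 1) {ε : ℝ} (hε0 : 0 < ε) (hε1 : ε ≤ 1)
    {L1 : ℕ} (hL1 : 1 ≤ ε * L1) :
    (((tup d (s + 2) N).filter (fun u => Unb ε R c u)).card : ℝ) * (N' * H + 1 : ℕ) ≤
      ((2 * (N + d * N') + 1) ^ (d * (s + 2)) : ℕ) *
        (8 * 3 ^ s * (ε * (R : ℝ) ^ (s + 1) + (L1 : ℝ) ^ (s + 1))) := by
  obtain ⟨X, hX⟩ : ∃ X, X = (2 * (N + d * N') + 1) ^ (d * (s + 2)) := ⟨_, rfl⟩
  obtain ⟨Q, hQ⟩ : ∃ Q, Q = N' * H := ⟨_, rfl⟩
  have hspread : ∀ a : ℤ, |a| ≤ Q → ∃ w : Fin d → ℤ, (∀ j, |w j| ≤ ((d * N' : ℕ) : ℤ)) ∧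
      dt p w = a := by
    intro a ha
    rw [hQ] at ha
    obtain ⟨w, hw1, hw2⟩ := spread hd hNN hc hcN h0 hs hj0 hH a (by push_cast at ha; exact ha)
    exact ⟨w, fun j => by push_cast; exact hw1 j, hw2⟩
  obtain ⟨G, hG⟩ : ∃ G : ℕ → Finset (Fin (s + 2) → ℤ), ∀ q, G q =
      (rb s ε q).filter (fun l => ∃ w : Fin (s + 2) → ℤ, ∑ j, w j * l j = 1) :=
    ⟨_, fun _ => rfl⟩
  have hcover : (tup d (s + 2) N).filter (fun u => Unb ε R c u) ⊆
      (Finset.Icc 1 R).biUnion (fun q => (G q).biUnion (fun l =>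
        (tup d (s + 2) N).filter (fun u => ∑ m, l m * dt p (u m) = 0))) := by
    intro u hu
    rw [mem_filter] at hu
    obtain ⟨q, hq, l, hl, hw, h1⟩ := hu.2.primitive h0
    rw [mem_biUnion]
    refine ⟨q, hq, ?_⟩
    rw [mem_biUnion]
    refine ⟨l, ?_, ?_⟩
    · rw [hG, mem_filter]
      exact ⟨hl, hw⟩
    · rw [mem_filter]
      exact ⟨hu.1, h1⟩
  have h1 : ((tup d (s + 2) N).filter (fun u => Unb ε R c u)).card ≤
      ∑ q ∈ Finset.Icc 1 R, ∑ l ∈ G q,
        ((tup d (s + 2) N).filter (fun u => ∑ m, l m * dt p (u m) = 0)).card :=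
    le_trans (card_le_card hcover) (le_trans card_biUnion_le
      (Finset.sum_le_sum (fun q _ => card_biUnion_le)))
  -- each level
  have h2 : ∀ q ∈ Finset.Icc 1 R, ((∑ l ∈ G q,
      ((tup d (s + 2) N).filter (fun u => ∑ m, l m * dt p (u m) = 0)).card : ℕ) : ℝ) *
        (Q + 1 : ℕ) ≤ X * (8 * 3 ^ s * (ε * (R : ℝ) ^ s + (if q < L1 then (L1 : ℝ) ^ s else 0))) := by
    intro q hq
    rw [mem_Icc] at hq
    have hq0 : 0 < q := by omega
    have hqR : (1 : ℝ) ≤ q := by exact_mod_cast hq.1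
    have hqR' : (q : ℝ) ≤ R := by exact_mod_cast hq.2
    have h3 : ∀ l ∈ G q, ((tup d (s + 2) N).filter
        (fun u => ∑ m, l m * dt p (u m) = 0)).card * (q * (Q + 1)) ≤ X := by
      intro l hl
      rw [hG, mem_filter] at hl
      obtain ⟨w, hw⟩ := hl.2
      have hl0 := (Fintype.mem_piFinset.1 hl.1) 0
      rw [if_pos rfl, mem_insert, mem_singleton] at hl0
      rw [hX]
      apply shift_card hspread hw (i := 0) hq0 _ (by omega)
      rcases hl0 with h | h
      · rw [h]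
        exact abs_of_nonneg (by positivity)
      · rw [h, abs_neg]
        exact abs_of_nonneg (by positivity)
    have h4 : (∑ l ∈ G q, ((tup d (s + 2) N).filter
        (fun u => ∑ m, l m * dt p (u m) = 0)).card) * (q * (Q + 1)) ≤ (rb s ε q).card * X := by
      rw [Finset.sum_mul]
      refine le_trans (Finset.sum_le_sum h3) ?_
      rw [Finset.sum_const, smul_eq_mul]
      apply Nat.mul_le_mul_right
      rw [hG]
      exact card_filter_le _ _
    obtain ⟨Sg, hSg⟩ : ∃ Sg : ℕ, Sg = ∑ l ∈ G q, ((tup d (s + 2) N).filter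
        (fun u => ∑ m, l m * dt p (u m) = 0)).card := ⟨_, rfl⟩
    rw [← hSg] at h4 ⊢
    have h5 : (Sg : ℝ) * (q * (Q + 1 : ℕ)) ≤ ((rb s ε q).card : ℝ) * X := by exact_mod_cast h4
    have h6 := card_rb (s := s) hε0 hq0
    -- divide by `q`
    have h7 : (q : ℝ) * ((Sg : ℝ) * (Q + 1 : ℕ)) ≤
        q * (X * (8 * 3 ^ s * (ε * (R : ℝ) ^ s + (if q < L1 then (L1 : ℝ) ^ s else 0)))) := by
      have hX0 : (0 : ℝ) ≤ X := by positivity
      have h8 : (ε * q + 1) * (q : ℝ) ^ s ≤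
          2 * (q * (ε * (R : ℝ) ^ s + (if q < L1 then (L1 : ℝ) ^ s else 0))) := by
        split_ifs with hlt
        · have g1 : (q : ℝ) ^ s ≤ (L1 : ℝ) ^ s :=
            pow_le_pow_left₀ (by positivity) (by exact_mod_cast hlt.le) s
          have g2 : ε * q + 1 ≤ 2 * q := by nlinarith
          have g3 : 0 ≤ q * (ε * (R : ℝ) ^ s) := by positivity
          calc (ε * q + 1) * (q : ℝ) ^ s ≤ (2 * q) * (L1 : ℝ) ^ s :=
                mul_le_mul g2 g1 (by positivity) (by positivity)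
            _ ≤ 2 * (q * (ε * (R : ℝ) ^ s + (L1 : ℝ) ^ s)) := by nlinarith
        · push Not at hlt
          have g1 : (q : ℝ) ^ s ≤ (R : ℝ) ^ s := pow_le_pow_left₀ (by positivity) hqR' s
          have g2 : (L1 : ℝ) ≤ q := by exact_mod_cast hlt
          have g3 : ε * q + 1 ≤ 2 * (ε * q) := by nlinarith
          calc (ε * q + 1) * (q : ℝ) ^ s ≤ (2 * (ε * q)) * (R : ℝ) ^ s :=
                mul_le_mul g3 g1 (by positivity) (by positivity)
            _ = _ := by ring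
      calc (q : ℝ) * ((Sg : ℝ) * (Q + 1 : ℕ)) = (Sg : ℝ) * (q * (Q + 1 : ℕ)) := by ring
        _ ≤ ((rb s ε q).card : ℝ) * X := h5
        _ ≤ (4 * 3 ^ s * ((ε * q + 1) * (q : ℝ) ^ s)) * X := mul_le_mul_of_nonneg_right h6 hX0
        _ ≤ (4 * 3 ^ s * (2 * (q * (ε * (R : ℝ) ^ s +
            (if q < L1 then (L1 : ℝ) ^ s else 0))))) * X := by
            apply mul_le_mul_of_nonneg_right _ hX0
            exact mul_le_mul_of_nonneg_left h8 (by positivity)
        _ = _ := by ring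
    exact le_of_mul_le_mul_left h7 (by linarith)
  rw [← hX, ← hQ]
  calc (((tup d (s + 2) N).filter (fun u => Unb ε R c u)).card : ℝ) * (Q + 1 : ℕ)
      ≤ ((∑ q ∈ Finset.Icc 1 R, ∑ l ∈ G q,
        ((tup d (s + 2) N).filter (fun u => ∑ m, l m * dt p (u m) = 0)).card : ℕ) : ℝ) *
          (Q + 1 : ℕ) := by
        apply mul_le_mul_of_nonneg_right _ (by positivity)
        exact_mod_cast h1
    _ = ∑ q ∈ Finset.Icc 1 R, ((∑ l ∈ G q,
      ((tup d (s + 2) N).filter (fun u => ∑ m, l m * dt p (u m) = 0)).card : ℕ) : ℝ) *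
        (Q + 1 : ℕ) := by
        rw [Nat.cast_sum, Finset.sum_mul]
    _ ≤ ∑ q ∈ Finset.Icc 1 R,
        X * (8 * 3 ^ s * (ε * (R : ℝ) ^ s + (if q < L1 then (L1 : ℝ) ^ s else 0))) :=
        Finset.sum_le_sum h2
    _ = X * (8 * 3 ^ s * (∑ q ∈ Finset.Icc 1 R, ε * (R : ℝ) ^ s +
        ∑ q ∈ Finset.Icc 1 R, (if q < L1 then (L1 : ℝ) ^ s else 0))) := by
        rw [← Finset.mul_sum, ← Finset.mul_sum, Finset.sum_add_distrib]
    _ ≤ X * (8 * 3 ^ s * (ε * (R : ℝ) ^ (s + 1) + (L1 : ℝ) ^ (s + 1))) := by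
        apply mul_le_mul_of_nonneg_left _ (by positivity)
        apply mul_le_mul_of_nonneg_left _ (by positivity)
        apply add_le_add
        · rw [Finset.sum_const, Nat.card_Icc, nsmul_eq_mul, Nat.add_sub_cancel]
          apply le_of_eq
          ring
        · rw [← Finset.sum_filter, Finset.sum_const, nsmul_eq_mul]
          have g1 : ((Finset.Icc 1 R).filter (fun q => q < L1)).card ≤ L1 := by
            calc ((Finset.Icc 1 R).filter (fun q => q < L1)).card ≤ (range L1).card := by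
                  apply card_le_card
                  intro q hq
                  rw [mem_filter] at hq
                  exact mem_range.2 hq.2
              _ = L1 := card_range L1
          calc (((Finset.Icc 1 R).filter (fun q => q < L1)).card : ℝ) * (L1 : ℝ) ^ s ≤
                (L1 : ℝ) * (L1 : ℝ) ^ s := by
                apply mul_le_mul_of_nonneg_right _ (by positivity)
                exact_mod_cast g1
            _ = (L1 : ℝ) ^ (s + 1) := by ring

end Pool.Agent.Lib.MP_602b76_co_Gen
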