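import Pool.Agent.Lib.MP_602b76_co_Gen.Kill

/-!
# Generating tuples: large primes
-/

namespace Pool.Agent.Lib.MP_602b76_co_Gen

open Finset Matrix

/-! ## Gram determinants -/

/-- The Gram determinant. -/
noncomputable def gram {ι : Type*} [Fintype ι] [DecidableEq ι] {d : ℕ} (v : ι → Fin d → ℤ) : ℤ :=
  (Matrix.of v * (Matrix.of v)ᵀ).det

theorem gram_map {ι : Type*} [Fintype ι] [DecidableEq ι] {d : ℕ} {K : Type*} [CommRing K]
    (v : ι → Fin d → ℤ) : ((gram v : ℤ) : K) =
      ((Matrix.of (fun i m => (v i m : K)) : Matrix ι (Fin d) K) *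
        (Matrix.of (fun i m => (v i m : K)) : Matrix ι (Fin d) K)ᵀ).det := by
  unfold gram
  have h1 := RingHom.map_det (Int.castRingHom K) (Matrix.of v * (Matrix.of v)ᵀ)
  rw [eq_intCast] at h1
  rw [h1, RingHom.mapMatrix_apply, Matrix.map_mul]
  rfl

theorem gram_ne {ι : Type*} [Fintype ι] [DecidableEq ι] {d : ℕ} {v : ι → Fin d → ℤ}
    (h : LinearIndependent ℚ (fun i => (fun m => (v i m : ℚ) : Fin d → ℚ))) : gram v ≠ 0 := by
  intro h0
  have h1 := gram_map (K := ℚ) v
  rw [h0, Int.cast_zero] at h1
  obtain ⟨A, hA⟩ : ∃ A : Matrix ι (Fin d) ℚ, A = Matrix.of (fun i m => (v i m : ℚ)) := ⟨_, rfl⟩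
  rw [← hA] at h1
  obtain ⟨w, hw0, hw⟩ := Matrix.exists_vecMul_eq_zero_iff.2 h1.symm
  have h2 : (w ᵥ* A) ⬝ᵥ (w ᵥ* A) = 0 := by
    calc (w ᵥ* A) ⬝ᵥ (w ᵥ* A) = (w ᵥ* A) ⬝ᵥ (Aᵀ *ᵥ w) := by rw [Matrix.mulVec_transpose]
      _ = ((w ᵥ* A) ᵥ* Aᵀ) ⬝ᵥ w := Matrix.dotProduct_mulVec _ _ _
      _ = 0 := by rw [Matrix.vecMul_vecMul, hw, zero_dotProduct]
  have h3 : w ᵥ* A = 0 := dotProduct_self_eq_zero.1 h2
  have h4 : ∑ i, w i • (fun m => (v i m : ℚ) : Fin d → ℚ) = 0 := by
    funext m
    have h5 := congrFun h3 m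
    rw [hA] at h5
    simp only [Matrix.vecMul, dotProduct, Matrix.of_apply, Pi.zero_apply] at h5
    rw [Finset.sum_apply, Pi.zero_apply]
    simpa only [Pi.smul_apply, smul_eq_mul] using h5
  exact hw0 (funext (Fintype.linearIndependent_iff.1 h w h4))

theorem gram_dvd {ι : Type*} [Fintype ι] [DecidableEq ι] {d p : ℕ} (hp : p.Prime)
    {v : ι → Fin d → ℤ}
    (h : ¬ LinearIndependent (ZMod p) (fun i => (fun m => (v i m : ZMod p) : Fin d → ZMod p))) :
    (p : ℤ) ∣ gram v := by
  have : Fact p.Prime := ⟨hp⟩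
  obtain ⟨w, hw, i, hi⟩ := Fintype.not_linearIndependent_iff.1 h
  rw [← CharP.intCast_eq_zero_iff (ZMod p) p, gram_map]
  obtain ⟨A, hA⟩ : ∃ A : Matrix ι (Fin d) (ZMod p), A = Matrix.of (fun i m => (v i m : ZMod p)) :=
    ⟨_, rfl⟩
  rw [← hA]
  apply Matrix.exists_vecMul_eq_zero_iff.1
  refine ⟨w, fun h0 => hi (by rw [h0]; rfl), ?_⟩
  have h3 : w ᵥ* A = 0 := by
    funext m
    have h5 := congrFun hw m
    rw [Finset.sum_apply] at h5
    rw [hA]
    simp only [Matrix.vecMul, dotProduct, Matrix.of_apply]
    simpa only [Pi.smul_apply, smul_eq_mul] using h5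
  rw [← Matrix.vecMul_vecMul, h3, zero_vecMul]

theorem gram_le {ι : Type*} [Fintype ι] [DecidableEq ι] {d N : ℕ} {v : ι → Fin d → ℤ}
    (h : ∀ i m, |v i m| ≤ N) :
    |gram v| ≤ (Fintype.card ι).factorial * ((d : ℤ) * N ^ 2) ^ (Fintype.card ι) := by
  unfold gram
  have h1 := Matrix.det_le (A := Matrix.of v * (Matrix.of v)ᵀ) (abv := AbsoluteValue.abs)
    (x := (d : ℤ) * N ^ 2) (by
      intro i j
      rw [AbsoluteValue.abs_apply, Matrix.mul_apply]
      refine le_trans (Finset.abs_sum_le_sum_abs _ _) ?_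
      calc ∑ m, |Matrix.of v i m * (Matrix.of v)ᵀ m j| ≤ ∑ _m : Fin d, ((N : ℤ) ^ 2) := by
            apply Finset.sum_le_sum
            intro m _
            rw [abs_mul, sq]
            exact mul_le_mul (h i m) (h j m) (abs_nonneg _) (by positivity)
        _ = (d : ℤ) * N ^ 2 := by
          rw [Finset.sum_const, card_univ, Fintype.card_fin, nsmul_eq_mul])
  rw [AbsoluteValue.abs_apply, nsmul_eq_mul] at h1
  exact h1

theorem primes_card {m : ℤ} {M c : ℕ} (hM : 1 < M) (hm : m.natAbs < M ^ (c + 1)) :
    ((m.natAbs.primeFactors).filter (fun p => M < p)).card ≤ c := by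
  rcases eq_or_ne m 0 with rfl | h0
  · simp
  obtain ⟨T, hT⟩ : ∃ T, T = (m.natAbs.primeFactors).filter (fun p => M < p) := ⟨_, rfl⟩
  rw [← hT]
  have h1 : ∏ p ∈ T, p ∣ m.natAbs := by
    refine dvd_trans (Finset.prod_dvd_prod_of_subset _ _ _ ?_)
      (Nat.prod_primeFactors_dvd m.natAbs)
    rw [hT]
    exact filter_subset _ _
  have h2 : M ^ T.card ≤ ∏ p ∈ T, p := by
    rw [← Finset.prod_const]
    apply Finset.prod_le_prod'
    intro p hp
    rw [hT, mem_filter] at hp
    exact hp.2.le
  have h3 : M ^ T.card < M ^ (c + 1) :=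
    lt_of_le_of_lt (le_trans h2 (Nat.le_of_dvd (Int.natAbs_pos.2 h0) h1)) hm
  have := (Nat.pow_lt_pow_iff_right hM).1 h3
  omega

/-! ## Vectors in a proper span modulo a large prime -/

open Classical in
theorem span_card {d N p : ℕ} (hp : p.Prime) (hM : 2 * N + 1 < p) {ι : Type*} [Fintype ι]
    (hι : Fintype.card ι ≤ d) {w : ι → Fin d → ZMod p}
    (hw : ¬ LinearIndependent (ZMod p) w) :
    ((Fintype.piFinset (fun _ : Fin d => Finset.Icc (-(N : ℤ)) N)).filter
      (fun x => (fun m => (x m : ZMod p)) ∈ Submodule.span (ZMod p) (Set.range w))).card ≤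
        (2 * N + 1) ^ (d - 1) := by
  have : Fact p.Prime := ⟨hp⟩
  have hlt : Submodule.span (ZMod p) (Set.range w) < ⊤ := by
    rw [lt_top_iff_ne_top]
    intro htop
    apply hw
    rw [linearIndependent_iff_card_le_finrank_span, Set.finrank, htop, finrank_top,
      Module.finrank_fintype_fun_eq_card, Fintype.card_fin]
    exact hι
  obtain ⟨f, hf, hle⟩ := Submodule.exists_le_ker_of_lt_top _ hlt
  have hfx : ∀ x : Fin d → ZMod p, f x = ∑ j, f (Pi.single j 1) * x j := by
    intro x
    have h1 : x = ∑ j, x j • (Pi.single j 1 : Fin d → ZMod p) := by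
      funext m
      rw [Finset.sum_apply, Finset.sum_eq_single m]
      · simp
      · intro j _ hj
        simp [hj.symm]
      · intro h
        exact absurd (mem_univ m) h
    conv_lhs => rw [h1]
    rw [map_sum]
    apply Finset.sum_congr rfl
    intro j _
    rw [map_smul, smul_eq_mul, mul_comm]
  have ha : (fun j => f (Pi.single j 1) : Fin d → ZMod p) ≠ 0 := by
    intro h0
    apply hf
    apply LinearMap.ext
    intro x
    rw [hfx, LinearMap.zero_apply]
    apply Finset.sum_eq_zero
    intro j _
    have := congrFun h0 j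
    simp only [Pi.zero_apply] at this
    rw [this, zero_mul]
  have h1 := hyp_card (N := N) hp ha
  have h2 : 2 * N / p = 0 := Nat.div_eq_of_lt (by omega)
  rw [h2, zero_add, mul_one] at h1
  refine le_trans (card_le_card ?_) h1
  intro x hx
  rw [mem_filter, Fintype.mem_piFinset] at hx
  rw [mem_hyp]
  refine ⟨fun j => mem_Icc.1 (hx.1 j), ?_⟩
  rw [← hfx (fun m => (x m : ZMod p))]
  exact LinearMap.mem_ker.1 (hle hx.2)

/-! ## Two drops of the rank modulo a large prime -/

/-- The vectors modulo `p`. -/
def zp {d k : ℕ} (p : ℕ) (u : Fin k → Fin d → ℤ) : Fin k → Fin d → ZMod p :=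
  fun i m => (u i m : ZMod p)

/-- The vectors before `j` are independent over the rationals but not modulo some prime `p > M`,
and the vector at `j` is in their span modulo `p`. -/
def Drop {d k : ℕ} (M : ℕ) (u : Fin k → Fin d → ℤ) (j : Fin k) : Prop :=
  LinearIndependent ℚ (fun i : {i : Fin k // i < j} => cq u i) ∧ ∃ p, p.Prime ∧ M < p ∧
    ¬ LinearIndependent (ZMod p) (fun i : {i : Fin k // i < j} => zp p u i) ∧
    zp p u j ∈ Submodule.span (ZMod p) (Set.range (fun i : {i : Fin k // i < j} => zp p u i))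

theorem card_below {k : ℕ} (j : Fin k) : Fintype.card {i : Fin k // i < j} = j.val := by
  rw [Fintype.card_subtype]
  have : (Finset.univ.filter (fun i : Fin k => i < j)) = Finset.Iio j := by
    ext i
    simp
  rw [this, Fin.card_Iio]

open Classical in
theorem drop_card {d k N : ℕ} (hN : 0 < N) (hM : d.factorial * d ^ d ≤ 2 * N + 1) (hd : 0 < d)
    {j : Fin k} (hj : j.val ≤ d) :
    ((tup d k N).filter (fun u => Drop (2 * N + 1) u j)).card ≤
      (2 * d * (2 * N + 1) ^ (d - 1)) * (2 * N + 1) ^ (d * (k - 1)) := by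
  obtain ⟨V, hV⟩ : ∃ V : Finset (Fin d → ℤ),
      V = Fintype.piFinset (fun _ => Finset.Icc (-(N : ℤ)) N) := ⟨_, rfl⟩
  have hVc : V.card = (2 * N + 1) ^ d := by
    rw [hV, Fintype.card_piFinset]
    simp only [Int.card_Icc, Finset.prod_const, card_univ, Fintype.card_fin]
    congr 1
    omega
  have hcod : (Fintype.piFinset (fun i : Fin k => if i = j then ({0} : Finset (Fin d → ℤ)) else
      V)).card = (2 * N + 1) ^ (d * (k - 1)) := by
    rw [Fintype.card_piFinset, ← Finset.mul_prod_erase _ _ (mem_univ j)]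
    simp only [if_true, card_singleton, one_mul]
    calc ∏ i ∈ (Finset.univ : Finset (Fin k)).erase j,
          (if i = j then ({0} : Finset (Fin d → ℤ)) else V).card
        = ∏ _i ∈ (Finset.univ : Finset (Fin k)).erase j, (2 * N + 1) ^ d := by
          apply Finset.prod_congr rfl
          intro i hi
          rw [if_neg (Finset.ne_of_mem_erase hi), hVc]
      _ = (2 * N + 1) ^ (d * (k - 1)) := by
        rw [Finset.prod_const, Finset.card_erase_of_mem (mem_univ j), card_univ, Fintype.card_fin,
          ← pow_mul]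
  rw [← hcod]
  apply Finset.card_le_mul_card_image_of_maps_to (f := fun u => Function.update u j 0)
  · intro u hu
    rw [mem_filter, mem_tup] at hu
    rw [Fintype.mem_piFinset]
    intro i
    rcases eq_or_ne i j with rfl | hi
    · simp
    · rw [if_neg hi, Function.update_of_ne hi, hV, Fintype.mem_piFinset]
      exact fun m => mem_Icc.2 (hu.1 i m)
  · intro v hv
    rw [Fintype.mem_piFinset] at hv
    have hv1 : ∀ i, i < j → ∀ m, |v i m| ≤ N := by
      intro i hi m
      have h1 := hv i
      rw [if_neg hi.ne, hV, Fintype.mem_piFinset] at h1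
      exact abs_le.2 (mem_Icc.1 (h1 m))
    obtain ⟨g, hg⟩ : ∃ g, g = gram (fun i : {i : Fin k // i < j} => v i) := ⟨_, rfl⟩
    obtain ⟨T, hT⟩ : ∃ T, T = (g.natAbs.primeFactors).filter (fun p => 2 * N + 1 < p) := ⟨_, rfl⟩
    have hTc : T.card ≤ 2 * d := by
      rw [hT]
      apply primes_card (by omega)
      have h1 : |g| ≤ (j.val).factorial * ((d : ℤ) * N ^ 2) ^ j.val := by
        rw [hg]
        have := gram_le (N := N) (v := fun i : {i : Fin k // i < j} => v i)
          (fun i m => hv1 i.1 i.2 m)
        rw [card_below] at this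
        exact this
      have h2 : g.natAbs ≤ (j.val).factorial * (d * N ^ 2) ^ j.val := by
        have h3 : ((g.natAbs : ℕ) : ℤ) = |g| := Int.natCast_natAbs g
        have h4 : ((g.natAbs : ℕ) : ℤ) ≤ (((j.val).factorial * (d * N ^ 2) ^ j.val : ℕ) : ℤ) := by
          rw [h3]
          push_cast
          exact h1
        exact_mod_cast h4
      calc g.natAbs ≤ (j.val).factorial * (d * N ^ 2) ^ j.val := h2
        _ ≤ d.factorial * (d * N ^ 2) ^ d := by
          apply Nat.mul_le_mul (Nat.factorial_le hj)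
          apply Nat.pow_le_pow_right _ hj
          positivity
        _ = (d.factorial * d ^ d) * N ^ (2 * d) := by rw [mul_pow, ← pow_mul]; ring
        _ ≤ (2 * N + 1) * N ^ (2 * d) := Nat.mul_le_mul_right _ hM
        _ < (2 * N + 1) * (2 * N + 1) ^ (2 * d) := by
          apply Nat.mul_lt_mul_of_pos_left _ (by omega)
          exact Nat.pow_lt_pow_left (by omega) (by omega)
        _ = (2 * N + 1) ^ (2 * d + 1) := by ring
    obtain ⟨Z, hZ⟩ : ∃ Z : ℕ → Finset (Fin d → ℤ), ∀ p, Z p = if
        LinearIndependent (ZMod p) (fun i : {i : Fin k // i < j} => zp p v i) then ∅ else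
        V.filter (fun x => (fun m => (x m : ZMod p)) ∈ Submodule.span (ZMod p)
          (Set.range (fun i : {i : Fin k // i < j} => zp p v i))) := ⟨_, fun _ => rfl⟩
    have hZc : ∀ p ∈ T, (Z p).card ≤ (2 * N + 1) ^ (d - 1) := by
      intro p hp
      rw [hT, mem_filter] at hp
      rw [hZ]
      split_ifs with h
      · rw [card_empty]
        exact Nat.zero_le _
      · rw [hV]
        exact span_card (Nat.prime_of_mem_primeFactors hp.1) hp.2 (by rw [card_below]; exact hj) h
    calc (((tup d k N).filter (fun u => Drop (2 * N + 1) u j)).filter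
          (fun u => Function.update u j 0 = v)).card
        ≤ (T.biUnion Z).card := by
          apply Finset.card_le_card_of_injOn (fun u => u j)
          · intro u hu
            rw [mem_coe, mem_filter, mem_filter, mem_tup] at hu
            obtain ⟨⟨hu1, hind, p, hp, hpM, hnot, hspan⟩, huv⟩ := hu
            have hvi : ∀ i, i < j → v i = u i := by
              intro i hi
              rw [← huv, Function.update_of_ne hi.ne]
            have hf1 : (fun i : {i : Fin k // i < j} => v i) =
                (fun i : {i : Fin k // i < j} => u i) := by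
              funext i
              exact hvi i.1 i.2
            have hf2 : (fun i : {i : Fin k // i < j} => zp p v i) =
                (fun i : {i : Fin k // i < j} => zp p u i) := by
              funext i m
              unfold zp
              rw [hvi i.1 i.2]
            have hg0 : g ≠ 0 := by
              rw [hg, hf1]
              exact gram_ne hind
            have hdvd : (p : ℤ) ∣ g := by
              rw [hg, hf1]
              exact gram_dvd hp hnot
            rw [mem_coe, mem_biUnion]
            refine ⟨p, ?_, ?_⟩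
            · rw [hT, mem_filter, Nat.mem_primeFactors]
              exact ⟨⟨hp, Int.natCast_dvd.1 hdvd, Int.natAbs_ne_zero.2 hg0⟩, hpM⟩
            · rw [hZ, hf2, if_neg hnot, mem_filter, hV, Fintype.mem_piFinset]
              exact ⟨fun m => mem_Icc.2 (hu1 j m), hspan⟩
          · intro u hu u' hu' h
            rw [mem_coe, mem_filter] at hu hu'
            funext i
            rcases eq_or_ne i j with rfl | hi
            · exact h
            · have h1 := congrFun hu.2 i
              have h2 := congrFun hu'.2 i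
              rw [Function.update_of_ne hi] at h1 h2
              rw [h1, h2]
      _ ≤ ∑ p ∈ T, (Z p).card := card_biUnion_le
      _ ≤ ∑ _p ∈ T, (2 * N + 1) ^ (d - 1) := Finset.sum_le_sum hZc
      _ = T.card * (2 * N + 1) ^ (d - 1) := by rw [Finset.sum_const, smul_eq_mul]
      _ ≤ _ := Nat.mul_le_mul_right _ hTc

theorem drop_of_kill {d k M p : ℕ} {u : Fin k → Fin d → ℤ} (hdk : d < k)
    (hind : LinearIndependent ℚ (fun i : Fin d => cq u (Fin.castLE hdk.le i))) (hp : p.Prime)
    (hM : M < p) (hkill : Kill p u) : ∃ j : Fin k, j.val ≤ d ∧ Drop M u j := by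
  have : Fact p.Prime := ⟨hp⟩
  by_contra hcon
  push Not at hcon
  have hlow : ∀ j : Fin k, j.val ≤ d →
      LinearIndependent ℚ (fun i : {i : Fin k // i < j} => cq u i) := by
    intro j hj
    have h1 := hind.comp (fun i : {i : Fin k // i < j} => (⟨i.1.val, by
      have := i.2
      rw [Fin.lt_def] at this
      omega⟩ : Fin d)) (by
        intro i i' h
        simp only [Fin.mk.injEq] at h
        exact Subtype.ext (Fin.ext h))
    exact h1
  obtain ⟨S, hS⟩ : ∃ S : ℕ → Submodule (ZMod p) (Fin d → ZMod p), ∀ n, S n =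
      Submodule.span (ZMod p) (zp p u '' {i | i.val < n}) := ⟨_, fun _ => rfl⟩
  have hmono : ∀ n, S n ≤ S (n + 1) := by
    intro n
    rw [hS, hS]
    apply Submodule.span_mono
    apply Set.image_mono
    intro i hi
    exact Nat.lt_succ_of_lt hi
  have hrange : ∀ j : Fin k, Submodule.span (ZMod p)
      (Set.range (fun i : {i : Fin k // i < j} => zp p u i)) = S j.val := by
    intro j
    rw [hS]
    congr 1
    ext x
    constructor
    · rintro ⟨i, rfl⟩
      exact ⟨i.1, i.2, rfl⟩
    · rintro ⟨i, hi, rfl⟩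
      exact ⟨⟨i, hi⟩, rfl⟩
  have hclaim : ∀ n, n ≤ d + 1 → n ≤ Module.finrank (ZMod p) (S n) + 1 := by
    intro n
    induction n with
    | zero =>
      intro _
      omega
    | succ n ih =>
      intro hn
      have ih' := ih (by omega)
      obtain ⟨j, hj⟩ : ∃ j : Fin k, j.val = n := ⟨⟨n, by omega⟩, rfl⟩
      by_cases hli : LinearIndependent (ZMod p) (fun i : {i : Fin k // i < j} => zp p u i)
      · have h1 := linearIndependent_iff_card_eq_finrank_span.1 hli
        rw [card_below, Set.finrank, hrange, hj] at h1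
        have h2 := Submodule.finrank_mono (hmono n)
        omega
      · have h1 : zp p u j ∉ S n := by
          intro hmem
          apply hcon j (by omega)
          refine ⟨hlow j (by omega), p, hp, hM, hli, ?_⟩
          rw [hrange, hj]
          exact hmem
        have h2 : S n < S (n + 1) := by
          refine lt_of_le_of_ne (hmono n) ?_
          intro heq
          apply h1
          rw [heq, hS]
          apply Submodule.subset_span
          exact ⟨j, by rw [Set.mem_setOf_eq]; omega, rfl⟩
        have h3 := Submodule.finrank_lt_finrank_of_lt h2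
        omega
  have h1 := hclaim (d + 1) le_rfl
  have h2 : S (d + 1) = ⊤ := by
    apply Submodule.eq_top_of_finrank_eq
    apply le_antisymm (Submodule.finrank_le _)
    rw [Module.finrank_fintype_fun_eq_card, Fintype.card_fin]
    omega
  obtain ⟨a, ha, hkill⟩ := hkill
  apply ha
  have h3 : S (d + 1) ≤ LinearMap.ker (∑ j, a j • (LinearMap.proj j : (Fin d → ZMod p) →ₗ[ZMod p]
      ZMod p)) := by
    rw [hS, Submodule.span_le]
    rintro _ ⟨i, _, rfl⟩
    rw [SetLike.mem_coe, LinearMap.mem_ker, LinearMap.sum_apply]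
    simpa only [LinearMap.smul_apply, LinearMap.proj_apply, smul_eq_mul, zp] using hkill i
  rw [h2] at h3
  funext m
  have h4 := h3 (Submodule.mem_top : (Pi.single m 1 : Fin d → ZMod p) ∈ ⊤)
  rw [LinearMap.mem_ker, LinearMap.sum_apply, Finset.sum_eq_single m] at h4
  · simpa using h4
  · intro j _ hj
    simp [hj]
  · intro h
    exact absurd (mem_univ m) h

end Pool.Agent.Lib.MP_602b76_co_Gen
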