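import Pool.Agent.Lib.MP_602b76_co_Gen.Almost

/-!
# Generating tuples: functionals modulo a prime
-/

namespace Pool.Agent.Lib.MP_602b76_co_Gen

open Finset

/-- A nonzero functional modulo `p` kills all vectors of the tuple. -/
def Kill {d k : ℕ} (p : ℕ) (u : Fin k → Fin d → ℤ) : Prop :=
  ∃ a : Fin d → ZMod p, a ≠ 0 ∧ ∀ i, ∑ j, a j * (u i j : ZMod p) = 0

theorem exists_kill {d k : ℕ} {u : Fin k → Fin d → ℤ}
    (h : AddSubgroup.closure (Set.range u) ≠ ⊤) : ∃ p, p.Prime ∧ Kill p u := by
  obtain ⟨H, hH⟩ : ∃ H : Submodule ℤ (Fin d → ℤ), H = Submodule.span ℤ (Set.range u) :=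
    ⟨_, rfl⟩
  have hne : H ≠ ⊤ := by
    intro htop
    apply h
    rw [← Submodule.span_int_eq_addSubgroupClosure, ← hH, htop]
    rfl
  obtain ⟨K, hK, hHK⟩ := (eq_top_or_exists_le_coatom H).resolve_left hne
  have hs : IsSimpleModule ℤ ((Fin d → ℤ) ⧸ K) := isSimpleModule_iff_isCoatom.2 hK
  obtain ⟨I, hI, ⟨f⟩⟩ := isSimpleModule_iff_quot_maximal.1 hs
  obtain ⟨p, hp, hpI⟩ : ∃ p : ℕ, p.Prime ∧ I = Ideal.span {(p : ℤ)} := by
    obtain ⟨g, hg⟩ := (IsPrincipalIdealRing.principal I).principal
    rw [Ideal.submodule_span_eq] at hg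
    have hI0 : I ≠ ⊥ := Ring.ne_bot_of_isMaximal_of_not_isField hI Int.not_isField
    have hg0 : g ≠ 0 := by
      intro h0
      rw [h0, Ideal.span_singleton_zero] at hg
      exact hI0 hg
    have hpr : Prime g := by
      rw [← Ideal.span_singleton_prime hg0, ← hg]
      exact hI.isPrime
    refine ⟨g.natAbs, Int.prime_iff_natAbs_prime.1 hpr, ?_⟩
    rw [hg, Int.span_natAbs]
  subst hpI
  obtain ⟨g, hg⟩ : ∃ g : (Fin d → ℤ) →+ ZMod p, ∀ x, g x =
      Int.quotientSpanNatEquivZMod p (f (Submodule.Quotient.mk x)) := by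
    refine ⟨AddMonoidHom.mk' (fun x => Int.quotientSpanNatEquivZMod p
      (f (Submodule.Quotient.mk x))) ?_, fun x => rfl⟩
    intro x y
    rw [Submodule.Quotient.mk_add, map_add, map_add]
  have hgx : ∀ x, g x = ∑ j, g (Pi.single j 1) * (x j : ZMod p) := by
    intro x
    have h1 : x = ∑ j, x j • (Pi.single j 1 : Fin d → ℤ) := by
      funext m
      rw [Finset.sum_apply, Finset.sum_eq_single m]
      · simp
      · intro j _ hj
        simp [Pi.single_apply, hj.symm]
      · intro h
        exact absurd (mem_univ m) h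
    conv_lhs => rw [h1]
    rw [map_sum]
    apply Finset.sum_congr rfl
    intro j _
    rw [map_zsmul, zsmul_eq_mul, mul_comm]
  haveI : Fact p.Prime := ⟨hp⟩
  refine ⟨p, hp, fun j => g (Pi.single j 1), ?_, fun i => ?_⟩
  · intro h0
    obtain ⟨y, hy⟩ := (Int.quotientSpanNatEquivZMod p).surjective 1
    obtain ⟨z, hz⟩ := f.surjective y
    obtain ⟨x, hx⟩ := Submodule.Quotient.mk_surjective K z
    have h1 : g x = 1 := by rw [hg, hx, hz, hy]
    rw [hgx] at h1
    have h2 : ∑ j, g (Pi.single j 1) * (x j : ZMod p) = 0 := by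
      apply Finset.sum_eq_zero
      intro j _
      have := congrFun h0 j
      simp only [Pi.zero_apply] at this
      rw [this, zero_mul]
    rw [h2] at h1
    exact zero_ne_one h1
  · rw [← hgx, hg]
    have h1 : (Submodule.Quotient.mk (u i) : (Fin d → ℤ) ⧸ K) = 0 := by
      rw [Submodule.Quotient.mk_eq_zero]
      apply hHK
      rw [hH]
      exact Submodule.subset_span ⟨i, rfl⟩
    rw [h1, map_zero, map_zero]

/-! ## Counting modulo a prime -/

/-- The vectors of the box killed by the functional `a` modulo `p`. -/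
noncomputable def hyp {d p : ℕ} (a : Fin d → ZMod p) (N : ℕ) : Finset (Fin d → ℤ) := by
  classical
  exact (Fintype.piFinset (fun _ => Finset.Icc (-(N : ℤ)) N)).filter
    (fun x => ∑ j, a j * (x j : ZMod p) = 0)

theorem mem_hyp {d p : ℕ} {a : Fin d → ZMod p} {N : ℕ} {x : Fin d → ℤ} :
    x ∈ hyp a N ↔ (∀ j, -(N : ℤ) ≤ x j ∧ x j ≤ N) ∧ ∑ j, a j * (x j : ZMod p) = 0 := by
  classical
  unfold hyp
  rw [mem_filter, Fintype.mem_piFinset]
  simp only [mem_Icc]

theorem hyp_card {d N p : ℕ} (hp : p.Prime) {a : Fin d → ZMod p} (ha : a ≠ 0) :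
    (hyp a N).card ≤ (2 * N + 1) ^ (d - 1) * (2 * N / p + 1) := by
  classical
  haveI : Fact p.Prime := ⟨hp⟩
  obtain ⟨i, hi⟩ := Function.ne_iff.1 ha
  have hi : a i ≠ 0 := hi
  have hp0 : (0 : ℤ) < p := by exact_mod_cast hp.pos
  have hcod : (Fintype.piFinset (fun j : Fin d => if j = i then ({0} : Finset ℤ) else
      Finset.Icc (-(N : ℤ)) N)).card = (2 * N + 1) ^ (d - 1) := by
    rw [Fintype.card_piFinset, ← Finset.mul_prod_erase _ _ (mem_univ i)]
    simp only [if_true, card_singleton, one_mul]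
    calc ∏ j ∈ (Finset.univ : Finset (Fin d)).erase i,
          (if j = i then ({0} : Finset ℤ) else Finset.Icc (-(N : ℤ)) N).card
        = ∏ _j ∈ (Finset.univ : Finset (Fin d)).erase i, (2 * N + 1) := by
          apply Finset.prod_congr rfl
          intro j hj
          rw [if_neg (Finset.ne_of_mem_erase hj), Int.card_Icc]
          omega
      _ = (2 * N + 1) ^ (d - 1) := by
        rw [Finset.prod_const, Finset.card_erase_of_mem (mem_univ i), card_univ, Fintype.card_fin]
  rw [← hcod, ← card_range (2 * N / p + 1), ← card_product]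
  apply Finset.card_le_card_of_injOn
    (fun x : Fin d → ℤ => (Function.update x i 0, ((x i + (N : ℤ)) / (p : ℤ)).toNat))
  · intro x hx
    rw [mem_coe, mem_hyp] at hx
    rw [mem_coe, mem_product, Fintype.mem_piFinset, mem_range]
    refine ⟨fun j => ?_, ?_⟩
    · rcases eq_or_ne j i with rfl | hj
      · simp
      · rw [if_neg hj]
        simp only [Function.update_of_ne hj]
        exact mem_Icc.2 (hx.1 j)
    · show ((x i + N) / p).toNat < 2 * N / p + 1
      have h1 : (x i + N) / (p : ℤ) ≤ (2 * N : ℤ) / p :=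
        Int.ediv_le_ediv hp0 (by have := (hx.1 i).2; linarith)
      have h2 : 0 ≤ (x i + N) / (p : ℤ) :=
        Int.ediv_nonneg (by have := (hx.1 i).1; linarith) hp0.le
      have h3 : ((2 * N / p : ℕ) : ℤ) = (2 * N : ℤ) / p := by push_cast; ring
      omega
  · intro x hx y hy he
    rw [mem_coe, mem_hyp] at hx hy
    simp only [Prod.mk.injEq] at he
    have hxy : ∀ j, j ≠ i → x j = y j := by
      intro j hj
      have := congrFun he.1 j
      simpa only [Function.update_of_ne hj] using this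
    have h1 := hx.2
    have h2 := hy.2
    rw [← Finset.add_sum_erase _ _ (mem_univ i)] at h1 h2
    have h3 : ∑ j ∈ (Finset.univ : Finset (Fin d)).erase i, a j * (x j : ZMod p) =
        ∑ j ∈ (Finset.univ : Finset (Fin d)).erase i, a j * (y j : ZMod p) :=
      Finset.sum_congr rfl (fun j hj => by rw [hxy j (Finset.ne_of_mem_erase hj)])
    rw [h3] at h1
    have h4 : a i * (x i : ZMod p) = a i * (y i : ZMod p) := add_right_cancel (h1.trans h2.symm)
    have h5 : ((x i : ℤ) : ZMod p) = ((y i : ℤ) : ZMod p) := mul_left_cancel₀ hi h4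
    have h6 : (x i) % (p : ℤ) = (y i) % (p : ℤ) := (ZMod.intCast_eq_intCast_iff' _ _ _).1 h5
    have h7 : (x i + N) % (p : ℤ) = (y i + N) % (p : ℤ) := by
      rw [Int.add_emod, h6, ← Int.add_emod]
    have h8 : (x i + N) / (p : ℤ) = (y i + N) / (p : ℤ) := by
      have g1 : 0 ≤ (x i + N) / (p : ℤ) :=
        Int.ediv_nonneg (by have := (hx.1 i).1; linarith) hp0.le
      have g2 : 0 ≤ (y i + N) / (p : ℤ) :=
        Int.ediv_nonneg (by have := (hy.1 i).1; linarith) hp0.le
      have := he.2
      omega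
    have h9 : x i = y i := by
      have g1 := Int.emod_add_mul_ediv (x i + N) p
      have g2 := Int.emod_add_mul_ediv (y i + N) p
      rw [h7, h8] at g1
      linarith
    funext j
    rcases eq_or_ne j i with rfl | hj
    · exact h9
    · exact hxy j hj

open Classical in
theorem kill_card {d k N p : ℕ} (hp : p.Prime) :
    ((tup d k N).filter (fun u => Kill p u)).card * (p - 1) ≤
      p ^ d * ((2 * N + 1) ^ (d - 1) * (2 * N / p + 1)) ^ k := by
  haveI : Fact p.Prime := ⟨hp⟩
  have hAc : ((Finset.univ : Finset (Fin d → ZMod p)).filter (fun a => a ≠ 0)).card ≤ p ^ d := by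
    refine le_trans (card_filter_le _ _) (le_of_eq ?_)
    rw [card_univ, Fintype.card_fun, ZMod.card, Fintype.card_fin]
  refine le_trans (card_mul_le_card_mul
    (t := (Finset.univ : Finset (Fin d → ZMod p)).filter (fun a => a ≠ 0))
    (n := ((2 * N + 1) ^ (d - 1) * (2 * N / p + 1)) ^ k)
    (fun (u : Fin k → Fin d → ℤ) (a : Fin d → ZMod p) =>
      ∀ i, ∑ j, a j * (u i j : ZMod p) = 0) ?_ ?_) (Nat.mul_le_mul_right _ hAc)
  · intro u hu
    rw [mem_filter] at hu
    obtain ⟨_, a0, ha0, hkill⟩ := hu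
    obtain ⟨i0, hi0⟩ := Function.ne_iff.1 ha0
    have hi0 : a0 i0 ≠ 0 := hi0
    have h1 : ((Finset.univ : Finset (ZMod p)).erase 0).card = p - 1 := by
      rw [card_erase_of_mem (mem_univ _), card_univ, ZMod.card]
    rw [← h1]
    apply Finset.card_le_card_of_injOn (fun c => c • a0)
    · intro c hc
      have hc0 : c ≠ 0 := Finset.ne_of_mem_erase hc
      rw [mem_coe, mem_bipartiteAbove, mem_filter]
      refine ⟨⟨mem_univ _, ?_⟩, fun i => ?_⟩
      · exact smul_ne_zero hc0 ha0
      · have h2 : ∑ j, (c • a0) j * (u i j : ZMod p) = c * ∑ j, a0 j * (u i j : ZMod p) := by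
          rw [Finset.mul_sum]
          apply Finset.sum_congr rfl
          intro j _
          rw [Pi.smul_apply, smul_eq_mul, mul_assoc]
        rw [h2, hkill i, mul_zero]
    · intro c _ c' _ h
      have h2 := congrFun h i0
      simp only [Pi.smul_apply, smul_eq_mul] at h2
      exact mul_right_cancel₀ hi0 h2
  · intro a ha
    rw [mem_filter] at ha
    calc (bipartiteBelow (fun (u : Fin k → Fin d → ℤ) (a : Fin d → ZMod p) =>
          ∀ i, ∑ j, a j * (u i j : ZMod p) = 0) ((tup d k N).filter (fun u => Kill p u)) a).card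
        ≤ (Fintype.piFinset (fun _ : Fin k => hyp a N)).card := by
          apply card_le_card
          intro u hu
          rw [mem_bipartiteBelow, mem_filter, mem_tup] at hu
          rw [Fintype.mem_piFinset]
          exact fun i => mem_hyp.2 ⟨fun j => hu.1.1 i j, hu.2 i⟩
      _ = (hyp a N).card ^ k := by
          rw [Fintype.card_piFinset]
          simp
      _ ≤ _ := Nat.pow_le_pow_left (hyp_card hp ha.2) _

end Pool.Agent.Lib.MP_602b76_co_Gen
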