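import Pool.Agent.Lib.MP_602b76_co_Gen.Equal

/-!
# Many generators: lifts to the grid

`u : Fin k → A` are the generators; `ph u a` maps the grid to the group, the origin going to `a`.
-/

namespace Pool.Agent.Lib.MP_602b76_co_Gen

open Finset Pool.Agent.Lib.MP_602b76_co_Plane Pool.Agent.Lib.MP_602b76_co_Far

variable {A : Type*} [AddCommGroup A] [DecidableEq A] {k : ℕ}

/-- The map from the grid. -/
def ph (u : Fin k → A) (a : A) (x : Fin k → ℤ) : A := a + ∑ i, x i • u i

/-- The number of chains. -/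
def fA (u : Fin k → A) (S : Finset A) : ℕ := ∑ i, ch (u i) S

/-- Nonzero relations have sup norm at least `L`. -/
def Sep (u : Fin k → A) (L : ℕ) : Prop :=
  ∀ x : Fin k → ℤ, ∑ i, x i • u i = 0 → (∀ i, |x i| < L) → x = 0

variable {u : Fin k → A} {a : A} {L : ℕ}

omit [DecidableEq A] in
theorem sum_ee (i : Fin k) : ∑ j, (ee i : Fin k → ℤ) j • u j = u i := by
  rw [Finset.sum_eq_single i]
  · simp [ee]
  · intro j _ hj
    simp [ee, hj]
  · intro h
    exact absurd (mem_univ i) h

omit [DecidableEq A] in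
theorem ph_add (x y : Fin k → ℤ) : ph u a (x + y) = ph u a x + ∑ i, y i • u i := by
  unfold ph
  simp only [Pi.add_apply, add_smul, Finset.sum_add_distrib]
  abel

omit [DecidableEq A] in
theorem ph_add_ee (x : Fin k → ℤ) (i : Fin k) : ph u a (x + ee i) = ph u a x + u i := by
  rw [ph_add, sum_ee]

omit [DecidableEq A] in
theorem ph_shift (t x : Fin k → ℤ) : ph u (ph u a t) x = ph u a (t + x) := by
  rw [ph_add]
  rfl

omit [DecidableEq A] in
theorem ph_inj (hL : Sep u L) {x y : Fin k → ℤ} (h : ∀ i, |x i - y i| < L)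
    (he : ph u a x = ph u a y) : x = y := by
  have h1 : ∑ i, (x - y) i • u i = 0 := by
    have h2 : x = y + (x - y) := by abel
    rw [h2, ph_add] at he
    exact left_eq_add.1 he.symm
  have h3 := hL (x - y) h1 (fun i => by simpa using h i)
  exact sub_eq_zero.1 h3

/-- The part of `S` covered by `T`. -/
def near (u : Fin k → A) (a : A) (S : Finset A) (T : Finset (Fin k → ℤ)) : Finset A :=
  (T.filter (fun x => ph u a x ∈ S)).image (ph u a)

theorem mem_near {S : Finset A} {T : Finset (Fin k → ℤ)} {y : A} :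
    y ∈ near u a S T ↔ y ∈ S ∧ ∃ x ∈ T, ph u a x = y := by
  unfold near
  rw [mem_image]
  constructor
  · rintro ⟨x, hx, rfl⟩
    rw [mem_filter] at hx
    exact ⟨hx.2, x, hx.1, rfl⟩
  · rintro ⟨hy, x, hx, rfl⟩
    exact ⟨x, by rw [mem_filter]; exact ⟨hx, hy⟩, rfl⟩

theorem near_subset (S : Finset A) (T : Finset (Fin k → ℤ)) : near u a S T ⊆ S :=
  fun _ hy => (mem_near.1 hy).1

theorem near_mono (S : Finset A) {T T' : Finset (Fin k → ℤ)} (h : T ⊆ T') :
    near u a S T ⊆ near u a S T' := by
  intro y hy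
  rw [mem_near] at hy ⊢
  obtain ⟨h1, x, hx, h2⟩ := hy
  exact ⟨h1, x, h hx, h2⟩

theorem card_lift (hL : Sep u L) {S : Finset A} {T : Finset (Fin k → ℤ)}
    (hT : ∀ x ∈ T, ∀ y ∈ T, ∀ i, |x i - y i| + 1 < L) :
    (near u a S T).card = (T.filter (fun x => ph u a x ∈ S)).card := by
  unfold near
  apply card_image_of_injOn
  intro x hx y hy hxy
  rw [mem_coe, mem_filter] at hx hy
  exact ph_inj hL (fun i => by have := hT x hx.1 y hy.1 i; omega) hxy

theorem ch_lift (hL : Sep u L) {S : Finset A} {T : Finset (Fin k → ℤ)}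
    (hT : ∀ x ∈ T, ∀ y ∈ T, ∀ i, |x i - y i| + 1 < L) (i : Fin k) :
    ch (ee i) (T.filter (fun x => ph u a x ∈ S)) ≤ ch (u i) (near u a S T) := by
  unfold ch
  apply Finset.card_le_card_of_injOn (ph u a)
  · intro x hx
    rw [mem_coe, mem_filter] at hx
    rw [mem_coe, mem_filter]
    have hx1 := mem_filter.1 hx.1
    refine ⟨mem_near.2 ⟨hx1.2, x, hx1.1, rfl⟩, fun h => hx.2 ?_⟩
    obtain ⟨h1, z, hz, h2⟩ := mem_near.1 h
    have h3 : x + ee i = z := by
      apply ph_inj hL (a := a)
      · intro j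
        have h4 := hT x hx1.1 z hz j
        have h5 : |(ee i : Fin k → ℤ) j| ≤ 1 := by
          unfold ee
          rcases eq_or_ne j i with rfl | hj
          · simp
          · rw [Pi.single_eq_of_ne hj]
            simp
        rw [Pi.add_apply]
        have h6 : x j + (ee i : Fin k → ℤ) j - z j = (x j - z j) + (ee i : Fin k → ℤ) j := by ring
        rw [h6]
        have h7 := abs_add_le (x j - z j) ((ee i : Fin k → ℤ) j)
        omega
      · rw [ph_add_ee, h2]
    rw [mem_filter, h3]
    exact ⟨hz, by rw [h2]; exact h1⟩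
  · intro x hx y hy hxy
    rw [mem_coe, mem_filter, mem_filter] at hx hy
    exact ph_inj hL (fun j => by have := hT x hx.1.1 y hy.1.1 j; omega) hxy

/-- **The sharp inequality for the part covered by a small region.** -/
theorem lift_lw (hL : Sep u L) {S : Finset A} {T : Finset (Fin k → ℤ)}
    (hT : ∀ x ∈ T, ∀ y ∈ T, ∀ i, |x i - y i| + 1 < L) {ν : ℝ} (hν : 0 < ν)
    (hc : ((near u a S T).card : ℝ) ≤ ν ^ k) :
    (k : ℝ) * (near u a S T).card ≤ ν * fA u (near u a S T) := by
  rw [card_lift hL hT] at hc ⊢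
  refine le_trans (lw k _ ν hν hc) ?_
  apply mul_le_mul_of_nonneg_left _ hν.le
  have : FF (T.filter (fun x => ph u a x ∈ S)) ≤ fA u (near u a S T) :=
    Finset.sum_le_sum (fun i _ => ch_lift hL hT i)
  exact_mod_cast this

theorem lift_eq (hL : Sep u L) {S : Finset A} {T : Finset (Fin k → ℤ)}
    (hT : ∀ x ∈ T, ∀ y ∈ T, ∀ i, |x i - y i| + 1 < L) {N : ℕ} (hN : 0 < N)
    (hc : (near u a S T).card = N ^ k) (hf : N * fA u (near u a S T) ≤ k * N ^ k) :
    ∃ t, near u a S T = (box t N).image (ph u a) := by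
  have h1 : FF (T.filter (fun x => ph u a x ∈ S)) ≤ fA u (near u a S T) :=
    Finset.sum_le_sum (fun i _ => ch_lift hL hT i)
  obtain ⟨t, ht⟩ := eq_box k _ N hN (by rw [← card_lift hL hT]; exact hc)
    (le_trans (Nat.mul_le_mul_left _ h1) hf)
  refine ⟨t, ?_⟩
  unfold near
  rw [ht]

/-! ## The crude inequality -/

theorem ch_sum_le {ι : Type*} (s : Finset ι) (v : ι → A) (Y : Finset A) :
    ch (∑ i ∈ s, v i) Y ≤ ∑ i ∈ s, ch (v i) Y := by
  classical
  induction s using Finset.induction_on with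
  | empty => rw [Finset.sum_empty, Finset.sum_empty, ch_zero]
  | insert i s hi ih =>
    rw [Finset.sum_insert hi, Finset.sum_insert hi]
    exact le_trans (ch_add_le _ _ _) (Nat.add_le_add_left ih _)

theorem ch_zsmul_le (n : ℤ) (s : A) (Y : Finset A) : ch (n • s) Y ≤ n.natAbs * ch s Y := by
  obtain ⟨m, rfl | rfl⟩ := Int.eq_nat_or_neg n
  · rw [natCast_zsmul, Int.natAbs_natCast]
    exact ch_nsmul_le m s Y
  · rw [neg_smul, natCast_zsmul, ch_neg, Int.natAbs_neg, Int.natAbs_natCast]
    exact ch_nsmul_le m s Y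

/-- **Crude inequality.** -/
theorem crude_le (hL : Sep u L) {Y : Finset A} {r : ℕ} (hr0 : 0 < r) (hr : r ≤ L)
    (hY : 2 * Y.card ≤ r ^ k) : Y.card ≤ 2 * r * fA u Y := by
  have h1 : ∀ s ∈ box (0 : Fin k → ℤ) r, ch (∑ i, s i • u i) Y ≤ r * fA u Y := by
    intro s hs
    refine le_trans (ch_sum_le _ _ _) ?_
    unfold fA
    rw [Finset.mul_sum]
    apply Finset.sum_le_sum
    intro i _
    refine le_trans (ch_zsmul_le _ _ _) (Nat.mul_le_mul_right _ ?_)
    have := mem_box.1 hs i
    simp only [Pi.zero_apply] at this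
    omega
  have h2 : ∀ x ∈ Y, r ^ k ≤ ((box (0 : Fin k → ℤ) r).filter
      (fun s => x + ∑ i, s i • u i ∉ Y)).card + Y.card := by
    intro x _
    have h3 : ((box (0 : Fin k → ℤ) r).filter (fun s => ¬ (x + ∑ i, s i • u i ∉ Y))).card ≤
        Y.card := by
      apply Finset.card_le_card_of_injOn (fun s => ph u x s)
      · intro s hs
        rw [mem_coe, mem_filter, not_not] at hs
        exact hs.2
      · intro s hs s' hs' he
        rw [mem_coe, mem_filter] at hs hs'
        apply ph_inj hL (a := x) _ he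
        intro i
        have g1 := mem_box.1 hs.1 i
        have g2 := mem_box.1 hs'.1 i
        simp only [Pi.zero_apply] at g1 g2
        rw [abs_lt]
        have : (r : ℤ) ≤ L := by exact_mod_cast hr
        constructor <;> omega
    have h4 := Finset.card_filter_add_card_filter_not (s := box (0 : Fin k → ℤ) r)
      (fun s => x + ∑ i, s i • u i ∉ Y)
    rw [card_box] at h4
    omega
  have h5 : Y.card * r ^ k ≤ r ^ k * (r * fA u Y) + Y.card * Y.card := by
    calc Y.card * r ^ k = ∑ x ∈ Y, r ^ k := by rw [Finset.sum_const, smul_eq_mul]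
      _ ≤ ∑ x ∈ Y, (((box (0 : Fin k → ℤ) r).filter
          (fun s => x + ∑ i, s i • u i ∉ Y)).card + Y.card) := Finset.sum_le_sum h2
      _ = (∑ s ∈ box (0 : Fin k → ℤ) r, ch (∑ i, s i • u i) Y) + Y.card * Y.card := by
        rw [Finset.sum_add_distrib, Finset.sum_const, smul_eq_mul]
        congr 1
        unfold ch
        simp only [Finset.card_filter]
        exact Finset.sum_comm
      _ ≤ (∑ s ∈ box (0 : Fin k → ℤ) r, r * fA u Y) + Y.card * Y.card :=
        Nat.add_le_add_right (Finset.sum_le_sum h1) _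
      _ = _ := by rw [Finset.sum_const, smul_eq_mul, card_box]
  have h6 : 2 * (Y.card * Y.card) ≤ Y.card * r ^ k := by
    calc 2 * (Y.card * Y.card) = Y.card * (2 * Y.card) := by ring
      _ ≤ _ := Nat.mul_le_mul_left _ hY
  have h7 : r ^ k * Y.card ≤ r ^ k * (2 * r * fA u Y) := by
    have e1 : r ^ k * (2 * r * fA u Y) = 2 * (r ^ k * (r * fA u Y)) := by ring
    have e2 : r ^ k * Y.card = Y.card * r ^ k := by ring
    rw [e1, e2]
    omega
  exact Nat.le_of_mul_le_mul_left h7 (by positivity)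

/-! ## Cuts -/

theorem ch_cut {v : A} {S S1 : Finset A} (hS : S1 ⊆ S) {D : ℕ}
    (h1 : (S1.filter (fun x => x + v ∈ S \ S1)).card ≤ D)
    (h2 : ((S \ S1).filter (fun x => x + v ∈ S1)).card ≤ D) :
    ch v S1 + ch v (S \ S1) ≤ ch v S + 2 * D := by
  have g1 : ch v S1 ≤ (S1.filter (fun x => x + v ∉ S)).card + D := by
    refine le_trans ?_ (Nat.add_le_add_left h1 _)
    unfold ch
    refine le_trans (card_le_card ?_) (card_union_le _ _)
    intro x hx
    rw [mem_filter] at hx
    rw [mem_union, mem_filter, mem_filter, mem_sdiff]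
    by_cases h : x + v ∈ S
    · exact Or.inr ⟨hx.1, h, hx.2⟩
    · exact Or.inl ⟨hx.1, h⟩
  have g2 : ch v (S \ S1) ≤ ((S \ S1).filter (fun x => x + v ∉ S)).card + D := by
    refine le_trans ?_ (Nat.add_le_add_left h2 _)
    unfold ch
    refine le_trans (card_le_card ?_) (card_union_le _ _)
    intro x hx
    rw [mem_filter] at hx
    rw [mem_union, mem_filter, mem_filter]
    by_cases h : x + v ∈ S
    · right
      refine ⟨hx.1, ?_⟩
      by_contra hcon
      exact hx.2 (by rw [mem_sdiff]; exact ⟨h, hcon⟩)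
    · exact Or.inl ⟨hx.1, h⟩
  have g3 : (S1.filter (fun x => x + v ∉ S)).card +
      ((S \ S1).filter (fun x => x + v ∉ S)).card = ch v S := by
    unfold ch
    rw [← card_union_of_disjoint, ← filter_union, union_sdiff_of_subset hS]
    exact disjoint_filter_filter disjoint_sdiff
  omega

/-- **Cuts.** -/
theorem cut {T T' : Finset (Fin k → ℤ)} (hsub : T ⊆ T')
    (hT : ∀ x ∈ T, ∀ i, x + ee i ∈ T' ∧ x - ee i ∈ T') (S : Finset A) :
    fA u (near u a S T) + fA u (S \ near u a S T) ≤
      fA u S + 2 * k * (near u a S T' \ near u a S T).card := by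
  unfold fA
  rw [← Finset.sum_add_distrib]
  have h : ∀ i ∈ (Finset.univ : Finset (Fin k)), ch (u i) (near u a S T) +
      ch (u i) (S \ near u a S T) ≤
        ch (u i) S + 2 * (near u a S T' \ near u a S T).card := by
    intro i _
    apply ch_cut (near_subset S T)
    · apply Finset.card_le_card_of_injOn (fun x => x + u i)
      · intro x hx
        rw [mem_coe, mem_filter, mem_sdiff] at hx
        rw [mem_coe, mem_sdiff]
        refine ⟨?_, hx.2.2⟩
        obtain ⟨h1, z, hz, rfl⟩ := mem_near.1 hx.1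
        rw [mem_near]
        exact ⟨hx.2.1, z + ee i, (hT z hz i).1, ph_add_ee z i⟩
      · intro x _ y _ hxy
        exact add_right_cancel hxy
    · apply card_le_card
      intro x hx
      rw [mem_filter, mem_sdiff] at hx
      rw [mem_sdiff]
      refine ⟨?_, hx.1.2⟩
      obtain ⟨h1, z, hz, h2⟩ := mem_near.1 hx.2
      rw [mem_near]
      refine ⟨hx.1.1, z - ee i, (hT z hz i).2, ?_⟩
      have h3 := ph_add_ee (u := u) (a := a) (z - ee i) i
      rw [sub_add_cancel, h2] at h3
      exact (add_right_cancel h3).symm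
  refine le_trans (Finset.sum_le_sum h) ?_
  rw [Finset.sum_add_distrib, Finset.sum_const, card_univ, Fintype.card_fin, smul_eq_mul]
  apply Nat.add_le_add_left
  apply le_of_eq
  ring

theorem card_cut {T T' : Finset (Fin k → ℤ)} (hsub : T ⊆ T') (S : Finset A) :
    (near u a S T' \ near u a S T).card + (S \ near u a S T').card =
      (S \ near u a S T).card := by
  have h1 := near_mono (u := u) (a := a) S hsub
  have h2 := near_subset (u := u) (a := a) S T'
  rw [card_sdiff_of_subset h1, card_sdiff_of_subset h2,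
    card_sdiff_of_subset (near_subset (u := u) (a := a) S T)]
  have h3 := card_le_card h1
  have h4 := card_le_card h2
  omega

end Pool.Agent.Lib.MP_602b76_co_Gen
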