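import Pool.Agent.Lib.MP_602b76_co_Gen.Few

/-!
# Many generators: few tuples are annihilated by a small functional
-/

namespace Pool.Agent.Lib.MP_602b76_co_Gen

open Finset

/-- The sup norm. -/
def hgt {d : ℕ} (p : Fin d → ℤ) : ℕ := Finset.univ.sup (fun j => (p j).natAbs)

theorem le_hgt {d : ℕ} (p : Fin d → ℤ) (j : Fin d) : |p j| ≤ hgt p := by
  have h1 : (p j).natAbs ≤ hgt p := Finset.le_sup (f := fun j => (p j).natAbs) (mem_univ j)
  have h2 : (((p j).natAbs : ℕ) : ℤ) = |p j| := Int.natCast_natAbs _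
  omega

theorem exists_hgt {d : ℕ} {p : Fin d → ℤ} (hp : p ≠ 0) : ∃ j, |p j| = hgt p ∧ 0 < hgt p := by
  obtain ⟨i, hi⟩ := Function.ne_iff.1 hp
  rw [Pi.zero_apply] at hi
  obtain ⟨j, _, hj⟩ := Finset.exists_mem_eq_sup (Finset.univ : Finset (Fin d)) ⟨i, mem_univ i⟩
    (fun j => (p j).natAbs)
  have h1 := le_hgt p i
  have h2 := abs_pos.2 hi
  refine ⟨j, ?_, by omega⟩
  have h3 : hgt p = (p j).natAbs := hj
  rw [h3]
  exact (Int.natCast_natAbs _).symm

/-- The integer vectors of sup norm `H`. -/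
noncomputable def sph (d H : ℕ) : Finset (Fin d → ℤ) :=
  (Fintype.piFinset (fun _ : Fin d => Finset.Icc (-(H : ℤ)) H)).filter (fun p => ∃ j, |p j| = H)

theorem mem_sph_of {d : ℕ} {p : Fin d → ℤ} (hp : p ≠ 0) : p ∈ sph d (hgt p) := by
  unfold sph
  rw [mem_filter, Fintype.mem_piFinset]
  refine ⟨fun j => ?_, ?_⟩
  · rw [mem_Icc, ← abs_le]
    exact le_hgt p j
  · obtain ⟨j, hj, _⟩ := exists_hgt hp
    exact ⟨j, hj⟩

theorem card_sph {d e : ℕ} (hd : e + 1 = d) (H : ℕ) :
    (sph d H).card ≤ d * (2 * (2 * H + 1) ^ e) := by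
  have hsub : sph d H ⊆ (Finset.univ : Finset (Fin d)).biUnion (fun i =>
      Fintype.piFinset (fun j => if j = i then ({(H : ℤ), -(H : ℤ)} : Finset ℤ) else
        Finset.Icc (-(H : ℤ)) H)) := by
    intro p hp
    unfold sph at hp
    rw [mem_filter, Fintype.mem_piFinset] at hp
    obtain ⟨h1, i, hi⟩ := hp
    rw [mem_biUnion]
    refine ⟨i, mem_univ i, ?_⟩
    rw [Fintype.mem_piFinset]
    intro j
    split_ifs with hj
    · rw [hj, mem_insert, mem_singleton]
      rcases abs_choice (p i) with h' | h'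
      · left
        rw [← h', hi]
      · right
        rw [← hi, h', neg_neg]
    · exact h1 j
  refine le_trans (card_le_card hsub) (le_trans card_biUnion_le ?_)
  calc ∑ i : Fin d, (Fintype.piFinset (fun j => if j = i then ({(H : ℤ), -(H : ℤ)} : Finset ℤ)
        else Finset.Icc (-(H : ℤ)) H)).card ≤ ∑ _i : Fin d, 2 * (2 * H + 1) ^ e := by
        apply Finset.sum_le_sum
        intro i _
        rw [Fintype.card_piFinset, ← Finset.mul_prod_erase _ _ (mem_univ i), if_pos rfl]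
        apply Nat.mul_le_mul Finset.card_le_two
        calc ∏ j ∈ (Finset.univ : Finset (Fin d)).erase i,
              (if j = i then ({(H : ℤ), -(H : ℤ)} : Finset ℤ) else Finset.Icc (-(H : ℤ)) H).card
            = ∏ _j ∈ (Finset.univ : Finset (Fin d)).erase i, (2 * H + 1) := by
              apply Finset.prod_congr rfl
              intro j hj
              rw [if_neg (Finset.ne_of_mem_erase hj), Int.card_Icc]
              omega
          _ = (2 * H + 1) ^ e := by
            rw [Finset.prod_const, Finset.card_erase_of_mem (mem_univ i), card_univ,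
              Fintype.card_fin]
            congr 1
            omega
          _ ≤ (2 * H + 1) ^ e := le_rfl
    _ = d * (2 * (2 * H + 1) ^ e) := by
      rw [Finset.sum_const, card_univ, Fintype.card_fin, smul_eq_mul]

open Classical in
theorem few_low {d e N h : ℕ} (hd : e + 1 = d) (hN : 0 < N)
    {P S : (Fin e → Fin d → ℤ) → (Fin d → ℤ)} (h0 : ∀ c m, dt (P c) (c m) = 0)
    (hs : ∀ c, ∑ j, S c j * P c j = 1) :
    (((tup d e N).filter (fun c => LinearIndependent ℚ (cq c) ∧ hgt (P c) ≤ h)).card : ℝ) *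
      (N : ℝ) ^ e ≤ h * (2 * d * 3 ^ e * (((2 * (N + d * N) + 1) ^ d : ℕ) : ℝ) ^ e) := by
  obtain ⟨Y, hY⟩ : ∃ Y, Y = (2 * (N + d * N) + 1) ^ d := ⟨_, rfl⟩
  rw [← hY]
  have hPne : ∀ c, P c ≠ 0 := by
    intro c hc
    have := hs c
    rw [hc] at this
    simp at this
  obtain ⟨G, hG⟩ : ∃ G : ℕ → Finset (Fin d → ℤ), ∀ H, G H = (sph d H).filter (fun p =>
      ∀ a : ℤ, |a| ≤ ((N * H : ℕ) : ℤ) → ∃ w : Fin d → ℤ,
        (∀ j, |w j| ≤ ((d * N : ℕ) : ℤ)) ∧ dt p w = a) := ⟨_, fun _ => rfl⟩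
  have hcover : (tup d e N).filter (fun c => LinearIndependent ℚ (cq c) ∧ hgt (P c) ≤ h) ⊆
      (Finset.Icc 1 h).biUnion (fun H => (G H).biUnion (fun p =>
        Fintype.piFinset (fun _ : Fin e => orth p N))) := by
    intro c hc
    rw [mem_filter, mem_tup] at hc
    obtain ⟨hc1, hc2, hc3⟩ := hc
    obtain ⟨j0, hj0, hpos⟩ := exists_hgt (hPne c)
    rw [mem_biUnion]
    refine ⟨hgt (P c), mem_Icc.2 ⟨hpos, hc3⟩, ?_⟩
    rw [mem_biUnion]
    refine ⟨P c, ?_, ?_⟩
    · rw [hG, mem_filter]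
      refine ⟨mem_sph_of (hPne c), fun a ha => ?_⟩
      obtain ⟨w, hw1, hw2⟩ := spread hd le_rfl hc2 (fun m j => abs_le.2 (hc1 m j)) (h0 c) (hs c)
        hj0 hpos a (by push_cast at ha; exact ha)
      exact ⟨w, fun j => by push_cast; exact hw1 j, hw2⟩
    · rw [Fintype.mem_piFinset]
      intro m
      unfold orth
      rw [mem_filter, Fintype.mem_piFinset]
      exact ⟨fun j => mem_Icc.2 (hc1 m j), h0 c m⟩
  have h1 : ((tup d e N).filter (fun c => LinearIndependent ℚ (cq c) ∧ hgt (P c) ≤ h)).card ≤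
      ∑ H ∈ Finset.Icc 1 h, ∑ p ∈ G H, (orth p N).card ^ e := by
    refine le_trans (card_le_card hcover) (le_trans card_biUnion_le
      (Finset.sum_le_sum (fun H _ => le_trans card_biUnion_le
        (Finset.sum_le_sum (fun p _ => ?_)))))
    rw [Fintype.card_piFinset]
    simp
  have h2 : ∀ H ∈ Finset.Icc 1 h, (∑ p ∈ G H, (orth p N).card ^ e) * N ^ e ≤
      2 * d * 3 ^ e * Y ^ e := by
    intro H hH
    rw [mem_Icc] at hH
    have hH0 : 0 < H := by omega
    have h3 : ∀ p ∈ G H, (orth p N).card ^ e * (N * H) ^ e ≤ Y ^ e := by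
      intro p hp
      rw [hG, mem_filter] at hp
      have h4 := orth_spread (N := N) hp.2
      rw [← mul_pow, hY]
      apply Nat.pow_le_pow_left
      exact le_trans (Nat.mul_le_mul_left _ (Nat.le_succ _)) h4
    have h4 : (∑ p ∈ G H, (orth p N).card ^ e) * (N * H) ^ e ≤ d * (2 * (3 * H) ^ e) * Y ^ e := by
      rw [Finset.sum_mul]
      refine le_trans (Finset.sum_le_sum h3) ?_
      rw [Finset.sum_const, smul_eq_mul]
      apply Nat.mul_le_mul_right
      calc (G H).card ≤ (sph d H).card := by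
            rw [hG]
            exact card_filter_le _ _
        _ ≤ d * (2 * (2 * H + 1) ^ e) := card_sph hd H
        _ ≤ d * (2 * (3 * H) ^ e) := by
          apply Nat.mul_le_mul_left
          apply Nat.mul_le_mul_left
          apply Nat.pow_le_pow_left
          omega
    have h5 : H ^ e * ((∑ p ∈ G H, (orth p N).card ^ e) * N ^ e) ≤
        H ^ e * (2 * d * 3 ^ e * Y ^ e) := by
      calc H ^ e * ((∑ p ∈ G H, (orth p N).card ^ e) * N ^ e) =
            (∑ p ∈ G H, (orth p N).card ^ e) * (N * H) ^ e := by rw [mul_pow]; ring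
        _ ≤ d * (2 * (3 * H) ^ e) * Y ^ e := h4
        _ = _ := by rw [mul_pow]; ring
    exact Nat.le_of_mul_le_mul_left h5 (by positivity)
  have h6 : ((tup d e N).filter (fun c => LinearIndependent ℚ (cq c) ∧ hgt (P c) ≤ h)).card *
      N ^ e ≤ h * (2 * d * 3 ^ e * Y ^ e) := by
    calc ((tup d e N).filter (fun c => LinearIndependent ℚ (cq c) ∧ hgt (P c) ≤ h)).card *
        N ^ e ≤ (∑ H ∈ Finset.Icc 1 h, ∑ p ∈ G H, (orth p N).card ^ e) * N ^ e :=
          Nat.mul_le_mul_right _ h1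
      _ = ∑ H ∈ Finset.Icc 1 h, (∑ p ∈ G H, (orth p N).card ^ e) * N ^ e := by
          rw [Finset.sum_mul]
      _ ≤ ∑ _H ∈ Finset.Icc 1 h, 2 * d * 3 ^ e * Y ^ e := Finset.sum_le_sum h2
      _ = h * (2 * d * 3 ^ e * Y ^ e) := by
          rw [Finset.sum_const, Nat.card_Icc, smul_eq_mul, Nat.add_sub_cancel]
  exact_mod_cast h6

end Pool.Agent.Lib.MP_602b76_co_Gen
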