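import Pool.Agent.Lib.MP_602b76_co_Gen.Low

/-!
# Many generators: few tuples have an unbalanced short relation, summed over all columns
-/

namespace Pool.Agent.Lib.MP_602b76_co_Gen

open Finset

open Classical in
theorem pair_count {d e s N R C k : ℕ} (hd : e + 1 = d) (hk : k = e + (s + 2)) (hN : 0 < N)
    {κ ε : ℝ} (hκ0 : 0 < κ) (hC : (2 * k : ℝ) ^ d ≤ C * κ) (hC1 : 1 ≤ C)
    (hε0 : 0 < ε) (hε1 : ε ≤ 1) {L1 : ℕ} (hL1 : 1 ≤ ε * L1)
    (hR : (R : ℝ) ^ (s + 1) ≤ (2 * k * N : ℝ) ^ d) :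
    ((((tup d e N) ×ˢ (tup d (s + 2) N)).filter (fun q => Unb ε R q.1 q.2)).card : ℝ) ≤
      (2 * N + 1 : ℝ) ^ (d * k) * (e / (2 * N + 1 : ℝ) + κ * (2 * d * 3 ^ e * (d + 1) ^ (d * e)) +
        (1 + d * C : ℝ) ^ (d * (s + 2)) * (8 * 3 ^ s) *
          (ε * (2 * k : ℝ) ^ d + (L1 : ℝ) ^ (s + 1) / (N : ℝ) ^ d) / (C * κ)) := by
  obtain ⟨M, hM⟩ : ∃ M : ℝ, M = 2 * N + 1 := ⟨_, rfl⟩
  have hN0 : (0 : ℝ) < N := by exact_mod_cast hN
  have hM0 : 0 < M := by rw [hM]; positivity
  have hCκ : 0 < C * κ := by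
    have : (0 : ℝ) < C := by exact_mod_cast (by omega : 0 < C)
    positivity
  rw [← hM]
  choose P S hP0 hPs using fun c : Fin e → Fin d → ℤ => exists_annihilator (by omega : e < d) c
  have hPne : ∀ c, P c ≠ 0 := by
    intro c hc
    have := hPs c
    rw [hc] at this
    simp at this
  obtain ⟨h, hh⟩ : ∃ h, h = ⌊κ * (N : ℝ) ^ e⌋₊ := ⟨_, rfl⟩
  have hh1 : (h : ℝ) ≤ κ * (N : ℝ) ^ e := by rw [hh]; exact Nat.floor_le (by positivity)
  have hh2 : κ * (N : ℝ) ^ e < h + 1 := by rw [hh]; exact Nat.lt_floor_add_one _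
  obtain ⟨g, hg⟩ : ∃ g : (Fin e → Fin d → ℤ) → ℝ, ∀ c, g c =
      (((tup d (s + 2) N).filter (fun u => Unb ε R c u)).card : ℝ) := ⟨_, fun _ => rfl⟩
  have hsum : ((((tup d e N) ×ˢ (tup d (s + 2) N)).filter (fun q => Unb ε R q.1 q.2)).card : ℝ) =
      ∑ c ∈ tup d e N, g c := by
    simp only [hg]
    rw [Finset.card_filter, Finset.sum_product]
    push_cast
    apply Finset.sum_congr rfl
    intro c _
    rw [Finset.card_filter]
    push_cast
    rfl
  have hgle : ∀ c, g c ≤ M ^ (d * (s + 2)) := by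
    intro c
    rw [hg, hM]
    have : ((tup d (s + 2) N).filter (fun u => Unb ε R c u)).card ≤
        (2 * N + 1) ^ (d * (s + 2)) := by
      rw [← card_tup d (s + 2) N]
      exact card_filter_le _ _
    exact_mod_cast this
  have hpow : M ^ (d * k) = M ^ (d * e) * M ^ (d * (s + 2)) := by
    rw [← pow_add, ← mul_add, hk]
  -- the three parts
  have hsplit : ∑ c ∈ tup d e N, g c =
      (∑ c ∈ (tup d e N).filter (fun c => ¬ LinearIndependent ℚ (cq c)), g c) +
      ((∑ c ∈ (tup d e N).filter (fun c => LinearIndependent ℚ (cq c) ∧ hgt (P c) ≤ h), g c) +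
      (∑ c ∈ (tup d e N).filter (fun c => LinearIndependent ℚ (cq c) ∧ ¬ hgt (P c) ≤ h), g c)) := by
    rw [← Finset.sum_filter_add_sum_filter_not (tup d e N)
      (fun c => LinearIndependent ℚ (cq c)) g, add_comm]
    congr 1
    rw [← Finset.sum_filter_add_sum_filter_not ((tup d e N).filter
      (fun c => LinearIndependent ℚ (cq c))) (fun c => hgt (P c) ≤ h) g,
      Finset.filter_filter, Finset.filter_filter]
  have hp1 : ∑ c ∈ (tup d e N).filter (fun c => ¬ LinearIndependent ℚ (cq c)), g c ≤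
      M ^ (d * k) * (e / M) := by
    have h1 := dep_card d N e (by omega)
    have h2 : (((tup d e N).filter (fun c => ¬ LinearIndependent ℚ (cq c))).card : ℝ) * M ≤
        e * M ^ (d * e) := by
      rw [hM]
      exact_mod_cast h1
    have h3 : (((tup d e N).filter (fun c => ¬ LinearIndependent ℚ (cq c))).card : ℝ) ≤
        e * M ^ (d * e) / M := by
      rw [le_div_iff₀ hM0]
      exact h2
    calc ∑ c ∈ (tup d e N).filter (fun c => ¬ LinearIndependent ℚ (cq c)), g c
        ≤ ∑ _c ∈ (tup d e N).filter (fun c => ¬ LinearIndependent ℚ (cq c)),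
          M ^ (d * (s + 2)) := Finset.sum_le_sum (fun c _ => hgle c)
      _ = (((tup d e N).filter (fun c => ¬ LinearIndependent ℚ (cq c))).card : ℝ) *
          M ^ (d * (s + 2)) := by rw [Finset.sum_const, nsmul_eq_mul]
      _ ≤ (e * M ^ (d * e) / M) * M ^ (d * (s + 2)) :=
          mul_le_mul_of_nonneg_right h3 (by positivity)
      _ = _ := by rw [hpow]; ring
  have hp2 : ∑ c ∈ (tup d e N).filter (fun c => LinearIndependent ℚ (cq c) ∧ hgt (P c) ≤ h),
      g c ≤ M ^ (d * k) * (κ * (2 * d * 3 ^ e * (d + 1) ^ (d * e))) := by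
    have h1 := few_low (h := h) hd hN hP0 hPs
    have hY : (((2 * (N + d * N) + 1) ^ d : ℕ) : ℝ) ≤ ((d + 1) * M) ^ d := by
      push_cast
      apply pow_le_pow_left₀ (by positivity)
      rw [hM]
      have : (0 : ℝ) ≤ d := by positivity
      nlinarith
    have h2 : (((tup d e N).filter (fun c => LinearIndependent ℚ (cq c) ∧
        hgt (P c) ≤ h)).card : ℝ) ≤ κ * (2 * d * 3 ^ e * ((d + 1) * M) ^ (d * e)) := by
      have h3 : (((tup d e N).filter (fun c => LinearIndependent ℚ (cq c) ∧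
          hgt (P c) ≤ h)).card : ℝ) * (N : ℝ) ^ e ≤
            (κ * (2 * d * 3 ^ e * ((d + 1) * M) ^ (d * e))) * (N : ℝ) ^ e := by
        calc (((tup d e N).filter (fun c => LinearIndependent ℚ (cq c) ∧
            hgt (P c) ≤ h)).card : ℝ) * (N : ℝ) ^ e ≤
              h * (2 * d * 3 ^ e * (((2 * (N + d * N) + 1) ^ d : ℕ) : ℝ) ^ e) := h1
          _ ≤ (κ * (N : ℝ) ^ e) * (2 * d * 3 ^ e * (((d + 1) * M) ^ d) ^ e) := by
              apply mul_le_mul hh1 _ (by positivity) (by positivity)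
              apply mul_le_mul_of_nonneg_left _ (by positivity)
              exact pow_le_pow_left₀ (by positivity) hY e
          _ = _ := by rw [← pow_mul]; ring
      exact le_of_mul_le_mul_right h3 (by positivity)
    calc ∑ c ∈ (tup d e N).filter (fun c => LinearIndependent ℚ (cq c) ∧ hgt (P c) ≤ h), g c
        ≤ ∑ _c ∈ (tup d e N).filter (fun c => LinearIndependent ℚ (cq c) ∧ hgt (P c) ≤ h),
          M ^ (d * (s + 2)) := Finset.sum_le_sum (fun c _ => hgle c)
      _ = (((tup d e N).filter (fun c => LinearIndependent ℚ (cq c) ∧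
          hgt (P c) ≤ h)).card : ℝ) * M ^ (d * (s + 2)) := by rw [Finset.sum_const, nsmul_eq_mul]
      _ ≤ (κ * (2 * d * 3 ^ e * ((d + 1) * M) ^ (d * e))) * M ^ (d * (s + 2)) :=
          mul_le_mul_of_nonneg_right h2 (by positivity)
      _ = _ := by rw [hpow, mul_pow]; ring
  have hp3 : ∑ c ∈ (tup d e N).filter (fun c => LinearIndependent ℚ (cq c) ∧ ¬ hgt (P c) ≤ h),
      g c ≤ M ^ (d * k) * ((1 + d * C : ℝ) ^ (d * (s + 2)) * (8 * 3 ^ s) *
          (ε * (2 * k : ℝ) ^ d + (L1 : ℝ) ^ (s + 1) / (N : ℝ) ^ d) / (C * κ)) := by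
    obtain ⟨Z, hZ⟩ : ∃ Z : ℝ, Z = (1 + d * C : ℝ) ^ (d * (s + 2)) * (8 * 3 ^ s) *
          (ε * (2 * k : ℝ) ^ d + (L1 : ℝ) ^ (s + 1) / (N : ℝ) ^ d) / (C * κ) := ⟨_, rfl⟩
    have hNd : (N : ℝ) ^ d = N * (N : ℝ) ^ e := by rw [← hd]; ring
    have hone : ∀ c ∈ (tup d e N).filter
        (fun c => LinearIndependent ℚ (cq c) ∧ ¬ hgt (P c) ≤ h), g c ≤
          M ^ (d * (s + 2)) * Z := by
      intro c hc
      rw [mem_filter, mem_tup] at hc
      obtain ⟨hc1, hc2, hc3⟩ := hc
      obtain ⟨j0, hj0, hpos⟩ := exists_hgt (hPne c)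
      obtain ⟨H, hH⟩ : ∃ H, H = hgt (P c) := ⟨_, rfl⟩
      rw [← hH] at hj0 hpos hc3
      have hHh : κ * (N : ℝ) ^ e ≤ H := by
        have : (h : ℝ) + 1 ≤ H := by exact_mod_cast (by omega : h + 1 ≤ H)
        linarith
      have hbig : C * κ * (N : ℝ) ^ d ≤ ((C * N * H + 1 : ℕ) : ℝ) := by
        push_cast
        have h1 : (C : ℝ) * N * (κ * (N : ℝ) ^ e) ≤ C * N * H :=
          mul_le_mul_of_nonneg_left hHh (by positivity)
        have h2 : C * κ * (N : ℝ) ^ d = C * N * (κ * (N : ℝ) ^ e) := by rw [hNd]; ring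
        linarith
      have hR1 : R ≤ C * N * H + 1 := by
        have h1 : (R : ℝ) ≤ (R : ℝ) ^ (s + 1) ∨ R = 0 := by
          rcases Nat.eq_zero_or_pos R with h0 | h0
          · exact Or.inr h0
          · left
            exact le_self_pow₀ (by exact_mod_cast h0) (by omega)
        rcases h1 with h1 | h1
        · have h2 : (R : ℝ) ≤ ((C * N * H + 1 : ℕ) : ℝ) := by
            refine le_trans (le_trans h1 hR) (le_trans ?_ hbig)
            rw [mul_pow]
            exact mul_le_mul_of_nonneg_right hC (by positivity)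
          exact_mod_cast h2
        · omega
      have h1 := few_unb (s := s) (R := R) hd (N := N) (N' := C * N) (by nlinarith) hc2
        (fun m j => abs_le.2 (hc1 m j)) (hP0 c) (hPs c) hj0 hpos hR1 hε0 hε1 hL1
      rw [← hg] at h1
      have hg0 : 0 ≤ g c := by rw [hg]; positivity
      have h2 : g c * (C * κ * (N : ℝ) ^ d) ≤ ((1 + d * C) * M) ^ (d * (s + 2)) *
          (8 * 3 ^ s * (ε * (2 * k * N : ℝ) ^ d + (L1 : ℝ) ^ (s + 1))) := by
        refine le_trans (mul_le_mul_of_nonneg_left hbig hg0) (le_trans h1 ?_)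
        apply mul_le_mul _ _ (by positivity) (by positivity)
        · push_cast
          apply pow_le_pow_left₀ (by positivity)
          rw [hM]
          have : (0 : ℝ) ≤ d * C := by positivity
          nlinarith
        · apply mul_le_mul_of_nonneg_left _ (by positivity)
          have := mul_le_mul_of_nonneg_left hR hε0.le
          linarith
      have h3 : g c * (C * κ * (N : ℝ) ^ d) ≤ (M ^ (d * (s + 2)) * Z) * (C * κ * (N : ℝ) ^ d) := by
        refine le_trans h2 (le_of_eq ?_)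
        rw [hZ, mul_pow, mul_pow (2 * (k : ℝ)) (N : ℝ) d]
        field_simp
      exact le_of_mul_le_mul_right h3 (by positivity)
    have hZ0 : 0 ≤ Z := by rw [hZ]; positivity
    rw [← hZ]
    calc ∑ c ∈ (tup d e N).filter (fun c => LinearIndependent ℚ (cq c) ∧ ¬ hgt (P c) ≤ h), g c
        ≤ ∑ _c ∈ (tup d e N).filter (fun c => LinearIndependent ℚ (cq c) ∧ ¬ hgt (P c) ≤ h),
          M ^ (d * (s + 2)) * Z := Finset.sum_le_sum hone
      _ = (((tup d e N).filter (fun c => LinearIndependent ℚ (cq c) ∧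
          ¬ hgt (P c) ≤ h)).card : ℝ) * (M ^ (d * (s + 2)) * Z) := by
          rw [Finset.sum_const, nsmul_eq_mul]
      _ ≤ M ^ (d * e) * (M ^ (d * (s + 2)) * Z) := by
          apply mul_le_mul_of_nonneg_right _ (by positivity)
          have : ((tup d e N).filter (fun c => LinearIndependent ℚ (cq c) ∧
              ¬ hgt (P c) ≤ h)).card ≤ (2 * N + 1) ^ (d * e) := by
            rw [← card_tup d e N]
            exact card_filter_le _ _
          rw [hM]
          exact_mod_cast this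
      _ = _ := by rw [hpow]; ring
  rw [hsum, hsplit]
  have := add_le_add hp1 (add_le_add hp2 hp3)
  refine le_trans this (le_of_eq ?_)
  ring

end Pool.Agent.Lib.MP_602b76_co_Gen
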