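import Pool.Agent.Lib.MP_602b76_co_Gen.Sets
import Pool.Agent.Lib.MP_602b76_co_Gen.Crit2

/-!
# The proportion of the nested generating sets is at most a negative power of `N`
-/

namespace Pool.Agent.Lib.MP_602b76_co_Gen

open Finset Pool.Agent.Lib.MP_602b76_co_Never

open Classical in
/-- **A power saving.** -/
theorem rate (d k : ℕ) (hd : 0 < d) (hdk : d < k) : ∃ E C0 : ℕ, 0 < E ∧ 0 < C0 ∧
    ∀ N Q : ℕ, 0 < Q → Q ^ E ≤ N →
      (((tup d k N).filter (fun u => Exc d k N u)).card : ℝ) ≤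
        C0 / Q * (2 * N + 1 : ℝ) ^ (d * k) := by
  obtain ⟨e, he⟩ : ∃ e, e + 1 = d := ⟨d - 1, by omega⟩
  obtain ⟨s, hs⟩ : ∃ s, k = e + (s + 2) := ⟨k - d - 1, by omega⟩
  obtain ⟨A, Bc, hcrit⟩ := crit2 k
  obtain ⟨B, hB⟩ : ∃ B : ℕ, B = 2 * d * 3 ^ e * (d + 1) ^ (d * e) := ⟨_, rfl⟩
  obtain ⟨c3, hc3⟩ : ∃ c3 : ℕ, c3 = 2 * (2 * k) ^ d := ⟨_, rfl⟩
  obtain ⟨e2, he2⟩ : ∃ e2, e2 = d * (s + 2) := ⟨_, rfl⟩
  obtain ⟨c4, hc4⟩ : ∃ c4 : ℕ, c4 = ((1 + d) * c3) ^ e2 * (8 * 3 ^ s) := ⟨_, rfl⟩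
  refine ⟨(e2 + 1) * Bc * k + (e2 + (e2 + 1) * (s + 1)) + 1,
    (2 * A + 1) ^ k + k * k * e + k * k * B + k * k * (c4 * (2 * k) ^ d) + k * k * c4,
    by omega, ?_, ?_⟩
  · have : 0 < (2 * A + 1) ^ k := by positivity
    omega
  intro N Q hQ hQN
  have hkR : (1 : ℝ) ≤ k := by exact_mod_cast (by omega : 1 ≤ k)
  have hdR : (1 : ℝ) ≤ d := by exact_mod_cast hd
  have hQR : (1 : ℝ) ≤ Q := by exact_mod_cast hQ
  have hQ0 : (0 : ℝ) < Q := by linarith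
  have hN0 : 0 < N := lt_of_lt_of_le (by positivity) hQN
  have hNR : (0 : ℝ) < N := by exact_mod_cast hN0
  have hNR1 : (1 : ℝ) ≤ N := by exact_mod_cast hN0
  have hpow : ∀ m : ℕ, m ≤ (e2 + 1) * Bc * k + (e2 + (e2 + 1) * (s + 1)) →
      (Q : ℝ) ^ m / N ≤ 1 / Q := by
    intro m hm
    rw [div_le_div_iff₀ hNR hQ0, one_mul, ← pow_succ]
    have h1 : Q ^ (m + 1) ≤ N := le_trans (Nat.pow_le_pow_right hQ (by omega)) hQN
    exact_mod_cast h1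
  have hQN1 : (1 : ℝ) / N ≤ 1 / Q := by
    have := hpow 0 (Nat.zero_le _)
    rwa [pow_zero] at this
  -- the parameters
  obtain ⟨κ, hκ⟩ : ∃ κ : ℝ, κ = 1 / Q := ⟨_, rfl⟩
  have hκ0 : 0 < κ := by rw [hκ]; positivity
  obtain ⟨C, hC⟩ : ∃ C : ℕ, C = (2 * k) ^ d * Q + 1 := ⟨_, rfl⟩
  have hC1 : 1 ≤ C := by omega
  have h2k : (1 : ℝ) ≤ (2 * k : ℝ) ^ d := one_le_pow₀ (by linarith)
  have hC2 : (2 * k : ℝ) ^ d ≤ C * κ := by
    rw [hC, hκ]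
    push_cast
    rw [mul_one_div, le_div_iff₀ hQ0]
    linarith
  have hCκ1 : 1 ≤ C * κ := le_trans h2k hC2
  have hCκ0 : 0 < C * κ := by linarith
  have hCc : (C : ℝ) ≤ c3 * Q := by
    rw [hC, hc3]
    push_cast
    have : (1 : ℝ) * 1 ≤ (2 * k : ℝ) ^ d * Q := mul_le_mul h2k hQR (by norm_num) (by positivity)
    linarith
  have hc3Q : (1 : ℝ) ≤ c3 * Q := by
    have : (1 : ℝ) ≤ C := by exact_mod_cast hC1
    linarith
  obtain ⟨F, hF⟩ : ∃ F : ℝ, F = (1 + d * C : ℝ) ^ (d * (s + 2)) * (8 * 3 ^ s) := ⟨_, rfl⟩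
  have hF0 : 0 < F := by rw [hF]; positivity
  have hFc : F ≤ c4 * (Q : ℝ) ^ e2 := by
    rw [hF, hc4, ← he2]
    push_cast
    have h1 : (1 + d * C : ℝ) ≤ (1 + d) * c3 * Q := by
      have h2 : (d : ℝ) * C ≤ d * (c3 * Q) := mul_le_mul_of_nonneg_left hCc (by positivity)
      linarith
    have h2 : (1 + d * C : ℝ) ^ e2 ≤ ((1 + d) * c3 * Q) ^ e2 :=
      pow_le_pow_left₀ (by positivity) h1 _
    calc (1 + d * C : ℝ) ^ e2 * (8 * 3 ^ s) ≤ ((1 + d) * c3 * Q) ^ e2 * (8 * 3 ^ s) :=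
          mul_le_mul_of_nonneg_right h2 (by positivity)
      _ = ((1 + d) * c3) ^ e2 * (8 * 3 ^ s) * (Q : ℝ) ^ e2 := by
          rw [mul_pow ((1 + (d : ℝ)) * c3)]
          ring
  obtain ⟨ε, hε⟩ : ∃ ε : ℝ, ε = 1 / (Q : ℝ) ^ (e2 + 1) := ⟨_, rfl⟩
  have hQp : (1 : ℝ) ≤ (Q : ℝ) ^ (e2 + 1) := one_le_pow₀ hQR
  have hε0 : 0 < ε := by rw [hε]; positivity
  have hε1 : ε ≤ 1 := by
    rw [hε, div_le_one (by linarith)]
    exact hQp
  obtain ⟨L0, hL0⟩ : ∃ L0 : ℕ, L0 = A * (Q ^ (e2 + 1)) ^ Bc := ⟨_, rfl⟩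
  have hcrit' : ∀ (d : ℕ) (u : Fin k → (Fin d → ℤ)) (L : ℕ), L0 ≤ L → Sep u L →
      ∀ (l : Fin k → ℤ) (i : Fin k), ∑ j, l j • u j = 0 →
      |l i| = L → (∀ j, j ≠ i → (|l j| : ℝ) ≤ (1 - ε) * L) →
        ∀ e : ℕ ≃ (Fin d → ℤ), ∃ n ≤ L ^ k,
          ¬ EdgeOptimal (Finset.univ.image u) ((range n).image e) := by
    intro d' u L hL
    apply hcrit ε hε0 hε1 d' u L
    have h1 : (1 : ℝ) / ε = (Q : ℝ) ^ (e2 + 1) := by
      rw [hε, one_div_one_div]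
    rw [h1]
    have h2 : ((A * (Q ^ (e2 + 1)) ^ Bc : ℕ) : ℝ) ≤ L := by
      rw [← hL0]
      exact_mod_cast hL
    push_cast at h2
    exact h2
  obtain ⟨L1, hL1⟩ : ∃ L1 : ℕ, L1 = Q ^ (e2 + 1) := ⟨_, rfl⟩
  have hL1' : 1 ≤ ε * L1 := by
    rw [hε, hL1]
    push_cast
    rw [one_div_mul_cancel (by positivity)]
  obtain ⟨R, hR1, hR2⟩ := exists_R (s := s) hd (by omega : k = d + (s + 1)) hN0
  have h1 := exc_card (e := e) (s := s) (N := N) he hs hR1 hR2 hcrit'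
  have h2 := short_card (d := d) (k := k) (N := N) (L0 := L0)
  have h3 := pair_count (C := C) he hs hN0 hκ0 hC2 hC1 hε0 hε1 hL1' (R := R)
    (by exact_mod_cast hR1)
  obtain ⟨x1, hx1⟩ : ∃ x1 : ℕ, x1 = ((tup d k N).filter (fun u => ∃ l : Fin k → ℤ, l ≠ 0 ∧
    (∀ i, |l i| ≤ (L0 : ℤ)) ∧ ∑ i, l i • u i = 0)).card := ⟨_, rfl⟩
  obtain ⟨x2, hx2⟩ : ∃ x2 : ℕ, x2 = (((tup d e N) ×ˢ (tup d (s + 2) N)).filter
    (fun q => Unb ε R q.1 q.2)).card := ⟨_, rfl⟩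
  rw [← hx2] at h1 h3
  rw [← hx1] at h1
  have h2' : x1 * (2 * N + 1) ^ d ≤ (2 * L0 + 1) ^ k * (2 * N + 1) ^ (d * k) := by
    rw [hx1]
    exact h2
  obtain ⟨X, hX⟩ : ∃ X : ℝ, X = (2 * N + 1 : ℝ) ^ (d * k) := ⟨_, rfl⟩
  have hX0 : 0 < X := by rw [hX]; positivity
  rw [← hX] at h3 ⊢
  have hMd : (N : ℝ) ≤ (2 * N + 1 : ℝ) ^ d := by
    refine le_trans ?_ (le_self_pow₀ (by linarith) (by omega))
    linarith
  have hNd : (N : ℝ) ≤ (N : ℝ) ^ d := le_self_pow₀ hNR1 (by omega)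
  -- the short relations
  have hL0b : (2 * L0 + 1 : ℝ) ^ k ≤ (2 * A + 1) ^ k * (Q : ℝ) ^ ((e2 + 1) * Bc * k) := by
    have h4 : (2 * L0 + 1 : ℝ) ≤ (2 * A + 1) * (Q : ℝ) ^ ((e2 + 1) * Bc) := by
      rw [hL0]
      push_cast
      rw [← pow_mul]
      have h5 : (1 : ℝ) ≤ (Q : ℝ) ^ ((e2 + 1) * Bc) := one_le_pow₀ hQR
      have e1 : (2 * (A : ℝ) + 1) * (Q : ℝ) ^ ((e2 + 1) * Bc) =
          2 * (A * (Q : ℝ) ^ ((e2 + 1) * Bc)) + (Q : ℝ) ^ ((e2 + 1) * Bc) := by ring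
      rw [e1]
      linarith
    refine le_trans (pow_le_pow_left₀ (by positivity) h4 k) (le_of_eq ?_)
    rw [mul_pow, ← pow_mul]
  have hs1 : (x1 : ℝ) ≤ X * ((2 * A + 1) ^ k * (1 / Q)) := by
    have h4 : (x1 : ℝ) * (2 * N + 1) ^ d ≤ (2 * L0 + 1) ^ k * X := by
      rw [hX]
      exact_mod_cast h2'
    have h5 : (x1 : ℝ) * N ≤ (2 * L0 + 1) ^ k * X :=
      le_trans (mul_le_mul_of_nonneg_left hMd (by positivity)) h4
    have h6 : (x1 : ℝ) ≤ X * ((2 * L0 + 1) ^ k / N) := by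
      have h7 : X * ((2 * (L0 : ℝ) + 1) ^ k / N) = ((2 * L0 + 1) ^ k * X) / N := by ring
      rw [h7, le_div_iff₀ hNR]
      exact h5
    refine le_trans h6 (mul_le_mul_of_nonneg_left ?_ hX0.le)
    calc (2 * (L0 : ℝ) + 1) ^ k / N ≤ ((2 * A + 1) ^ k * (Q : ℝ) ^ ((e2 + 1) * Bc * k)) / N :=
          div_le_div_of_nonneg_right hL0b hNR.le
      _ = (2 * A + 1) ^ k * ((Q : ℝ) ^ ((e2 + 1) * Bc * k) / N) := by ring
      _ ≤ _ := mul_le_mul_of_nonneg_left (hpow _ (by omega)) (by positivity)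
  -- the unbalanced relations
  have hs2 : (x2 : ℝ) ≤ X * ((e + B + c4 * (2 * k) ^ d + c4) * (1 / Q)) := by
    refine le_trans h3 ?_
    apply mul_le_mul_of_nonneg_left _ hX0.le
    have hBr : (2 * d * 3 ^ e * (d + 1) ^ (d * e) : ℝ) = B := by
      rw [hB]
      push_cast
      ring
    rw [hBr, ← hF]
    have g1 : (e : ℝ) / (2 * N + 1) ≤ e * (1 / Q) := by
      have g2 : (e : ℝ) / (2 * N + 1) ≤ e / N :=
        div_le_div_of_nonneg_left (by positivity) hNR (by linarith)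
      have g3 : (e : ℝ) / N = e * (1 / N) := by ring
      rw [g3] at g2
      exact le_trans g2 (mul_le_mul_of_nonneg_left hQN1 (by positivity))
    have g2 : κ * (B : ℝ) = B * (1 / Q) := by rw [hκ]; ring
    have g3 : F * (ε * (2 * k) ^ d + (L1 : ℝ) ^ (s + 1) / (N : ℝ) ^ d) / (C * κ) ≤
        F * (ε * (2 * k) ^ d + (L1 : ℝ) ^ (s + 1) / (N : ℝ) ^ d) :=
      div_le_self (by positivity) hCκ1
    have g4 : F * (ε * (2 * k) ^ d) ≤ c4 * (2 * k) ^ d * (1 / Q) := by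
      calc F * (ε * (2 * k) ^ d) ≤ (c4 * (Q : ℝ) ^ e2) * (ε * (2 * k) ^ d) :=
            mul_le_mul_of_nonneg_right hFc (by positivity)
        _ = c4 * (2 * k) ^ d * (1 / Q) := by
            rw [hε, pow_succ]
            field_simp
    have g5 : F * ((L1 : ℝ) ^ (s + 1) / (N : ℝ) ^ d) ≤ c4 * (1 / Q) := by
      have g6 : (L1 : ℝ) ^ (s + 1) / (N : ℝ) ^ d ≤ (L1 : ℝ) ^ (s + 1) / N :=
        div_le_div_of_nonneg_left (by positivity) hNR hNd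
      calc F * ((L1 : ℝ) ^ (s + 1) / (N : ℝ) ^ d) ≤
            (c4 * (Q : ℝ) ^ e2) * ((L1 : ℝ) ^ (s + 1) / N) :=
            mul_le_mul hFc g6 (by positivity) (by positivity)
        _ = c4 * ((Q : ℝ) ^ (e2 + (e2 + 1) * (s + 1)) / N) := by
            rw [hL1, pow_add]
            push_cast
            rw [← pow_mul]
            ring
        _ ≤ c4 * (1 / Q) := mul_le_mul_of_nonneg_left (hpow _ (by omega)) (by positivity)
    have g7 : F * (ε * (2 * k) ^ d + (L1 : ℝ) ^ (s + 1) / (N : ℝ) ^ d) =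
        F * (ε * (2 * k) ^ d) + F * ((L1 : ℝ) ^ (s + 1) / (N : ℝ) ^ d) := by ring
    have g9 := le_trans g3 (le_of_eq g7)
    have g8 : ((e : ℝ) + B + c4 * (2 * k) ^ d + c4) * (1 / Q) =
        e * (1 / Q) + B * (1 / Q) + c4 * (2 * k) ^ d * (1 / Q) + c4 * (1 / Q) := by ring
    rw [g8, g2]
    linarith
  have h4 : (((tup d k N).filter (fun u => Exc d k N u)).card : ℝ) ≤ x1 + k * k * x2 := by
    exact_mod_cast h1
  have h5 : (k : ℝ) * k * x2 ≤ k * k * (X * ((e + B + c4 * (2 * k) ^ d + c4) * (1 / Q))) :=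
    mul_le_mul_of_nonneg_left hs2 (by positivity)
  calc (((tup d k N).filter (fun u => Exc d k N u)).card : ℝ) ≤ x1 + k * k * x2 := h4
    _ ≤ X * ((2 * A + 1) ^ k * (1 / Q)) +
      k * k * (X * ((e + B + c4 * (2 * k) ^ d + c4) * (1 / Q))) := add_le_add hs1 h5
    _ = _ := by
        push_cast
        ring

open Classical in
/-- **The proportion of the nested generating sets.** -/
theorem rate_sets (d k : ℕ) (hd : 0 < d) (hdk : d < k) : ∃ c : ℝ, 0 < c ∧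
    ∃ N0 : ℕ, ∀ N : ℕ, N0 ≤ N → 0 < (gs d k N).card ∧
      (((gs d k N).filter (fun U => ExcS d k N U)).card : ℝ) ≤
        (N : ℝ) ^ (-c) * ((gs d k N).card : ℝ) := by
  obtain ⟨E, C0, hE, hC0, h1⟩ := rate d k hd hdk
  obtain ⟨N2, h2⟩ := sets_card d k hd hdk
  have hk0 : 0 < k := by omega
  have hkR : (0 : ℝ) < k := by exact_mod_cast hk0
  obtain ⟨K, hK⟩ : ∃ K : ℕ, K = 96 * C0 * k ^ k := ⟨_, rfl⟩
  have hER : (0 : ℝ) < E := by exact_mod_cast hE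
  refine ⟨1 / (2 * E), by positivity, N2 + K ^ (2 * E) + 1, fun N hN => ?_⟩
  have h3 := h2 N (by omega)
  have hN0 : 0 < N := by omega
  have hNR : (0 : ℝ) < N := by exact_mod_cast hN0
  have hMp : (0 : ℝ) < (2 * N + 1 : ℝ) ^ (d * k) := by positivity
  constructor
  · by_contra h0
    have h5 : (gs d k N).card = 0 := by omega
    rw [h5, Nat.cast_zero, mul_zero] at h3
    linarith
  obtain ⟨a, ha⟩ : ∃ a : ℝ, a = (N : ℝ) ^ ((1 : ℝ) / (2 * E)) := ⟨_, rfl⟩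
  have ha0 : 0 < a := by rw [ha]; positivity
  have haE : a ^ (2 * E) = N := by
    rw [ha, ← Real.rpow_natCast, ← Real.rpow_mul hNR.le]
    have : (1 : ℝ) / (2 * E) * ((2 * E : ℕ) : ℝ) = 1 := by
      push_cast
      field_simp
    rw [this, Real.rpow_one]
  have hKa : (K : ℝ) ≤ a := by
    have h5 : (K : ℝ) ^ (2 * E) ≤ a ^ (2 * E) := by
      rw [haE]
      exact_mod_cast (by omega : K ^ (2 * E) ≤ N)
    exact le_of_pow_le_pow_left₀ (by omega) ha0.le h5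
  have hK1 : (1 : ℝ) ≤ K := by
    have : 0 < K := by rw [hK]; positivity
    exact_mod_cast this
  have ha1 : 1 ≤ a := le_trans hK1 hKa
  obtain ⟨Q, hQ⟩ : ∃ Q, Q = ⌊a ^ 2⌋₊ := ⟨_, rfl⟩
  have hQ1 : (Q : ℝ) ≤ a ^ 2 := by rw [hQ]; exact Nat.floor_le (by positivity)
  have hQ2 : a ^ 2 < Q + 1 := by rw [hQ]; exact Nat.lt_floor_add_one _
  have hQ0 : 0 < Q := by
    rw [hQ]
    apply Nat.floor_pos.2
    exact one_le_pow₀ ha1
  have hQR : (1 : ℝ) ≤ Q := by exact_mod_cast hQ0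
  have hQE : Q ^ E ≤ N := by
    have h5 : (Q : ℝ) ^ E ≤ N := by
      rw [← haE, pow_mul]
      exact pow_le_pow_left₀ (by positivity) hQ1 E
    exact_mod_cast h5
  have h4 := h1 N Q hQ0 hQE
  have h5 : (((gs d k N).filter (fun U => ExcS d k N U)).card : ℝ) ≤
      (((tup d k N).filter (fun u => Exc d k N u)).card : ℝ) := by exact_mod_cast exc_sets
  have hQinv : 1 / (Q : ℝ) ≤ 2 / a ^ 2 := by
    rw [div_le_div_iff₀ (by positivity) (by positivity)]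
    linarith
  have hneg : (N : ℝ) ^ (-((1 : ℝ) / (2 * E))) = 1 / a := by
    rw [Real.rpow_neg hNR.le, ← ha, one_div]
  rw [hneg]
  refine le_trans h5 (le_trans h4 ?_)
  have hg0 : (0 : ℝ) ≤ ((gs d k N).card : ℝ) := by positivity
  calc C0 / (Q : ℝ) * (2 * N + 1 : ℝ) ^ (d * k)
      ≤ C0 / (Q : ℝ) * (48 * (k : ℝ) ^ k * ((gs d k N).card : ℝ)) :=
        mul_le_mul_of_nonneg_left h3 (by positivity)
    _ = (1 / Q) * (C0 * (48 * (k : ℝ) ^ k)) * ((gs d k N).card : ℝ) := by ring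
    _ ≤ (2 / a ^ 2) * (C0 * (48 * (k : ℝ) ^ k)) * ((gs d k N).card : ℝ) := by
        apply mul_le_mul_of_nonneg_right _ hg0
        exact mul_le_mul_of_nonneg_right hQinv (by positivity)
    _ = (K / a ^ 2) * ((gs d k N).card : ℝ) := by
        rw [hK]
        push_cast
        ring
    _ ≤ (1 / a) * ((gs d k N).card : ℝ) := by
        apply mul_le_mul_of_nonneg_right _ hg0
        rw [div_le_div_iff₀ (by positivity) ha0, one_mul, sq]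
        exact mul_le_mul_of_nonneg_right hKa ha0.le

end Pool.Agent.Lib.MP_602b76_co_Gen
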