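import Pool.Agent.Lib.MP_602b76_co_Gen.Dens

/-!
# Almost all generating sets are not nested
-/

namespace Pool.Agent.Lib.MP_602b76_co_Gen

open Finset Pool.Agent.Lib.MP_602b76_co_Never

/-- The box `[-N, N] ^ d`. -/
noncomputable def bx (d N : ℕ) : Finset (Fin d → ℤ) :=
  Fintype.piFinset (fun _ => Finset.Icc (-(N : ℤ)) N)

open Classical in
/-- The `k`-element generating sets in the box without the origin. -/
noncomputable def gs (d k N : ℕ) : Finset (Finset (Fin d → ℤ)) :=
  (((bx d N).erase 0).powersetCard k).filter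
    (fun U => AddSubgroup.closure (U : Set (Fin d → ℤ)) = ⊤)

open Classical in
theorem mem_gs {d k N : ℕ} {U : Finset (Fin d → ℤ)} : U ∈ gs d k N ↔
    (U ⊆ (bx d N).erase 0 ∧ U.card = k) ∧
      AddSubgroup.closure (U : Set (Fin d → ℤ)) = ⊤ := by
  unfold gs
  rw [mem_filter, mem_powersetCard]

theorem mem_tup_iff {d k N : ℕ} {u : Fin k → Fin d → ℤ} :
    u ∈ tup d k N ↔ ∀ i, u i ∈ bx d N := by
  unfold tup bx
  rw [Fintype.mem_piFinset]

theorem exists_list {d k : ℕ} {U : Finset (Fin d → ℤ)} (hU : U.card = k) :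
    ∃ u : Fin k → Fin d → ℤ, Finset.univ.image u = U := by
  classical
  refine ⟨fun i => ((U.equivFinOfCardEq hU).symm i).1, ?_⟩
  ext x
  rw [mem_image]
  constructor
  · rintro ⟨i, _, rfl⟩
    exact ((U.equivFinOfCardEq hU).symm i).2
  · intro hx
    exact ⟨U.equivFinOfCardEq hU ⟨x, hx⟩, mem_univ _, by simp⟩

open Classical in
/-- Nonzero, distinct generating tuples are not rarer than the sets, up to a constant. -/
theorem tup_le_sets {d k N : ℕ} :
    ((tup d k N).filter (fun u => (Function.Injective u ∧ ∀ i, u i ≠ 0) ∧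
      AddSubgroup.closure (Set.range u) = ⊤)).card ≤ k ^ k * (gs d k N).card := by
  apply Finset.card_le_mul_card_image_of_maps_to (f := fun u => Finset.univ.image u)
  · intro u hu
    rw [mem_filter, mem_tup_iff] at hu
    obtain ⟨hu1, ⟨hinj, hne⟩, hgen⟩ := hu
    rw [mem_gs]
    refine ⟨⟨?_, ?_⟩, ?_⟩
    · intro x hx
      rw [mem_image] at hx
      obtain ⟨i, _, rfl⟩ := hx
      exact mem_erase.2 ⟨hne i, hu1 i⟩
    · rw [card_image_of_injective _ hinj, card_univ, Fintype.card_fin]
    · rw [coe_image, coe_univ, Set.image_univ]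
      exact hgen
  · intro U hU
    rw [mem_gs] at hU
    calc _ ≤ (Fintype.piFinset (fun _ : Fin k => U)).card := by
          apply card_le_card
          intro u hu
          rw [mem_filter] at hu
          rw [Fintype.mem_piFinset]
          intro i
          rw [← hu.2]
          exact mem_image_of_mem _ (mem_univ i)
      _ = k ^ k := by
          rw [Fintype.card_piFinset]
          simp [hU.1.2]

open Classical in
theorem gen_split {d k N : ℕ} (hk : 0 < k) :
    ((tup d k N).filter (fun u => AddSubgroup.closure (Set.range u) = ⊤)).card ≤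
      ((tup d k N).filter (fun u => ∃ l : Fin k → ℤ, l ≠ 0 ∧ (∀ i, |l i| ≤ ((1 : ℕ) : ℤ)) ∧
        ∑ i, l i • u i = 0)).card + k ^ k * (gs d k N).card := by
  refine le_trans ?_ (Nat.add_le_add_left tup_le_sets _)
  refine le_trans (card_le_card ?_) (card_union_le _ _)
  intro u hu
  rw [mem_filter] at hu
  rw [mem_union, mem_filter, mem_filter]
  by_cases hne : ∀ i, u i ≠ 0
  · by_cases hinj : Function.Injective u
    · right
      exact ⟨hu.1, ⟨hinj, hne⟩, hu.2⟩
    · left
      rw [Function.Injective] at hinj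
      push Not at hinj
      obtain ⟨i, j, hij, hne'⟩ := hinj
      refine ⟨hu.1, Pi.single i 1 - Pi.single j 1, ?_, fun m => ?_, ?_⟩
      · intro h
        have h1 := congrFun h i
        rw [Pi.sub_apply, Pi.single_eq_same, Pi.single_eq_of_ne hne', Pi.zero_apply] at h1
        omega
      · rw [Pi.sub_apply, Pi.single_apply, Pi.single_apply]
        split_ifs <;> simp
      · simp only [Pi.sub_apply, sub_smul, Finset.sum_sub_distrib]
        rw [Finset.sum_eq_single i, Finset.sum_eq_single j, Pi.single_eq_same, Pi.single_eq_same,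
          one_smul, one_smul, hij, sub_self]
        · intro m _ hm
          rw [Pi.single_eq_of_ne hm, zero_smul]
        · intro h
          exact absurd (mem_univ j) h
        · intro m _ hm
          rw [Pi.single_eq_of_ne hm, zero_smul]
        · intro h
          exact absurd (mem_univ i) h
  · left
    push Not at hne
    obtain ⟨i, hi⟩ := hne
    refine ⟨hu.1, Pi.single i 1, ?_, fun m => ?_, ?_⟩
    · intro h
      have h1 := congrFun h i
      rw [Pi.single_eq_same, Pi.zero_apply] at h1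
      omega
    · rw [Pi.single_apply]
      split_ifs <;> simp
    · rw [Finset.sum_eq_single i, Pi.single_eq_same, one_smul, hi]
      · intro m _ hm
        rw [Pi.single_eq_of_ne hm, zero_smul]
      · intro h
        exact absurd (mem_univ i) h

/-- **Many generating sets.** -/
theorem sets_card (d k : ℕ) (hd : 0 < d) (hdk : d < k) : ∃ N2 : ℕ, ∀ N : ℕ, N2 ≤ N →
    (2 * N + 1 : ℝ) ^ (d * k) ≤ 48 * (k : ℝ) ^ k * ((gs d k N).card : ℝ) := by
  classical
  obtain ⟨N1, hN1⟩ := gen_card d k hd hdk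
  refine ⟨N1 + 48 * 3 ^ k, fun N hN => ?_⟩
  have h1 := hN1 N (by omega)
  have h2 := gen_split (d := d) (N := N) (by omega : 0 < k)
  have h3 := short_card (d := d) (k := k) (N := N) (L0 := 1)
  obtain ⟨x, hx⟩ : ∃ x, x = ((tup d k N).filter (fun u => ∃ l : Fin k → ℤ, l ≠ 0 ∧
    (∀ i, |l i| ≤ ((1 : ℕ) : ℤ)) ∧ ∑ i, l i • u i = 0)).card := ⟨_, rfl⟩
  rw [← hx] at h2 h3
  obtain ⟨y, hy⟩ : ∃ y, y = ((tup d k N).filter
    (fun u => AddSubgroup.closure (Set.range u) = ⊤)).card := ⟨_, rfl⟩
  rw [← hy] at h1 h2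
  obtain ⟨M, hM⟩ : ∃ M : ℝ, M = 2 * N + 1 := ⟨_, rfl⟩
  have hM0 : 0 < M := by rw [hM]; positivity
  have hMN : (48 : ℝ) * 3 ^ k ≤ M := by
    have h4 : 48 * 3 ^ k ≤ 2 * N + 1 := by omega
    rw [hM]
    exact_mod_cast h4
  rw [← hM] at h1 ⊢
  have hx1 : (x : ℝ) ≤ M ^ (d * k) / 48 := by
    have h4 : (x : ℝ) * M ^ d ≤ 3 ^ k * M ^ (d * k) := by
      rw [hM]
      have h5 : x * (2 * N + 1) ^ d ≤ 3 ^ k * (2 * N + 1) ^ (d * k) := h3
      exact_mod_cast h5
    have h5 : M ≤ M ^ d := le_self_pow₀ (by rw [hM]; linarith [(Nat.cast_nonneg N : (0:ℝ) ≤ N)])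
      (by omega)
    have h6 : (x : ℝ) * (48 * 3 ^ k) ≤ 3 ^ k * M ^ (d * k) :=
      le_trans (mul_le_mul_of_nonneg_left (le_trans hMN h5) (by positivity)) h4
    have h7 : (3 : ℝ) ^ k * (x * 48) ≤ 3 ^ k * M ^ (d * k) := by linarith
    have h8 := le_of_mul_le_mul_left h7 (by positivity)
    linarith
  have h4 : (y : ℝ) ≤ x + (k : ℝ) ^ k * ((gs d k N).card : ℝ) := by exact_mod_cast h2
  linarith

/-- The set `U` has an enumeration all of whose initial segments of size `n` with
`n ^ (k - d) ≤ (2 k N) ^ (d k)` are edge-optimal. -/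
def ExcS (d k N : ℕ) (U : Finset (Fin d → ℤ)) : Prop :=
  ∃ e : ℕ ≃ (Fin d → ℤ), ∀ n : ℕ, n ^ (k - d) ≤ (2 * k * N) ^ (d * k) →
    EdgeOptimal U ((range n).image e)

open Classical in
theorem exc_sets {d k N : ℕ} :
    ((gs d k N).filter (fun U => ExcS d k N U)).card ≤
      ((tup d k N).filter (fun u => Exc d k N u)).card := by
  obtain ⟨F, hF⟩ : ∃ F : Finset (Fin d → ℤ) → (Fin k → Fin d → ℤ),
      ∀ U : Finset (Fin d → ℤ), U.card = k → Finset.univ.image (F U) = U := by
    choose! F hF using fun (U : Finset (Fin d → ℤ)) (hU : U.card = k) => exists_list hU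
    exact ⟨F, hF⟩
  apply Finset.card_le_card_of_injOn F
  · intro U hU
    rw [mem_coe, mem_filter, mem_gs] at hU
    rw [mem_coe, mem_filter, mem_tup_iff]
    have h1 := hF U hU.1.1.2
    refine ⟨fun i => ?_, ?_⟩
    · have h2 : F U i ∈ Finset.univ.image (F U) := mem_image_of_mem _ (mem_univ i)
      rw [h1] at h2
      exact mem_of_mem_erase (hU.1.1.1 h2)
    · unfold Exc
      rw [h1]
      exact hU.2
  · intro U hU U' hU' h
    rw [mem_coe, mem_filter, mem_gs] at hU hU'
    rw [← hF U hU.1.1.2, ← hF U' hU'.1.1.2, h]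

open Classical in
/-- **Almost all generating sets with `k > d` elements are not nested.** -/
theorem almost_sets (d k : ℕ) (hd : 0 < d) (hdk : d < k) (η : ℝ) (hη : 0 < η) :
    ∃ N0 : ℕ, ∀ N : ℕ, N0 ≤ N → 0 < (gs d k N).card ∧
      (((gs d k N).filter (fun U => ExcS d k N U)).card : ℝ) ≤ η * ((gs d k N).card : ℝ) := by
  have hk0 : (0 : ℝ) < k := by exact_mod_cast (by omega : 0 < k)
  have hc : 0 < 48 * (k : ℝ) ^ k := by positivity
  obtain ⟨N1, h1⟩ := almost_all d k hd hdk (η / (48 * (k : ℝ) ^ k)) (by positivity)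
  obtain ⟨N2, h2⟩ := sets_card d k hd hdk
  refine ⟨N1 + N2, fun N hN => ?_⟩
  have h3 := h1 N (by omega)
  have h4 := h2 N (by omega)
  have hMp : (0 : ℝ) < (2 * N + 1 : ℝ) ^ (d * k) := by positivity
  constructor
  · by_contra h0
    have h5 : (gs d k N).card = 0 := by omega
    rw [h5, Nat.cast_zero, mul_zero] at h4
    linarith
  · have h5 : (((gs d k N).filter (fun U => ExcS d k N U)).card : ℝ) ≤
        (((tup d k N).filter (fun u => Exc d k N u)).card : ℝ) := by exact_mod_cast exc_sets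
    refine le_trans h5 (le_trans h3 ?_)
    calc η / (48 * (k : ℝ) ^ k) * (2 * N + 1 : ℝ) ^ (d * k)
        ≤ η / (48 * (k : ℝ) ^ k) * (48 * (k : ℝ) ^ k * ((gs d k N).card : ℝ)) :=
          mul_le_mul_of_nonneg_left h4 (by positivity)
      _ = η * ((gs d k N).card : ℝ) := by
          rw [← mul_assoc, div_mul_cancel₀ _ hc.ne']

end Pool.Agent.Lib.MP_602b76_co_Gen
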