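import Pool.Agent.Lib.MP_602b76_co_Gen.Span

/-!
# Many generators: tuples with a given relation after a functional
-/

namespace Pool.Agent.Lib.MP_602b76_co_Gen

open Finset

theorem shift_card {d k N D Q : ℕ} {p : Fin d → ℤ}
    (hspread : ∀ a : ℤ, |a| ≤ Q → ∃ w : Fin d → ℤ, (∀ j, |w j| ≤ D) ∧ dt p w = a)
    {l w : Fin k → ℤ} (hw : ∑ j, w j * l j = 1) {i : Fin k} {q : ℕ} (hq : 0 < q)
    (hi : |l i| = q) (hqQ : q ≤ Q + 1) :
    ((tup d k N).filter (fun u => ∑ m, l m * dt p (u m) = 0)).card * (q * (Q + 1)) ≤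
      (2 * (N + D) + 1) ^ (d * k) := by
  have hspread' : ∀ a : ℤ, ∃ w : Fin d → ℤ, |a| ≤ Q → (∀ j, |w j| ≤ D) ∧ dt p w = a := by
    intro a
    by_cases h : |a| ≤ Q
    · obtain ⟨w, hw⟩ := hspread a h
      exact ⟨w, fun _ => hw⟩
    · exact ⟨0, fun h' => absurd h' h⟩
  choose W hW using hspread'
  have hq0 : (0 : ℤ) < q := by exact_mod_cast hq
  have hqi : (q : ℤ) ∣ l i := by
    rw [← hi]
    exact abs_dvd_self _
  have hli : l i ≠ 0 := by
    intro h
    rw [h, abs_zero] at hi
    omega
  have hr : ∀ x : ℤ, |x % q| ≤ Q := by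
    intro x
    have h1 := Int.emod_nonneg x hq0.ne'
    have h2 := Int.emod_lt_of_pos x hq0
    rw [abs_of_nonneg h1]
    have : (q : ℤ) ≤ Q + 1 := by exact_mod_cast hqQ
    omega
  have ht : ∀ t ∈ range (Q + 1), |(t : ℤ)| ≤ Q := by
    intro t ht
    rw [mem_range] at ht
    rw [abs_of_nonneg (by positivity)]
    have : (t : ℤ) < Q + 1 := by exact_mod_cast ht
    omega
  obtain ⟨F, hF⟩ : ∃ F : (Fin k → Fin d → ℤ) × (ℕ × ℕ) → (Fin k → Fin d → ℤ), ∀ u c t m,
      F (u, (c, t)) m = if m = i then u m + W (t : ℤ) else u m + W ((c * w m) % q) :=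
    ⟨fun x m => if m = i then x.1 m + W (x.2.2 : ℤ) else x.1 m + W ((x.2.1 * w m) % q),
      fun _ _ _ _ => rfl⟩
  have hdom : ((tup d k N).filter (fun u => ∑ m, l m * dt p (u m) = 0)).card * (q * (Q + 1)) =
      ((tup d k N).filter (fun u => ∑ m, l m * dt p (u m) = 0) ×ˢ
        (range q ×ˢ range (Q + 1))).card := by
    rw [card_product, card_product, card_range, card_range]
  rw [hdom, ← card_tup d k (N + D)]
  -- the congruence
  have hcong : ∀ u : Fin k → Fin d → ℤ, ∑ m, l m * dt p (u m) = 0 → ∀ c t : ℕ,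
      (q : ℤ) ∣ (∑ m ∈ (Finset.univ : Finset (Fin k)).erase i, l m * dt p (F (u, (c, t)) m)) - c := by
    intro u hu c t
    rw [← Finset.add_sum_erase _ _ (mem_univ i)] at hu
    have hw1 := hw
    rw [← Finset.add_sum_erase _ _ (mem_univ i)] at hw1
    have h1 : ∀ m ∈ (Finset.univ : Finset (Fin k)).erase i,
        (q : ℤ) ∣ l m * dt p (F (u, (c, t)) m) - (l m * dt p (u m) + c * (w m * l m)) := by
      intro m hm
      rw [hF, if_neg (Finset.ne_of_mem_erase hm), dt_add, (hW _ (hr _)).2]
      have h2 : (q : ℤ) ∣ (c * w m) % q - c * w m := by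
        rw [Int.emod_def]
        exact ⟨-((c * w m) / q), by ring⟩
      have e : l m * (dt p (u m) + (c * w m) % q) - (l m * dt p (u m) + c * (w m * l m)) =
          l m * ((c * w m) % q - c * w m) := by ring
      rw [e]
      exact Dvd.dvd.mul_left h2 _
    have h2 := Finset.dvd_sum h1
    rw [Finset.sum_sub_distrib, Finset.sum_add_distrib, ← Finset.mul_sum] at h2
    have h3 : (q : ℤ) ∣ l i * dt p (u i) + c * (w i * l i) :=
      dvd_add (Dvd.dvd.mul_right hqi _) (Dvd.dvd.mul_left (Dvd.dvd.mul_left hqi _) _)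
    have h4 := dvd_sub h2 h3
    have e : (∑ m ∈ (Finset.univ : Finset (Fin k)).erase i, l m * dt p (F (u, (c, t)) m)) - c =
        (∑ m ∈ (Finset.univ : Finset (Fin k)).erase i, l m * dt p (F (u, (c, t)) m)) -
          (∑ m ∈ (Finset.univ : Finset (Fin k)).erase i, l m * dt p (u m) +
            c * ∑ m ∈ (Finset.univ : Finset (Fin k)).erase i, w m * l m) -
          (l i * dt p (u i) + c * (w i * l i)) := by
      have e1 : ∑ m ∈ (Finset.univ : Finset (Fin k)).erase i, l m * dt p (u m) =
        -(l i * dt p (u i)) := by linarith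
      have e2 : ∑ m ∈ (Finset.univ : Finset (Fin k)).erase i, w m * l m = 1 - w i * l i := by
        linarith
      rw [e1, e2]
      ring
    rw [e]
    exact h4
  apply Finset.card_le_card_of_injOn F
  · rintro ⟨u, c, t⟩ hp
    rw [mem_coe, mem_product, mem_product, mem_filter, mem_tup] at hp
    rw [mem_coe, mem_tup]
    intro m j
    rw [hF]
    have h1 := hp.1.1 m j
    simp only at h1
    split_ifs with hm
    · have h2 := (hW _ (ht t hp.2.2)).1 j
      rw [abs_le] at h2
      rw [Pi.add_apply]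
      push_cast
      constructor <;> omega
    · have h2 := (hW _ (hr (c * w m))).1 j
      rw [abs_le] at h2
      rw [Pi.add_apply]
      push_cast
      constructor <;> omega
  · rintro ⟨u, c, t⟩ hp ⟨u', c', t'⟩ hp' he
    rw [mem_coe, mem_product, mem_product, mem_filter] at hp hp'
    simp only at hp hp'
    have h1 := hcong u hp.1.2 c t
    have h2 := hcong u' hp'.1.2 c' t'
    rw [he] at h1
    have h3 : (q : ℤ) ∣ (c' : ℤ) - c := by
      have := dvd_sub h1 h2
      have e : ∀ s : ℤ, s - c - (s - c') = c' - c := fun s => by ring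
      rwa [e] at this
    have hcc : c = c' := by
      have h4 : (c : ℤ) < q := by exact_mod_cast mem_range.1 hp.2.1
      have h5 : (c' : ℤ) < q := by exact_mod_cast mem_range.1 hp'.2.1
      obtain ⟨z, hz⟩ := h3
      have hz0 : z = 0 := by
        by_contra hne
        rcases lt_or_gt_of_ne hne with hlt | hgt
        · nlinarith
        · nlinarith
      rw [hz0, mul_zero] at hz
      omega
    subst hcc
    have huj : ∀ m, m ≠ i → u m = u' m := by
      intro m hm
      have h4 := congrFun he m
      rw [hF, hF, if_neg hm, if_neg hm] at h4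
      exact add_right_cancel h4
    have hui : dt p (u i) = dt p (u' i) := by
      have h4 := hp.1.2
      have h5 := hp'.1.2
      rw [← Finset.add_sum_erase _ _ (mem_univ i)] at h4 h5
      have h6 : ∑ m ∈ (Finset.univ : Finset (Fin k)).erase i, l m * dt p (u m) =
          ∑ m ∈ (Finset.univ : Finset (Fin k)).erase i, l m * dt p (u' m) :=
        Finset.sum_congr rfl (fun m hm => by rw [huj m (Finset.ne_of_mem_erase hm)])
      have h7 : l i * dt p (u i) = l i * dt p (u' i) := by linarith
      exact mul_left_cancel₀ hli h7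
    have h8 := congrFun he i
    rw [hF, hF, if_pos rfl, if_pos rfl] at h8
    have htt : t = t' := by
      have h9 := congrArg (dt p) h8
      rw [dt_add, dt_add, (hW _ (ht t hp.2.2)).2, (hW _ (ht t' hp'.2.2)).2, hui] at h9
      have : (t : ℤ) = t' := by linarith
      exact_mod_cast this
    subst htt
    have : u = u' := by
      funext m
      rcases eq_or_ne m i with rfl | hm
      · exact add_right_cancel h8
      · exact huj m hm
    rw [this]

/-- Vectors orthogonal to a functional with spread values. -/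
theorem orth_spread {d N D Q : ℕ} {p : Fin d → ℤ}
    (hspread : ∀ a : ℤ, |a| ≤ Q → ∃ w : Fin d → ℤ, (∀ j, |w j| ≤ D) ∧ dt p w = a) :
    (orth p N).card * (Q + 1) ≤ (2 * (N + D) + 1) ^ d := by
  have h1 := shift_card (k := 1) (N := N) hspread (l := fun _ => 1) (w := fun _ => 1)
    (by simp) (i := 0) (q := 1) one_pos (by simp) (by omega)
  rw [one_mul, mul_one] at h1
  refine le_trans (Nat.mul_le_mul_right _ ?_) h1
  apply Finset.card_le_card_of_injOn (fun v _ => v)
  · intro v hv
    rw [mem_coe] at hv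
    unfold orth at hv
    rw [mem_filter, Fintype.mem_piFinset] at hv
    rw [mem_coe, mem_filter, mem_tup]
    refine ⟨fun m j => mem_Icc.1 (hv.1 j), ?_⟩
    simp only [Finset.univ_unique, Finset.sum_singleton, one_mul]
    exact hv.2
  · intro v _ v' _ h
    exact congrFun h 0

end Pool.Agent.Lib.MP_602b76_co_Gen
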