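import Pool.Agent.Lib.MP_602b76_co_Gen.Count

/-!
# Many generators: functionals and independent columns
-/

namespace Pool.Agent.Lib.MP_602b76_co_Gen

open Finset

/-- The dot product. -/
def dt {d : ℕ} (p x : Fin d → ℤ) : ℤ := ∑ j, p j * x j

theorem dt_add {d : ℕ} (p x y : Fin d → ℤ) : dt p (x + y) = dt p x + dt p y := by
  unfold dt
  rw [← Finset.sum_add_distrib]
  exact Finset.sum_congr rfl (fun j _ => by rw [Pi.add_apply]; ring)

theorem dt_smul {d : ℕ} (p : Fin d → ℤ) (a : ℤ) (x : Fin d → ℤ) : dt p (a • x) = a * dt p x := by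
  unfold dt
  rw [Finset.mul_sum]
  exact Finset.sum_congr rfl (fun j _ => by rw [Pi.smul_apply, smul_eq_mul]; ring)

theorem dt_sum {d : ℕ} {ι : Type*} (s : Finset ι) (p : Fin d → ℤ) (x : ι → Fin d → ℤ) :
    dt p (∑ i ∈ s, x i) = ∑ i ∈ s, dt p (x i) := by
  classical
  induction s using Finset.induction_on with
  | empty => simp [dt]
  | insert i s hi ih => rw [Finset.sum_insert hi, Finset.sum_insert hi, dt_add, ih]

theorem exists_primitive {d : ℕ} {l : Fin d → ℤ} (hl : l ≠ 0) :
    ∃ (g : ℤ) (p s : Fin d → ℤ), g ≠ 0 ∧ l = g • p ∧ ∑ j, s j * p j = 1 := by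
  obtain ⟨g, hg⟩ := (IsPrincipalIdealRing.principal (Ideal.span (Set.range l))).principal
  rw [Ideal.submodule_span_eq] at hg
  have hgl : ∀ j, g ∣ l j := by
    intro j
    rw [← Ideal.mem_span_singleton, ← hg]
    exact Ideal.subset_span ⟨j, rfl⟩
  have hg0 : g ≠ 0 := by
    intro h0
    apply hl
    funext j
    have := hgl j
    rw [h0, zero_dvd_iff] at this
    exact this
  have h1 : g ∈ Ideal.span (Set.range l) := by
    rw [hg]
    exact Ideal.mem_span_singleton_self g
  obtain ⟨s, hs⟩ := (Ideal.mem_span_range_iff_exists_fun).1 h1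
  choose p hp using hgl
  refine ⟨g, p, s, hg0, ?_, ?_⟩
  · funext j
    rw [Pi.smul_apply, smul_eq_mul]
    exact hp j
  · have h2 : g * ∑ j, s j * p j = g * 1 := by
      rw [mul_one, Finset.mul_sum]
      conv_rhs => rw [← hs]
      apply Finset.sum_congr rfl
      intro j _
      rw [hp j]
      ring
    exact mul_left_cancel₀ hg0 h2

/-- A primitive functional which vanishes on `e < d` given vectors. -/
theorem exists_annihilator {d e : ℕ} (h : e < d) (c : Fin e → Fin d → ℤ) :
    ∃ p s : Fin d → ℤ, (∀ m, dt p (c m) = 0) ∧ ∑ j, s j * p j = 1 := by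
  obtain ⟨M, hM⟩ : ∃ M : Matrix (Fin d) (Fin d) ℤ, ∀ i j, M i j =
      if hi : (i : ℕ) < e then c ⟨i, hi⟩ j else 0 := ⟨fun i j => _, fun i j => rfl⟩
  have hdet : M.det = 0 := by
    apply Matrix.det_eq_zero_of_row_eq_zero ⟨e, h⟩
    intro j
    rw [hM]
    simp
  obtain ⟨v, hv0, hv⟩ := Matrix.exists_mulVec_eq_zero_iff.2 hdet
  obtain ⟨g, p, s, hg, hvp, hs⟩ := exists_primitive hv0
  refine ⟨p, s, fun m => ?_, hs⟩
  have h1 := congrFun hv ⟨m, by omega⟩
  rw [Matrix.mulVec, dotProduct] at h1
  have h2 : g * dt p (c m) = 0 := by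
    unfold dt
    rw [Finset.mul_sum]
    rw [Pi.zero_apply] at h1
    rw [← h1]
    apply Finset.sum_congr rfl
    intro j _
    rw [hM, dif_pos m.2, hvp, Pi.smul_apply, smul_eq_mul]
    ring
  exact (mul_eq_zero.1 h2).resolve_left hg

/-- The columns with rational entries. -/
def cq {d e : ℕ} (c : Fin e → Fin d → ℤ) : Fin e → Fin d → ℚ := fun m j => (c m j : ℚ)

theorem full {d e : ℕ} (hd : e + 1 = d) {c : Fin e → Fin d → ℤ}
    (hc : LinearIndependent ℚ (cq c)) {p : Fin d → ℤ} (hp : p ≠ 0) (h0 : ∀ m, dt p (c m) = 0)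
    (x : Fin d → ℚ) (hx : ∑ j, (p j : ℚ) * x j = 0) :
    ∃ t : Fin e → ℚ, ∀ j, x j = ∑ m, t m * c m j := by
  obtain ⟨P, hP⟩ : ∃ P : (Fin d → ℚ) →ₗ[ℚ] ℚ, ∀ y, P y = ∑ j, (p j : ℚ) * y j := by
    refine ⟨∑ j, (p j : ℚ) • LinearMap.proj j, fun y => ?_⟩
    simp [LinearMap.sum_apply]
  have hP0 : P ≠ 0 := by
    intro h
    apply hp
    funext j
    have h1 : P (Pi.single j 1) = 0 := by rw [h]; rfl
    rw [hP, Finset.sum_eq_single j] at h1
    · simpa using h1
    · intro i _ hi
      simp [hi]
    · intro hj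
      exact absurd (mem_univ j) hj
  have hker : Module.finrank ℚ (LinearMap.ker P) = e := by
    have h1 := LinearMap.finrank_range_add_finrank_ker P
    have h2 : Module.finrank ℚ (LinearMap.range P) = 1 := by
      rw [LinearMap.range_eq_top.2 (LinearMap.surjective hP0), finrank_top, Module.finrank_self]
    rw [h2, Module.finrank_fin_fun] at h1
    omega
  have hspan : Submodule.span ℚ (Set.range (cq c)) ≤ LinearMap.ker P := by
    rw [Submodule.span_le]
    rintro _ ⟨m, rfl⟩
    rw [SetLike.mem_coe, LinearMap.mem_ker, hP]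
    have h1 := h0 m
    unfold dt at h1
    have h2 : ((∑ j, p j * c m j : ℤ) : ℚ) = 0 := by rw [h1]; simp
    push_cast at h2
    exact h2
  have heq : Submodule.span ℚ (Set.range (cq c)) = LinearMap.ker P := by
    apply Submodule.eq_of_le_of_finrank_le hspan
    rw [hker, finrank_span_eq_card hc, Fintype.card_fin]
  have hxS : x ∈ Submodule.span ℚ (Set.range (cq c)) := by
    rw [heq, LinearMap.mem_ker, hP]
    exact hx
  obtain ⟨t, ht⟩ := (Submodule.mem_span_range_iff_exists_fun ℚ).1 hxS
  refine ⟨t, fun j => ?_⟩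
  rw [← ht, Finset.sum_apply]
  apply Finset.sum_congr rfl
  intro m _
  rw [Pi.smul_apply, smul_eq_mul]
  rfl

/-- **Spread.** All the values up to `N' H` are taken on a box of side `d N'`. -/
theorem spread {d e N N' : ℕ} (hd : e + 1 = d) (hN : N ≤ N') {c : Fin e → Fin d → ℤ}
    (hc : LinearIndependent ℚ (cq c)) (hcN : ∀ m j, |c m j| ≤ N) {p s : Fin d → ℤ}
    (h0 : ∀ m, dt p (c m) = 0) (hs : ∑ j, s j * p j = 1) {H : ℕ} {j0 : Fin d}
    (hj0 : |p j0| = H) (hH : 0 < H) (a : ℤ) (ha : |a| ≤ N' * H) :
    ∃ w : Fin d → ℤ, (∀ j, |w j| ≤ d * N') ∧ dt p w = a := by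
  have hp : p ≠ 0 := by
    intro h
    rw [h, Pi.zero_apply, abs_zero] at hj0
    omega
  have hpj : (p j0 : ℚ) ≠ 0 := by
    intro h
    have : p j0 = 0 := by exact_mod_cast h
    rw [this, abs_zero] at hj0
    omega
  obtain ⟨x, hx⟩ : ∃ x : Fin d → ℚ, x = Pi.single j0 ((a : ℚ) / p j0) := ⟨_, rfl⟩
  have hx1 : ∑ j, (p j : ℚ) * x j = a := by
    rw [Finset.sum_eq_single j0]
    · rw [hx, Pi.single_eq_same]
      field_simp
    · intro j _ hj
      rw [hx, Pi.single_eq_of_ne hj, mul_zero]
    · intro h
      exact absurd (mem_univ j0) h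
  have hx2 : ∀ j, |x j| ≤ N' := by
    intro j
    rcases eq_or_ne j j0 with rfl | hj
    · rw [hx, Pi.single_eq_same, abs_div]
      have h1 : |(p j : ℚ)| = H := by
        have : ((|p j| : ℤ) : ℚ) = H := by rw [hj0]; simp
        rwa [Int.cast_abs] at this
      rw [h1, div_le_iff₀ (by exact_mod_cast hH)]
      have h2 : ((|a| : ℤ) : ℚ) ≤ ((N' * H : ℤ) : ℚ) := by exact_mod_cast ha
      rw [Int.cast_abs] at h2
      push_cast at h2
      exact h2
    · rw [hx, Pi.single_eq_of_ne hj, abs_zero]
      positivity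
  obtain ⟨t, ht⟩ := full hd hc hp h0 (fun j => ((a * s j : ℤ) : ℚ) - x j) (by
    have h1 : ∑ j, (p j : ℚ) * (((a * s j : ℤ) : ℚ) - x j) =
        ((a * ∑ j, s j * p j : ℤ) : ℚ) - ∑ j, (p j : ℚ) * x j := by
      push_cast
      rw [Finset.mul_sum, ← Finset.sum_sub_distrib]
      apply Finset.sum_congr rfl
      intro j _
      ring
    rw [h1, hs, hx1]
    push_cast
    ring)
  refine ⟨fun j => a * s j - ∑ m, ⌊t m⌋ * c m j, fun j => ?_, ?_⟩
  · have h1 := ht j
    have h2 : (((a * s j - ∑ m, ⌊t m⌋ * c m j : ℤ)) : ℚ) =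
        x j + ∑ m, (t m - ⌊t m⌋) * c m j := by
      push_cast
      simp only [sub_mul, Finset.sum_sub_distrib]
      push_cast at h1
      linarith
    have h3 : |(((a * s j - ∑ m, ⌊t m⌋ * c m j : ℤ)) : ℚ)| ≤ N' + e * N' := by
      rw [h2]
      refine le_trans (abs_add_le _ _) (add_le_add (hx2 j) ?_)
      refine le_trans (Finset.abs_sum_le_sum_abs _ _) ?_
      calc ∑ m, |(t m - ⌊t m⌋) * (c m j : ℚ)| ≤ ∑ _m : Fin e, (N' : ℚ) := by
            apply Finset.sum_le_sum
            intro m _
            rw [abs_mul]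
            have g1 : |t m - ⌊t m⌋| ≤ 1 := by
              rw [abs_of_nonneg (by linarith [Int.floor_le (t m)])]
              linarith [Int.lt_floor_add_one (t m)]
            have g2 : |(c m j : ℚ)| ≤ N' := by
              have : ((|c m j| : ℤ) : ℚ) ≤ N' := by
                have g3 : |c m j| ≤ (N' : ℤ) := le_trans (hcN m j) (by exact_mod_cast hN)
                exact_mod_cast g3
              rwa [Int.cast_abs] at this
            calc |t m - ⌊t m⌋| * |(c m j : ℚ)| ≤ 1 * N' :=
                  mul_le_mul g1 g2 (abs_nonneg _) zero_le_one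
              _ = N' := one_mul _
        _ = e * N' := by
          rw [Finset.sum_const, card_univ, Fintype.card_fin, nsmul_eq_mul]
    have h4 : (N' : ℚ) + e * N' = ((d * N' : ℤ) : ℚ) := by
      rw [← hd]
      push_cast
      ring
    rw [h4] at h3
    have h5 : ((|a * s j - ∑ m, ⌊t m⌋ * c m j| : ℤ) : ℚ) ≤ ((d * N' : ℤ) : ℚ) := by
      rw [Int.cast_abs]
      exact h3
    exact_mod_cast h5
  · have h1 : (fun j => a * s j - ∑ m, ⌊t m⌋ * c m j) = a • s + ∑ m, (-⌊t m⌋) • c m := by
      funext j
      simp only [Pi.add_apply, Pi.smul_apply, smul_eq_mul, Finset.sum_apply, neg_mul,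
        Finset.sum_neg_distrib]
      ring
    rw [h1, dt_add, dt_smul, dt_sum]
    have h2 : dt p s = 1 := by
      unfold dt
      rw [← hs]
      exact Finset.sum_congr rfl (fun j _ => mul_comm _ _)
    have h3 : ∑ m, dt p ((-⌊t m⌋) • c m) = 0 := by
      apply Finset.sum_eq_zero
      intro m _
      rw [dt_smul, h0, mul_zero]
    rw [h2, h3]
    ring

/-! ## Dependent columns -/

theorem orth_trivial {d : ℕ} {p : Fin d → ℤ} (hp : p ≠ 0) (N : ℕ) :
    (orth p N).card * (2 * N + 1) ≤ (2 * N + 1) ^ d := by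
  obtain ⟨i, hi⟩ := Function.ne_iff.1 hp
  rw [Pi.zero_apply] at hi
  have h1 : (Fintype.piFinset (fun _ : Fin d => Finset.Icc (-(N : ℤ)) N)).card =
      (2 * N + 1) ^ d := by
    rw [Fintype.card_piFinset]
    simp only [Int.card_Icc, Finset.prod_const, card_univ, Fintype.card_fin]
    congr 1
    omega
  have h2 : (Finset.Icc (-(N : ℤ)) N).card = 2 * N + 1 := by
    rw [Int.card_Icc]
    omega
  rw [← h1]
  conv_lhs => rw [← h2]
  rw [← card_product]
  apply Finset.card_le_card_of_injOn (fun q : (Fin d → ℤ) × ℤ => Function.update q.1 i q.2)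
  · rintro ⟨v, z⟩ hq
    rw [mem_coe, mem_product] at hq
    unfold orth at hq
    rw [mem_filter, Fintype.mem_piFinset] at hq
    rw [mem_coe, Fintype.mem_piFinset]
    intro j
    rcases eq_or_ne j i with rfl | hj
    · simp only [Function.update_self]
      exact hq.2
    · simp only [Function.update_of_ne hj]
      exact hq.1.1 j
  · rintro ⟨v, z⟩ hq ⟨v', z'⟩ hq' he
    rw [mem_coe, mem_product] at hq hq'
    unfold orth at hq hq'
    rw [mem_filter] at hq hq'
    simp only at he
    have hz : z = z' := by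
      have := congrFun he i
      simpa using this
    have hvj : ∀ j, j ≠ i → v j = v' j := by
      intro j hj
      have := congrFun he j
      simpa [Function.update_of_ne hj] using this
    have h4 := hq.1.2
    have h5 := hq'.1.2
    simp only at h4 h5
    rw [← Finset.add_sum_erase _ _ (mem_univ i)] at h4 h5
    have h6 : ∑ j ∈ (Finset.univ : Finset (Fin d)).erase i, p j * v j =
        ∑ j ∈ (Finset.univ : Finset (Fin d)).erase i, p j * v' j :=
      Finset.sum_congr rfl (fun j hj => by rw [hvj j (Finset.ne_of_mem_erase hj)])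
    have h7 : p i * v i = p i * v' i := by linarith
    have hvi := mul_left_cancel₀ hi h7
    have : v = v' := by
      funext j
      rcases eq_or_ne j i with rfl | hj
      · exact hvi
      · exact hvj j hj
    rw [this, hz]

theorem cq_cons {d e : ℕ} (x : Fin d → ℤ) (c : Fin e → Fin d → ℤ) :
    cq (Fin.cons x c : Fin (e + 1) → Fin d → ℤ) = Fin.cons (fun j => (x j : ℚ)) (cq c) := by
  funext m
  refine Fin.cases ?_ (fun m => ?_) m
  · rfl
  · rfl

open Classical in
/-- **Few dependent tuples.** -/
theorem dep_card (d N : ℕ) : ∀ e : ℕ, e ≤ d →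
    ((tup d e N).filter (fun c => ¬ LinearIndependent ℚ (cq c))).card * (2 * N + 1) ≤
      e * (2 * N + 1) ^ (d * e) := by
  intro e
  induction e with
  | zero =>
    intro _
    have : (tup d 0 N).filter (fun c => ¬ LinearIndependent ℚ (cq c)) = ∅ := by
      rw [Finset.filter_eq_empty_iff]
      intro c _
      rw [not_not]
      exact linearIndependent_empty_type
    rw [this]
    simp
  | succ e ih =>
    intro hed
    have ih' := ih (by omega)
    obtain ⟨M, hM⟩ : ∃ M, M = 2 * N + 1 := ⟨_, rfl⟩
    obtain ⟨V, hV⟩ : ∃ V : Finset (Fin d → ℤ),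
      V = Fintype.piFinset (fun _ => Finset.Icc (-(N : ℤ)) N) := ⟨_, rfl⟩
    have hVc : V.card = M ^ d := by
      rw [hV, hM, Fintype.card_piFinset]
      simp only [Int.card_Icc, Finset.prod_const, card_univ, Fintype.card_fin]
      congr 1
      omega
    choose p s hp0 hps using fun c : Fin e → Fin d → ℤ => exists_annihilator (by omega : e < d) c
    have hpne : ∀ c, p c ≠ 0 := by
      intro c h
      have := hps c
      rw [h] at this
      simp at this
    -- the map to head and tail
    have h1 : ((tup d (e + 1) N).filter (fun c => ¬ LinearIndependent ℚ (cq c))).card ≤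
        (V ×ˢ (tup d e N).filter (fun c => ¬ LinearIndependent ℚ (cq c))).card +
          ((tup d e N).sigma (fun c => orth (p c) N)).card := by
      have hsub : (tup d (e + 1) N).filter (fun c => ¬ LinearIndependent ℚ (cq c)) ⊆
          ((V ×ˢ (tup d e N).filter (fun c => ¬ LinearIndependent ℚ (cq c))).image
            (fun q => (Fin.cons q.1 q.2 : Fin (e + 1) → Fin d → ℤ))) ∪
          (((tup d e N).sigma (fun c => orth (p c) N)).image
            (fun q => (Fin.cons q.2 q.1 : Fin (e + 1) → Fin d → ℤ))) := by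
        intro c hc
        rw [mem_filter, mem_tup] at hc
        have hx : c 0 ∈ V := by
          rw [hV, Fintype.mem_piFinset]
          exact fun j => mem_Icc.2 (hc.1 0 j)
        have ht : Fin.tail c ∈ tup d e N := by
          rw [mem_tup]
          exact fun m j => hc.1 m.succ j
        have hcc : c = Fin.cons (c 0) (Fin.tail c) := (Fin.cons_self_tail c).symm
        rw [mem_union, mem_image, mem_image]
        by_cases hd' : LinearIndependent ℚ (cq (Fin.tail c))
        · right
          refine ⟨⟨Fin.tail c, c 0⟩, ?_, hcc.symm⟩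
          rw [mem_sigma]
          refine ⟨ht, ?_⟩
          unfold orth
          rw [mem_filter]
          refine ⟨by rw [← hV]; exact hx, ?_⟩
          have h2 := hc.2
          rw [hcc, cq_cons, linearIndependent_finCons] at h2
          have h3 : (fun j => ((c 0 j : ℤ) : ℚ)) ∈
              Submodule.span ℚ (Set.range (cq (Fin.tail c))) := by
            by_contra hcon
            exact h2 ⟨hd', hcon⟩
          obtain ⟨t, ht'⟩ := (Submodule.mem_span_range_iff_exists_fun ℚ).1 h3
          have h4 : ((∑ j, p (Fin.tail c) j * c 0 j : ℤ) : ℚ) = 0 := by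
            push_cast
            have h5 : ∀ j, ((c 0 j : ℤ) : ℚ) = ∑ m, t m * (Fin.tail c m j : ℚ) := by
              intro j
              have := congrFun ht' j
              rw [Finset.sum_apply] at this
              rw [← this]
              rfl
            simp only [h5, Finset.mul_sum]
            rw [Finset.sum_comm]
            apply Finset.sum_eq_zero
            intro m _
            have h6 := hp0 (Fin.tail c) m
            unfold dt at h6
            have h7 : ((∑ j, p (Fin.tail c) j * Fin.tail c m j : ℤ) : ℚ) = 0 := by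
              rw [h6]
              simp
            push_cast at h7
            have h8 : ∑ j, ((p (Fin.tail c) j : ℤ) : ℚ) * (t m * (Fin.tail c m j : ℚ)) =
                t m * ∑ j, ((p (Fin.tail c) j : ℤ) : ℚ) * (Fin.tail c m j : ℚ) := by
              rw [Finset.mul_sum]
              exact Finset.sum_congr rfl (fun j _ => by ring)
            rw [h8, h7, mul_zero]
          exact_mod_cast h4
        · left
          refine ⟨(c 0, Fin.tail c), ?_, hcc.symm⟩
          rw [mem_product, mem_filter]
          exact ⟨hx, ht, hd'⟩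
      refine le_trans (card_le_card hsub) (le_trans (card_union_le _ _) ?_)
      exact add_le_add card_image_le card_image_le
    rw [card_product, hVc, card_sigma] at h1
    have h2 : (∑ c ∈ tup d e N, (orth (p c) N).card) * M ≤ M ^ (d * e) * M ^ d := by
      rw [Finset.sum_mul]
      calc ∑ c ∈ tup d e N, (orth (p c) N).card * M ≤ ∑ _c ∈ tup d e N, M ^ d := by
            apply Finset.sum_le_sum
            intro c _
            rw [hM]
            exact orth_trivial (hpne c) N
        _ = M ^ (d * e) * M ^ d := by rw [Finset.sum_const, smul_eq_mul, card_tup, hM]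
    rw [← hM] at ih' ⊢
    calc ((tup d (e + 1) N).filter (fun c => ¬ LinearIndependent ℚ (cq c))).card * M
        ≤ (M ^ d * ((tup d e N).filter (fun c => ¬ LinearIndependent ℚ (cq c))).card +
          ∑ c ∈ tup d e N, (orth (p c) N).card) * M := Nat.mul_le_mul_right _ h1
      _ = M ^ d * (((tup d e N).filter (fun c => ¬ LinearIndependent ℚ (cq c))).card * M) +
          (∑ c ∈ tup d e N, (orth (p c) N).card) * M := by ring
      _ ≤ M ^ d * (e * M ^ (d * e)) + M ^ (d * e) * M ^ d :=
          add_le_add (Nat.mul_le_mul_left _ ih') h2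
      _ = (e + 1) * M ^ (d * (e + 1)) := by
        rw [mul_add, mul_one, pow_add]
        ring

end Pool.Agent.Lib.MP_602b76_co_Gen
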