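import Pool.Agent.Lib.MP_602b76_co_Gen.Lift

/-!
# Many generators: from one cube to the next
-/

namespace Pool.Agent.Lib.MP_602b76_co_Gen

open Finset Pool.Agent.Lib.MP_602b76_co_Plane Pool.Agent.Lib.MP_602b76_co_Far

/-- A decreasing sequence of natural numbers starting below `2 ^ j` has a slow step or vanishes
before the time `q * j`. -/
theorem halving {y : ℕ → ℕ} (hy : Antitone y) {q j : ℕ} (hq : 0 < q) (h0 : y 0 < 2 ^ j) :
    ∃ ρ ≤ q * j, y ρ = 0 ∨ q * y ρ ≤ q * y (ρ + 1) + y ρ := by
  by_contra hcon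
  push Not at hcon
  have key : ∀ i ≤ j, 2 ^ i * y (q * i) ≤ y 0 := by
    intro i
    induction i with
    | zero => intro _; simp
    | succ i ih =>
      intro hi
      have h1 := ih (by omega)
      have h2 : ∀ s ≤ q, s * y (q * i + q) + q * y (q * i + s) ≤ q * y (q * i) := by
        intro s
        induction s with
        | zero => intro _; simp
        | succ s ihs =>
          intro hs
          have g1 := ihs (by omega)
          have hle : q * i + s ≤ q * j := by
            have : q * (i + 1) ≤ q * j := Nat.mul_le_mul_left _ hi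
            rw [Nat.mul_succ] at this
            omega
          have g2 := (hcon (q * i + s) hle).2
          have g3 : y (q * i + q) ≤ y (q * i + s) := hy (by omega)
          have e1 : (s + 1) * y (q * i + q) = s * y (q * i + q) + y (q * i + q) := by ring
          have e2 : q * i + (s + 1) = q * i + s + 1 := by ring
          rw [e1, e2]
          omega
      have h3 := h2 q le_rfl
      have e3 : q * (i + 1) = q * i + q := by ring
      have h4 : 2 * y (q * i + q) ≤ y (q * i) := by
        have : q * (2 * y (q * i + q)) ≤ q * y (q * i) := by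
          have e : q * (2 * y (q * i + q)) = q * y (q * i + q) + q * y (q * i + q) := by ring
          omega
        exact Nat.le_of_mul_le_mul_left this hq
      rw [e3, pow_succ]
      calc 2 ^ i * 2 * y (q * i + q) = 2 ^ i * (2 * y (q * i + q)) := by ring
        _ ≤ 2 ^ i * y (q * i) := Nat.mul_le_mul_left _ h4
        _ ≤ y 0 := h1
  have h1 := key j le_rfl
  have h2 := (hcon (q * j) le_rfl).1
  have h3 : 2 ^ j * 1 ≤ 2 ^ j * y (q * j) := Nat.mul_le_mul_left _ (by omega)
  omega

variable {A : Type*} [AddCommGroup A] [DecidableEq A] {k : ℕ} {u : Fin k → A} {a : A} {L : ℕ}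

/-- The cube of side `m + 2 ρ` around the cube of side `m`. -/
noncomputable def nb (k m ρ : ℕ) : Finset (Fin k → ℤ) := box (fun _ => -(ρ : ℤ)) (m + 2 * ρ)

theorem mem_nb {m ρ : ℕ} {x : Fin k → ℤ} :
    x ∈ nb k m ρ ↔ ∀ i, -(ρ : ℤ) ≤ x i ∧ x i < m + ρ := by
  unfold nb
  rw [mem_box]
  constructor
  · intro h i
    have := h i
    push_cast at this
    constructor <;> omega
  · intro h i
    have := h i
    push_cast
    constructor <;> omega

theorem nb_mono {m ρ ρ' : ℕ} (h : ρ ≤ ρ') : nb k m ρ ⊆ nb k m ρ' := by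
  intro x hx
  rw [mem_nb] at hx ⊢
  intro i
  have := hx i
  constructor <;> omega

theorem ee_le (i j : Fin k) : 0 ≤ (ee i : Fin k → ℤ) j ∧ (ee i : Fin k → ℤ) j ≤ 1 := by
  unfold ee
  rcases eq_or_ne j i with rfl | hj
  · simp
  · rw [Pi.single_eq_of_ne hj]
    simp

theorem nb_step {m ρ : ℕ} : ∀ x ∈ nb k m ρ, ∀ i, x + ee i ∈ nb k m (ρ + 1) ∧
    x - ee i ∈ nb k m (ρ + 1) := by
  intro x hx i
  rw [mem_nb] at hx
  rw [mem_nb, mem_nb]
  constructor
  · intro j
    have h1 := hx j
    have h2 := ee_le i j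
    rw [Pi.add_apply]
    push_cast
    constructor <;> omega
  · intro j
    have h1 := hx j
    have h2 := ee_le i j
    rw [Pi.sub_apply]
    push_cast
    constructor <;> omega

theorem nb_diff {m ρ : ℕ} (h : m + 2 * ρ < L) :
    ∀ x ∈ nb k m ρ, ∀ y ∈ nb k m ρ, ∀ i, |x i - y i| + 1 < L := by
  intro x hx y hy i
  have h1 := mem_nb.1 hx i
  have h2 := mem_nb.1 hy i
  have h3 : |x i - y i| ≤ (m : ℤ) + 2 * ρ - 1 := by
    rw [abs_le]
    constructor <;> omega
  have h4 : (m : ℤ) + 2 * ρ < L := by exact_mod_cast h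
  omega

omit [AddCommGroup A] in
theorem image_box_shift [AddCommGroup A] (t : Fin k → ℤ) (N : ℕ) :
    (box t N).image (ph u a) = (box 0 N).image (ph u (ph u a t)) := by
  ext y
  rw [mem_image, mem_image]
  constructor
  · rintro ⟨x, hx, rfl⟩
    refine ⟨x - t, ?_, ?_⟩
    · rw [mem_box] at hx ⊢
      intro i
      have := hx i
      simp only [Pi.sub_apply, Pi.zero_apply]
      constructor <;> omega
    · rw [ph_shift, add_sub_cancel]
  · rintro ⟨x, hx, rfl⟩
    refine ⟨t + x, ?_, (ph_shift t x).symm⟩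
    rw [mem_box] at hx ⊢
    intro i
    have := hx i
    simp only [Pi.add_apply, Pi.zero_apply] at this ⊢
    constructor <;> omega

theorem card_cube (hL : Sep u L) {N : ℕ} (hN : N ≤ L) :
    ((box 0 N).image (ph u a)).card = N ^ k := by
  rw [card_image_of_injOn, card_box]
  intro x hx y hy hxy
  apply ph_inj hL _ hxy
  intro i
  have h1 := mem_box.1 (mem_coe.1 hx) i
  have h2 := mem_box.1 (mem_coe.1 hy) i
  simp only [Pi.zero_apply] at h1 h2
  rw [abs_lt]
  have : (N : ℤ) ≤ L := by exact_mod_cast hN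
  constructor <;> omega

/-! ## Small sets -/

theorem exists_cut {S : Finset A} (hne : S.Nonempty) (hS : 2 * S.card + 2 ≤ L) :
    ∃ (a : A) (T : Finset (Fin k → ℤ)), (∀ x ∈ T, ∀ y ∈ T, ∀ i, |x i - y i| + 1 < L) ∧
      (near u a S T).Nonempty ∧
      fA u (near u a S T) + fA u (S \ near u a S T) ≤ fA u S := by
  obtain ⟨a, ha⟩ := hne
  have hin : ∀ ρ, a ∈ near u a S (nb k 1 ρ) := by
    intro ρ
    rw [mem_near]
    refine ⟨ha, 0, ?_, ?_⟩
    · rw [mem_nb]
      intro i
      rw [Pi.zero_apply]
      constructor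
      · omega
      · push_cast
        omega
    · unfold ph
      simp
  have hex : ∃ ρ < S.card, (S \ near u a S (nb k 1 ρ)).card =
      (S \ near u a S (nb k 1 (ρ + 1))).card := by
    by_contra hcon
    push Not at hcon
    have hlt : ∀ ρ < S.card, (S \ near u a S (nb k 1 (ρ + 1))).card + 1 ≤
        (S \ near u a S (nb k 1 ρ)).card := by
      intro ρ hρ
      have h1 := card_le_card (sdiff_subset_sdiff (le_refl S)
        (near_mono (u := u) (a := a) S (nb_mono (m := 1) (Nat.le_succ ρ))))
      have h2 := hcon ρ hρ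
      have h1' : (S \ near u a S (nb k 1 (ρ + 1))).card ≤
        (S \ near u a S (nb k 1 ρ)).card := h1
      omega
    have h3 : ∀ ρ ≤ S.card, (S \ near u a S (nb k 1 ρ)).card + ρ ≤
        (S \ near u a S (nb k 1 0)).card := by
      intro ρ
      induction ρ with
      | zero => intro _; simp
      | succ ρ ih =>
        intro hρ
        have := ih (by omega)
        have := hlt ρ (by omega)
        omega
    have h4 := h3 S.card le_rfl
    have h5 : (S \ near u a S (nb k 1 0)).card < S.card := by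
      apply card_lt_card
      rw [ssubset_iff_of_subset sdiff_subset]
      exact ⟨a, ha, fun h => (mem_sdiff.1 h).2 (hin 0)⟩
    omega
  obtain ⟨ρ, hρ, he⟩ := hex
  refine ⟨a, nb k 1 ρ, nb_diff (by omega), ⟨a, hin ρ⟩, ?_⟩
  have h1 := cut (u := u) (a := a) (nb_mono (k := k) (m := 1) (Nat.le_succ ρ)) nb_step S
  have h2 := card_cut (u := u) (a := a) (nb_mono (k := k) (m := 1) (Nat.le_succ ρ)) S
  have h3 : (near u a S (nb k 1 (ρ + 1)) \ near u a S (nb k 1 ρ)).card = 0 := by
    have h2' : (near u a S (nb k 1 (ρ + 1)) \ near u a S (nb k 1 ρ)).card +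
      (S \ near u a S (nb k 1 (ρ + 1))).card = (S \ near u a S (nb k 1 ρ)).card := h2
    omega
  have h1' : fA u (near u a S (nb k 1 ρ)) + fA u (S \ near u a S (nb k 1 ρ)) ≤
    fA u S + 2 * k * (near u a S (nb k 1 (ρ + 1)) \ near u a S (nb k 1 ρ)).card := h1
  rw [h3, mul_zero, add_zero] at h1'
  exact h1'

theorem small_lw (hL : Sep u L) {ν : ℝ} (hν : 0 < ν) : ∀ (n : ℕ) (S : Finset A), S.card = n →
    2 * n + 2 ≤ L → (S.card : ℝ) ≤ ν ^ k → (k : ℝ) * S.card ≤ ν * fA u S := by
  intro n
  induction n using Nat.strong_induction_on with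
  | _ n ih =>
    intro S hn hS hc
    rcases S.eq_empty_or_nonempty with rfl | hne
    · simp only [card_empty, Nat.cast_zero, mul_zero]
      positivity
    obtain ⟨a, T, hT, hne', hf⟩ := exists_cut (k := k) (u := u) (L := L) hne (by rw [hn]; exact hS)
    have h1 := card_sdiff_add_card_eq_card (near_subset (u := u) (a := a) S T)
    have h2 : 0 < (near u a S T).card := card_pos.2 hne'
    have h3 := lift_lw hL hT hν (le_trans (by
      exact_mod_cast card_le_card (near_subset (u := u) (a := a) S T)) hc)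
    have h4 := ih (S \ near u a S T).card (by omega) _ rfl (by omega)
      (le_trans (by exact_mod_cast (by omega : (S \ near u a S T).card ≤ S.card)) hc)
    have h5 : (S.card : ℝ) = (near u a S T).card + (S \ near u a S T).card := by
      exact_mod_cast (by omega : S.card = (near u a S T).card + (S \ near u a S T).card)
    have h6 : (fA u (near u a S T) : ℝ) + fA u (S \ near u a S T) ≤ fA u S := by
      exact_mod_cast hf
    rw [h5]
    nlinarith

theorem small_eq (hL : Sep u L) (hk : 0 < k) {S : Finset A} {N : ℕ} (hN : 0 < N)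
    (hc : S.card = N ^ k) (hS : 2 * N ^ k + 2 ≤ L) (hf : N * fA u S ≤ k * N ^ k) :
    ∃ a, S = (box 0 N).image (ph u a) := by
  have hne : S.Nonempty := by
    rw [← card_pos, hc]
    positivity
  obtain ⟨a, T, hT, hne', hcut⟩ := exists_cut (k := k) (u := u) (L := L) hne (by rw [hc]; exact hS)
  have h1 := card_sdiff_add_card_eq_card (near_subset (u := u) (a := a) S T)
  have h2 : 0 < (near u a S T).card := card_pos.2 hne'
  rcases Nat.eq_zero_or_pos (S \ near u a S T).card with h3 | h3
  · have h4 : near u a S T = S := by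
      apply Finset.eq_of_subset_of_card_le (near_subset S T)
      omega
    obtain ⟨t, ht⟩ := lift_eq hL hT hN (by rw [h4]; exact hc) (by rw [h4]; exact hf)
    rw [h4, image_box_shift] at ht
    exact ⟨_, ht⟩
  · exfalso
    obtain ⟨ν, hν, hνk⟩ := exists_root k (N ^ k - 1) (by omega) (fun h => by omega)
    have hνk' : ν ^ k = (N : ℝ) ^ k - 1 := by
      rw [hνk, Nat.cast_sub (by omega)]
      push_cast
      ring
    have hνN : ν < N := by
      have : ν ^ k < (N : ℝ) ^ k := by rw [hνk']; linarith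
      exact lt_of_pow_lt_pow_left₀ k (by positivity) this
    have g1 : ((near u a S T).card : ℝ) ≤ ν ^ k := by
      rw [hνk]
      exact_mod_cast (by omega : (near u a S T).card ≤ N ^ k - 1)
    have g2 : ((S \ near u a S T).card : ℝ) ≤ ν ^ k := by
      rw [hνk]
      exact_mod_cast (by omega : (S \ near u a S T).card ≤ N ^ k - 1)
    have g3 := lift_lw hL hT hν g1
    have g4 := small_lw hL hν _ (S \ near u a S T) rfl (by omega) g2
    have g5 : (N : ℝ) ^ k = (near u a S T).card + (S \ near u a S T).card := by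
      exact_mod_cast (by omega : N ^ k = (near u a S T).card + (S \ near u a S T).card)
    have g6 : (fA u (near u a S T) : ℝ) + fA u (S \ near u a S T) ≤ fA u S := by
      exact_mod_cast hcut
    have g7 : (N : ℝ) * fA u S ≤ k * N ^ k := by exact_mod_cast hf
    have g8 : (0 : ℝ) < k * N ^ k := by
      have : 0 < k * N ^ k := by positivity
      exact_mod_cast this
    have g9 : (k : ℝ) * N ^ k ≤ ν * fA u S := by
      rw [g5]
      nlinarith
    have g10 : (0 : ℝ) < fA u S := by
      by_contra hcon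
      push Not at hcon
      nlinarith
    nlinarith

/-! ## The step -/

theorem step (hL : Sep u L) (hk : 0 < k) {S : Finset A} {m r j : ℕ}
    (hc : S.card = (m + 1) ^ k) (hf : (m + 1) * fA u S ≤ k * (m + 1) ^ k)
    (hB : (box 0 m).image (ph u a) ⊆ S) (hr : 0 < r) (hrL : r ≤ L)
    (hrk : 2 * (m + 1) ^ k ≤ r ^ k + 2 * m ^ k) (hrm : 4 * k * r < m + 1)
    (hj : (m + 1) ^ k < 2 ^ j) (hmL : m + 2 * (8 * k * r * j) + 3 ≤ L) :
    ∃ a', S = (box 0 (m + 1)).image (ph u a') := by
  obtain ⟨y, hy⟩ : ∃ y : ℕ → ℕ, ∀ ρ, y ρ = (S \ near u a S (nb k m ρ)).card := ⟨_, fun _ => rfl⟩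
  have hanti : Antitone y := by
    intro ρ ρ' h
    rw [hy, hy]
    exact card_le_card (sdiff_subset_sdiff (le_refl S) (near_mono S (nb_mono h)))
  have hmL' : m ≤ L := by omega
  have hy0 : y 0 + m ^ k ≤ (m + 1) ^ k := by
    rw [hy, ← hc, ← card_cube (u := u) (a := a) hL hmL']
    have h1 : (box 0 m).image (ph u a) ⊆ near u a S (nb k m 0) := by
      intro z hz
      rw [mem_near]
      refine ⟨hB hz, ?_⟩
      rw [mem_image] at hz
      obtain ⟨x, hx, rfl⟩ := hz
      refine ⟨x, ?_, rfl⟩
      rw [mem_box] at hx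
      rw [mem_nb]
      intro i
      have := hx i
      simp only [Pi.zero_apply] at this
      constructor
      · push_cast
        omega
      · push_cast
        omega
    have h2 := card_le_card h1
    have h3 := card_sdiff_add_card_eq_card (near_subset (u := u) (a := a) S (nb k m 0))
    omega
  have hq : 0 < 8 * k * r := by positivity
  obtain ⟨ρ, hρ, hcase⟩ := halving hanti (q := 8 * k * r) (j := j) hq (by omega)
  have hdiff := nb_diff (k := k) (m := m) (ρ := ρ) (L := L) (by
    have : ρ ≤ 8 * k * r * j := hρ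
    omega)
  have hcardsum := card_sdiff_add_card_eq_card (near_subset (u := u) (a := a) S (nb k m ρ))
  rw [← hy] at hcardsum
  rcases Nat.eq_zero_or_pos (y ρ) with h0 | h0
  · have h4 : near u a S (nb k m ρ) = S := by
      apply Finset.eq_of_subset_of_card_le (near_subset S _)
      omega
    obtain ⟨t, ht⟩ := lift_eq hL hdiff (N := m + 1) (by omega) (by rw [h4]; exact hc)
      (by rw [h4]; exact hf)
    rw [h4, image_box_shift] at ht
    exact ⟨_, ht⟩
  · exfalso
    have hslow : 8 * k * r * y ρ ≤ 8 * k * r * y (ρ + 1) + y ρ := by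
      rcases hcase with h | h
      · omega
      · exact h
    have h1 := cut (u := u) (a := a) (nb_mono (k := k) (m := m) (Nat.le_succ ρ)) nb_step S
    have h2 := card_cut (u := u) (a := a) (nb_mono (k := k) (m := m) (Nat.le_succ ρ)) S
    obtain ⟨D, hD⟩ : ∃ D, D = (near u a S (nb k m (ρ + 1)) \ near u a S (nb k m ρ)).card :=
      ⟨_, rfl⟩
    have h1' : fA u (near u a S (nb k m ρ)) + fA u (S \ near u a S (nb k m ρ)) ≤
      fA u S + 2 * k * D := by rw [hD]; exact h1
    have h2' : D + y (ρ + 1) = y ρ := by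
      rw [hD, hy, hy]
      exact h2
    have h3 : y ρ ≤ 2 * r * fA u (S \ near u a S (nb k m ρ)) := by
      have hyle : y ρ ≤ y 0 := hanti (Nat.zero_le ρ)
      have := crude_le (u := u) (k := k) hL (Y := S \ near u a S (nb k m ρ)) hr hrL (by
        rw [← hy]
        omega)
      rwa [← hy] at this
    have h4 := lift_lw hL hdiff (ν := ((m + 1 : ℕ) : ℝ)) (S := S) (a := a) (by positivity) (by
      have := card_le_card (near_subset (u := u) (a := a) S (nb k m ρ))
      rw [hc] at this
      exact_mod_cast this)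
    have h5 : k * (near u a S (nb k m ρ)).card ≤ (m + 1) * fA u (near u a S (nb k m ρ)) := by
      exact_mod_cast h4
    obtain ⟨p, hp⟩ : ∃ p, p = (near u a S (nb k m ρ)).card := ⟨_, rfl⟩
    obtain ⟨f1, hf1⟩ : ∃ f1, f1 = fA u (near u a S (nb k m ρ)) := ⟨_, rfl⟩
    obtain ⟨f2, hf2⟩ : ∃ f2, f2 = fA u (S \ near u a S (nb k m ρ)) := ⟨_, rfl⟩
    obtain ⟨f, hff⟩ : ∃ f, f = fA u S := ⟨_, rfl⟩
    obtain ⟨z, hz⟩ : ∃ z, z = y ρ := ⟨_, rfl⟩
    obtain ⟨z', hz'⟩ : ∃ z', z' = y (ρ + 1) := ⟨_, rfl⟩
    rw [← hp] at h5 hcardsum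
    rw [← hf1, ← hf2, ← hff] at h1'
    rw [← hf2] at h3
    rw [← hf1] at h5
    rw [← hff] at hf
    rw [← hz] at h0 hslow h2' h3 hcardsum
    rw [← hz'] at hslow h2'
    rw [hc] at hcardsum
    -- `8 k r D ≤ z`
    have g1 : 8 * k * r * D ≤ z := by
      have : 8 * k * r * z = 8 * k * r * D + 8 * k * r * z' := by
        rw [← h2']
        ring
      omega
    -- `4 r f1 + z ≤ 4 r f`
    have g2 : 4 * r * f1 + z ≤ 4 * r * f := by
      have e1 : 4 * r * (f1 + f2) ≤ 4 * r * (f + 2 * k * D) := Nat.mul_le_mul_left _ h1'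
      have e2 : 4 * r * (f + 2 * k * D) = 4 * r * f + 8 * k * r * D := by ring
      have e3 : 4 * r * (f1 + f2) = 4 * r * f1 + 2 * (2 * r * f2) := by ring
      omega
    have g3 : (m + 1) * (4 * r * f1 + z) ≤ 4 * r * (k * (m + 1) ^ k) := by
      calc (m + 1) * (4 * r * f1 + z) ≤ (m + 1) * (4 * r * f) := Nat.mul_le_mul_left _ g2
        _ = 4 * r * ((m + 1) * f) := by ring
        _ ≤ _ := Nat.mul_le_mul_left _ hf
    have g4 : 4 * r * (k * p) ≤ 4 * r * ((m + 1) * f1) := Nat.mul_le_mul_left _ h5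
    have g5 : 4 * r * (k * (m + 1) ^ k) = 4 * r * (k * p) + 4 * k * r * z := by
      rw [← hcardsum]
      ring
    have g6 : (m + 1) * (4 * r * f1 + z) = 4 * r * ((m + 1) * f1) + (m + 1) * z := by ring
    have g7 : (m + 1) * z ≤ 4 * k * r * z := by omega
    have g8 := Nat.le_of_mul_le_mul_right g7 h0
    omega

end Pool.Agent.Lib.MP_602b76_co_Gen
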